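import Pool.Agent.BE6F.QI

/-!
# Right-invariant means on groups of polynomial growth
-/

set_option autoImplicit false

open Filter Topology
open scoped Pointwise

namespace BE6F

lemma exists_lim {X : Type*} [TopologicalSpace X] {Q : Set X} (hQ : IsCompact Q) (u : ℕ → X)
    (h : ∀ k, u k ∈ Q) (𝒰 : Ultrafilter ℕ) : ∃ v ∈ Q, Tendsto u 𝒰 (𝓝 v) := by
  obtain ⟨v, hv, hle⟩ := hQ.ultrafilter_le_nhds (𝒰.map u) (by
    rw [Ultrafilter.coe_map, le_principal_iff]
    exact Filter.mem_map.mpr (Filter.univ_mem' h))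
  exact ⟨v, hv, hle⟩

section Folner

variable {Γ : Type} [Group Γ] {S : Set Γ} (hS : S.Finite)

/-- the ball of radius `n` -/
noncomputable def ball (n : ℕ) : Finset Γ := (finite_pow hS n).toFinset

lemma mem_ball {n : ℕ} {x : Γ} : x ∈ ball hS n ↔ x ∈ S ^ n := by simp [ball]

lemma ball_nonempty (h1 : (1 : Γ) ∈ S) (n : ℕ) : (ball hS n).Nonempty :=
  ⟨1, (mem_ball hS).mpr (by simpa using Set.pow_mem_pow h1)⟩

lemma exists_folner (hgrow : PolyBdd (fun n => (ball hS n).card)) :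
    ∃ ν : ℕ → ℕ, ∀ k : ℕ, ((ball hS (ν k + 1)).card : ℝ) ≤
      (1 + 1 / ((k : ℝ) + 1)) * (ball hS (ν k)).card := by
  have key : ∀ k : ℕ, ∃ n : ℕ, ((ball hS (n + 1)).card : ℝ) ≤
      (1 + 1 / ((k : ℝ) + 1)) * (ball hS n).card := by
    intro k
    by_contra hcon
    push Not at hcon
    obtain ⟨C, d, hC⟩ := hgrow
    set r : ℝ := 1 + 1 / ((k : ℝ) + 1) with hr
    have hr1 : 1 < r := by
      have : (0 : ℝ) < 1 / ((k : ℝ) + 1) := by positivity
      linarith
    have hlow : ∀ n : ℕ, r ^ n ≤ ((ball hS n).card : ℝ) := by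
      intro n
      induction n with
      | zero =>
        have : ball hS 0 = {1} := by
          ext x; rw [mem_ball]; simp
        simp [this]
      | succ n ih =>
        rw [pow_succ]
        have h1 := hcon n
        have h2 : r ^ n * r ≤ (ball hS n).card * r :=
          mul_le_mul_of_nonneg_right ih (by linarith)
        linarith
    have ht := tendsto_pow_const_div_const_pow_of_one_lt d hr1
    have ht2 := (tendsto_add_atTop_iff_nat 1).mpr ht
    have ht3 := ht2.const_mul ((C : ℝ) * r)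
    rw [mul_zero] at ht3
    obtain ⟨n, hn⟩ := (ht3.eventually (gt_mem_nhds one_pos)).exists
    have h1 := hlow n
    have h2 : ((ball hS n).card : ℝ) ≤ C * ((n : ℝ) + 1) ^ d := by
      have := hC n
      exact_mod_cast this
    have hrn : 0 < r ^ n := by positivity
    have h3 : (C : ℝ) * r * (((n + 1 : ℕ) : ℝ) ^ d / r ^ (n + 1)) =
        C * ((n : ℝ) + 1) ^ d / r ^ n := by
      have hr0 : r ≠ 0 := by linarith
      push_cast
      rw [pow_succ]
      field_simp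
    rw [h3, div_lt_one hrn] at hn
    linarith
  choose ν hν using key
  exact ⟨ν, hν⟩

variable {m : ℕ}

/-- averages over balls -/
noncomputable def avg (ν : ℕ → ℕ) (k : ℕ) (u : Γ → (Fin m → ℝ)) : Fin m → ℝ :=
  ((ball hS (ν k)).card : ℝ)⁻¹ • ∑ x ∈ ball hS (ν k), u x

lemma avg_add (ν : ℕ → ℕ) (k : ℕ) (u v : Γ → (Fin m → ℝ)) :
    avg hS ν k (fun x => u x + v x) = avg hS ν k u + avg hS ν k v := by
  simp [avg, Finset.sum_add_distrib, smul_add]

lemma avg_const (h1 : (1 : Γ) ∈ S) (ν : ℕ → ℕ) (k : ℕ) (c : Fin m → ℝ) :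
    avg hS ν k (fun _ => c) = c := by
  have h0 : ((ball hS (ν k)).card : ℝ) ≠ 0 := by
    have := (ball_nonempty hS h1 (ν k)).card_pos
    positivity
  simp only [avg, Finset.sum_const]
  rw [← Nat.cast_smul_eq_nsmul ℝ, smul_smul, inv_mul_cancel₀ h0, one_smul]

lemma avg_mem (ν : ℕ → ℕ) (k : ℕ) (u : Γ → (Fin m → ℝ)) (W : Submodule ℝ (Fin m → ℝ))
    (h : ∀ x, u x ∈ W) : avg hS ν k u ∈ W :=
  W.smul_mem _ (W.sum_mem (fun x _ => h x))

lemma avg_norm (h1 : (1 : Γ) ∈ S) (ν : ℕ → ℕ) (k : ℕ) (u : Γ → (Fin m → ℝ)) (M : ℝ)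
    (h : ∀ x, ‖u x‖ ≤ M) : ‖avg hS ν k u‖ ≤ M := by
  have h0 : (0 : ℝ) < (ball hS (ν k)).card := by
    have := (ball_nonempty hS h1 (ν k)).card_pos
    positivity
  rw [avg, norm_smul, norm_inv, Real.norm_of_nonneg h0.le, inv_mul_le_iff₀ h0]
  refine (norm_sum_le _ _).trans ?_
  refine (Finset.sum_le_card_nsmul _ _ M (fun x _ => h x)).trans ?_
  rw [nsmul_eq_mul]

lemma avg_shift (h1 : (1 : Γ) ∈ S) {ν : ℕ → ℕ}
    (hν : ∀ k : ℕ, ((ball hS (ν k + 1)).card : ℝ) ≤
      (1 + 1 / ((k : ℝ) + 1)) * (ball hS (ν k)).card)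
    (k : ℕ) (u : Γ → (Fin m → ℝ)) (M : ℝ) (h : ∀ x, ‖u x‖ ≤ M) {s : Γ} (hs : s ∈ S) :
    ‖avg hS ν k (fun x => u (x * s)) - avg hS ν k u‖ ≤ 2 * M * (1 / ((k : ℝ) + 1)) := by
  classical
  set T := ball hS (ν k) with hT
  set T' := ball hS (ν k + 1) with hT'
  have h0 : (0 : ℝ) < T.card := by
    have := (ball_nonempty hS h1 (ν k)).card_pos
    positivity
  have hM : 0 ≤ M := (norm_nonneg _).trans (h 1)
  set Ts := T.image (fun x => x * s) with hTs
  have hTsub : T ⊆ T' := by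
    intro x hx
    rw [hT, mem_ball] at hx
    rw [hT', mem_ball]
    exact mem_pow_mono h1 (Nat.le_succ _) hx
  have hTssub : Ts ⊆ T' := by
    intro y hy
    obtain ⟨x, hx, rfl⟩ := Finset.mem_image.mp hy
    rw [hT, mem_ball] at hx
    rw [hT', mem_ball, pow_succ]
    exact Set.mul_mem_mul hx hs
  have hTscard : Ts.card = T.card := Finset.card_image_of_injective _ (mul_left_injective s)
  have hsum : ∑ x ∈ T, u (x * s) = ∑ y ∈ Ts, u y := by
    rw [hTs, Finset.sum_image (fun x _ y _ hxy => mul_left_injective s hxy)]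
  have hdiff : ∀ R : Finset Γ, R ⊆ T' → R.card = T.card →
      ‖∑ x ∈ T', u x - ∑ x ∈ R, u x‖ ≤ M * (1 / ((k : ℝ) + 1) * T.card) := by
    intro R hR hcard
    rw [← Finset.sum_sdiff hR, add_sub_cancel_right]
    refine (norm_sum_le _ _).trans ?_
    refine (Finset.sum_le_card_nsmul _ _ M (fun x _ => h x)).trans ?_
    rw [nsmul_eq_mul, mul_comm]
    apply mul_le_mul_of_nonneg_left _ hM
    rw [Finset.card_sdiff_of_subset hR, Nat.cast_sub (Finset.card_le_card hR), hcard]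
    have := hν k
    rw [← hT, ← hT'] at this
    linarith
  have hA := hdiff T hTsub rfl
  have hB := hdiff Ts hTssub hTscard
  have hkey : ‖∑ x ∈ T, u (x * s) - ∑ x ∈ T, u x‖ ≤ 2 * M * (1 / ((k : ℝ) + 1)) * T.card := by
    rw [hsum]
    have : ∑ y ∈ Ts, u y - ∑ x ∈ T, u x =
      (∑ x ∈ T', u x - ∑ x ∈ T, u x) - (∑ x ∈ T', u x - ∑ y ∈ Ts, u y) := by abel
    rw [this]
    refine (norm_sub_le _ _).trans ?_
    have : 2 * M * (1 / ((k : ℝ) + 1)) * T.card = M * (1 / ((k : ℝ) + 1) * T.card) +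
      M * (1 / ((k : ℝ) + 1) * T.card) := by ring
    rw [this]
    exact add_le_add hA hB
  have : avg hS ν k (fun x => u (x * s)) - avg hS ν k u =
      ((T.card : ℝ)⁻¹) • (∑ x ∈ T, u (x * s) - ∑ x ∈ T, u x) := by
    simp only [avg, ← hT, smul_sub]
  rw [this, norm_smul, norm_inv, Real.norm_of_nonneg h0.le, inv_mul_le_iff₀ h0]
  linarith

/-- **Existence of a right-invariant mean** (vector valued) on a group of polynomial growth. -/
theorem exists_mean (h1 : (1 : Γ) ∈ S) (hgen : ∀ x : Γ, ∃ n : ℕ, x ∈ S ^ n)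
    (hgrow : PolyBdd (fun n => (ball hS n).card)) (m : ℕ) :
    ∃ M : (Γ → (Fin m → ℝ)) → (Fin m → ℝ),
      (∀ u v C D, (∀ x, ‖u x‖ ≤ C) → (∀ x, ‖v x‖ ≤ D) →
        M (fun x => u x + v x) = M u + M v) ∧
      (∀ c, M (fun _ => c) = c) ∧
      (∀ u C, (∀ x, ‖u x‖ ≤ C) → ∀ y, M (fun x => u (x * y)) = M u) ∧
      (∀ u C, (∀ x, ‖u x‖ ≤ C) → ∀ W : Submodule ℝ (Fin m → ℝ), (∀ x, u x ∈ W) → M u ∈ W) ∧
      (∀ u C, (∀ x, ‖u x‖ ≤ C) → ‖M u‖ ≤ C) := by
  classical
  obtain ⟨ν, hν⟩ := exists_folner hS hgrow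
  set 𝒰 : Ultrafilter ℕ := hyperfilter ℕ with h𝒰
  have hatTop : (𝒰 : Filter ℕ) ≤ atTop := by
    rw [← Nat.cofinite_eq_atTop]; exact hyperfilter_le_cofinite
  have hex : ∀ u : Γ → (Fin m → ℝ), (∃ C, ∀ x, ‖u x‖ ≤ C) →
      ∃ v, Tendsto (fun k => avg hS ν k u) 𝒰 (𝓝 v) := by
    rintro u ⟨C, hC⟩
    obtain ⟨v, _, hv⟩ := exists_lim (isCompact_closedBall (0 : Fin m → ℝ) C)
      (fun k => avg hS ν k u) (fun k => by
        rw [mem_closedBall_zero_iff]; exact avg_norm hS h1 ν k u C hC) 𝒰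
    exact ⟨v, hv⟩
  set M : (Γ → (Fin m → ℝ)) → (Fin m → ℝ) := fun u =>
    if h : ∃ C, ∀ x, ‖u x‖ ≤ C then (hex u h).choose else 0 with hMdef
  have hM : ∀ u C, (∀ x, ‖u x‖ ≤ C) → Tendsto (fun k => avg hS ν k u) 𝒰 (𝓝 (M u)) := by
    intro u C hC
    have h : ∃ C, ∀ x, ‖u x‖ ≤ C := ⟨C, hC⟩
    have h2 : M u = (hex u h).choose := by simp only [hMdef]; rw [dif_pos h]
    rw [h2]
    exact (hex u h).choose_spec
  have hinv1 : ∀ s ∈ S, ∀ u C, (∀ x, ‖u x‖ ≤ C) → M (fun x => u (x * s)) = M u := by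
    intro s hs u C hC
    have hC' : ∀ x, ‖(fun x => u (x * s)) x‖ ≤ C := fun x => hC _
    have ht := (hM _ C hC').sub (hM u C hC)
    have hz : Tendsto (fun k : ℕ => avg hS ν k (fun x => u (x * s)) - avg hS ν k u) atTop
        (𝓝 0) := by
      apply squeeze_zero_norm (a := fun k : ℕ => 2 * C * (1 / ((k : ℝ) + 1)))
        (fun k => avg_shift hS h1 hν k u C hC hs)
      have := (tendsto_one_div_add_atTop_nhds_zero_nat (𝕜 := ℝ)).const_mul (2 * C)
      simpa using this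
    have := tendsto_nhds_unique ht (hz.mono_left hatTop)
    exact sub_eq_zero.mp this
  have hinv : ∀ n : ℕ, ∀ y ∈ S ^ n, ∀ u C, (∀ x, ‖u x‖ ≤ C) → M (fun x => u (x * y)) = M u := by
    intro n
    induction n with
    | zero =>
      intro y hy u C hC
      rw [pow_zero, Set.mem_one] at hy
      simp [hy]
    | succ n ih =>
      intro y hy u C hC
      rw [pow_succ] at hy
      obtain ⟨y', hy', s, hs, rfl⟩ := hy
      have h2 := ih y' hy' (fun x => u (x * s)) C (fun x => hC _)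
      have h3 : (fun x => u (x * (y' * s))) = fun x => u (x * y' * s) := by
        funext x; rw [mul_assoc]
      rw [h3, h2]
      exact hinv1 s hs u C hC
  refine ⟨M, ?_, ?_, ?_, ?_, ?_⟩
  · intro u v C D hC hD
    have h2 : ∀ x, ‖(fun x => u x + v x) x‖ ≤ C + D := fun x =>
      (norm_add_le _ _).trans (add_le_add (hC x) (hD x))
    have h3 := (hM u C hC).add (hM v D hD)
    have h4 := hM _ _ h2
    simp only [avg_add] at h4
    exact tendsto_nhds_unique h4 h3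
  · intro c
    have h2 := hM (fun _ => c) ‖c‖ (fun _ => le_rfl)
    simp only [avg_const hS h1] at h2
    exact tendsto_nhds_unique h2 tendsto_const_nhds
  · intro u C hC y
    obtain ⟨n, hn⟩ := hgen y
    exact hinv n y hn u C hC
  · intro u C hC W hW
    have hcl : IsClosed (W : Set (Fin m → ℝ)) := W.closed_of_finiteDimensional
    exact hcl.mem_of_tendsto (hM u C hC) (Eventually.of_forall (fun k => avg_mem hS ν k u W hW))
  · intro u C hC
    exact le_of_tendsto (hM u C hC).norm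
      (Eventually.of_forall (fun k => avg_norm hS h1 ν k u C hC))

end Folner

end BE6F
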