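import Pool.Agent.BE6F.Reach
import Pool.Agent.BE6F.Mean

/-!
# A homomorphism onto a Zariski-dense subgroup of a quasi-isometric group has a lattice as image
-/

set_option autoImplicit false

open Filter Topology
open scoped Pointwise commutatorElement

namespace BE6F

/-- polynomially bounded sequences are doubling infinitely often -/
lemma PolyBdd.doubling {u : ℕ → ℕ} (hu : PolyBdd u) (hpos : ∀ n, 1 ≤ u n) (l : ℕ) (hl : 2 ≤ l) :
    ∃ D : ℕ, ∀ N0 : ℕ, ∃ N, N0 ≤ N ∧ u (l * N) ≤ D * u N := by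
  obtain ⟨C, d, hC⟩ := hu
  refine ⟨l ^ (d + 1), fun N0' => ?_⟩
  by_contra hcon
  push Not at hcon
  set N0 := N0' + 1 with hN0
  have hcon' : ∀ N, N0 ≤ N → l ^ (d + 1) * u N < u (l * N) := fun N hN => hcon N (by omega)
  have hpowpos : ∀ j : ℕ, 1 ≤ l ^ j := fun j => Nat.one_le_pow _ _ (by omega)
  have hlow : ∀ j : ℕ, (l ^ (d + 1)) ^ j ≤ u (l ^ j * N0) := by
    intro j
    induction j with
    | zero => simpa using hpos N0
    | succ j ih =>
      have h1 := hcon' (l ^ j * N0) (by have := hpowpos j; nlinarith)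
      have h2 : l * (l ^ j * N0) = l ^ (j + 1) * N0 := by ring
      rw [h2] at h1
      rw [pow_succ]
      calc (l ^ (d + 1)) ^ j * l ^ (d + 1) ≤ u (l ^ j * N0) * l ^ (d + 1) :=
            Nat.mul_le_mul_right _ ih
        _ = l ^ (d + 1) * u (l ^ j * N0) := by ring
        _ ≤ u (l ^ (j + 1) * N0) := h1.le
  set j := C * (2 * N0) ^ d with hj
  have h1 := hlow j
  have h2 := hC (l ^ j * N0)
  have h3 : l ^ j * N0 + 1 ≤ 2 * N0 * l ^ j := by
    have := hpowpos j
    nlinarith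
  have h4 : (l ^ j) ^ (d + 1) ≤ (C * (2 * N0) ^ d) * (l ^ j) ^ d := by
    calc (l ^ j) ^ (d + 1) = (l ^ (d + 1)) ^ j := by rw [← pow_mul, ← pow_mul, mul_comm]
      _ ≤ u (l ^ j * N0) := h1
      _ ≤ C * (l ^ j * N0 + 1) ^ d := h2
      _ ≤ C * (2 * N0 * l ^ j) ^ d := Nat.mul_le_mul_left _ (Nat.pow_le_pow_left h3 _)
      _ = (C * (2 * N0) ^ d) * (l ^ j) ^ d := by rw [mul_pow]; ring
  have h5 : l ^ j ≤ C * (2 * N0) ^ d := by
    rw [pow_succ, mul_comm] at h4
    exact Nat.le_of_mul_le_mul_right h4 (Nat.pow_pos (hpowpos j))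
  have h6 : j < l ^ j := Nat.lt_pow_self (by omega)
  omega

namespace NilCoords

variable {m : ℕ} {G : Type} [Group G] [TopologicalSpace G] [IsTopologicalGroup G]
  (E : NilCoords m G)

lemma compact_box (C : ℕ) : IsCompact {g : G | ∀ i, |E.e g i| ≤ C} := by
  have h1 : {g : G | ∀ i, |E.e g i| ≤ C} = E.e.symm '' Metric.closedBall (0 : Fin m → ℝ) C := by
    ext g
    simp only [Set.mem_ofPred_eq, Set.mem_image, mem_closedBall_zero_iff]
    constructor
    · intro h
      exact ⟨E.e g, (pi_norm_le_iff_of_nonneg (Nat.cast_nonneg C)).mpr h, by simp⟩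
    · rintro ⟨v, hv, rfl⟩ i
      rw [Homeomorph.apply_symm_apply]
      exact (norm_le_pi_norm v i).trans hv
  rw [h1]
  exact (isCompact_closedBall _ _).image E.e.symm.continuous

/-- **Finiteness of the fibres.** -/
theorem finite_fibres {Γ : Type} [Group Γ] {S : Set Γ} {K : Set G} {A B : ℕ} {f : Γ → G}
    (hSf : S.Finite) (h1S : (1 : Γ) ∈ S) (hSi : S⁻¹ = S) (hgen : ∀ x : Γ, ∃ n : ℕ, x ∈ S ^ n)
    (hK : IsCompact K) (hK1 : K ∈ 𝓝 (1 : G)) (hKi : K⁻¹ = K) (hf : IsQI S K A B f)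
    (φ : Γ →* G)
    (hspan : ∀ v, E.pr 1 v ∈ Submodule.span ℝ (Set.range (fun γ : Γ => E.co 1 (φ γ))))
    (q : ℕ) : {x : Γ | φ x ∈ K ^ q}.Finite := by
  classical
  have h1K : (1 : G) ∈ K := mem_of_mem_nhds hK1
  have hex : ∀ g : G, ∃ n, g ∈ K ^ n := hf.exhaust hgen hKi
  obtain ⟨L, C, hL⟩ := E.linear_control S φ h1S hSi hSf hgen hspan hK hK1 hKi hex
  obtain ⟨q1, hq1⟩ := compact_subset_pow hK1 hex (E.compact_box C)
  have hgrow : PolyBdd (fun n => (ball hSf n).card) :=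
    growth_of_qi E.toExpCoords hSf hgen hK hK1 hKi hf
  set L' := L * (A + B + 1) with hL'
  obtain ⟨D, hD⟩ := hgrow.doubling (fun n => (ball_nonempty hSf h1S n).card_pos) (L' + 2)
    (by omega)
  set c' := A * (q1 + (q + q) + q1) + B with hc'
  set c1 := (ball hSf c').card with hc1
  by_contra hinf
  obtain ⟨T, hTsub, hTcard⟩ := Set.Infinite.exists_subset_card_eq hinf (c1 * D + 1)
  -- the lengths of the elements of T
  have hTlen : ∃ r : ℕ, ∀ t ∈ T, t ∈ S ^ r := by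
    have h2 : ∀ U : Finset Γ, ∃ r : ℕ, ∀ t ∈ U, t ∈ S ^ r := by
      intro U
      induction U using Finset.induction_on with
      | empty => exact ⟨0, by simp⟩
      | insert a U _ ih =>
        obtain ⟨r, hr⟩ := ih
        obtain ⟨r', hr'⟩ := hgen a
        refine ⟨max r r', fun t ht => ?_⟩
        rcases Finset.mem_insert.mp ht with rfl | ht
        · exact mem_pow_mono h1S (le_max_right _ _) hr'
        · exact mem_pow_mono h1S (le_max_left _ _) (hr t ht)
    exact h2 T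
  obtain ⟨r, hr⟩ := hTlen
  obtain ⟨N, hN, hNd⟩ := hD (r + 1)
  have hN1 : 1 ≤ N := by omega
  -- choose approximations
  have happ : ∀ x : Γ, ∃ y : Γ, x ∈ S ^ N →
      (y ∈ S ^ (L' * N) ∧ (φ y)⁻¹ * ((f 1)⁻¹ * f x) ∈ K ^ q1) := by
    intro x
    by_cases hx : x ∈ S ^ N
    · have h2 := hf.up 1 x N (by simpa using hx)
      have h3 : (f 1)⁻¹ * f x ∈ K ^ ((A + B + 1) * N) :=
        mem_pow_mono h1K (by nlinarith) h2
      obtain ⟨y, hy, hyc⟩ := hL ((A + B + 1) * N) (Nat.mul_pos (by omega) hN1) _ h3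
      refine ⟨y, fun _ => ⟨?_, hq1 hyc⟩⟩
      rw [hL', mul_assoc]; exact hy
    · exact ⟨1, fun h => absurd h hx⟩
  choose Y hY using happ
  set Ψ : Γ × Γ → Γ := fun p => Y p.1 * p.2 with hΨ
  have himg : ((ball hSf N) ×ˢ T).image Ψ ⊆ ball hSf ((L' + 2) * N) := by
    intro z hz
    obtain ⟨⟨x, t⟩, hp, rfl⟩ := Finset.mem_image.mp hz
    rw [Finset.mem_product] at hp
    have hx : x ∈ S ^ N := (mem_ball hSf).mp hp.1
    rw [mem_ball]
    have h2 := mul_mem_pow (hY x hx).1 (hr t hp.2)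
    exact mem_pow_mono h1S (by nlinarith) h2
  have hfib : ∀ b ∈ ((ball hSf N) ×ˢ T).image Ψ,
      (((ball hSf N) ×ˢ T).filter (fun p => Ψ p = b)).card ≤ c1 := by
    intro b hb
    obtain ⟨⟨x0, t0⟩, hp0, hb0⟩ := Finset.mem_image.mp hb
    rw [Finset.mem_product] at hp0
    have hx0 : x0 ∈ S ^ N := (mem_ball hSf).mp hp0.1
    apply Finset.card_le_card_of_injOn (fun p => x0⁻¹ * p.1)
    · rintro ⟨x, t⟩ hp
      simp only [Finset.coe_filter, Set.mem_ofPred_eq, Finset.mem_product] at hp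
      obtain ⟨⟨hxb, htT⟩, hΨp⟩ := hp
      have hx : x ∈ S ^ N := (mem_ball hSf).mp hxb
      simp only [Finset.mem_coe]
      rw [mem_ball]
      apply hf.lo
      -- f(x0)⁻¹ f(x)
      have h2 : Y x * t = Y x0 * t0 := by
        have h3 : Ψ (x, t) = Ψ (x0, t0) := hΨp.trans hb0.symm
        exact h3
      have h3 : (φ (Y x0))⁻¹ * φ (Y x) = φ t0 * (φ t)⁻¹ := by
        have h4 : Y x = Y x0 * t0 * t⁻¹ := by rw [← h2]; group
        rw [h4, map_mul, map_mul, map_inv]; group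
      have h5 : (f x0)⁻¹ * f x = ((φ (Y x0))⁻¹ * ((f 1)⁻¹ * f x0))⁻¹ *
          (φ t0 * (φ t)⁻¹) * ((φ (Y x))⁻¹ * ((f 1)⁻¹ * f x)) := by
        rw [← h3]; group
      rw [h5]
      have ht0K : φ t0 ∈ K ^ q := hTsub hp0.2
      have htK : φ t ∈ K ^ q := hTsub htT
      exact mul_mem_pow (mul_mem_pow (inv_mem_pow hKi (hY x0 hx0).2)
        (mul_mem_pow ht0K (inv_mem_pow hKi htK))) (hY x hx).2
    · rintro ⟨x, t⟩ hp ⟨x', t'⟩ hp' hxx
      simp only [Finset.coe_filter, Set.mem_ofPred_eq] at hp hp'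
      have h2 : x = x' := mul_left_cancel hxx
      subst h2
      have h3 : Y x * t = Y x * t' := hp.2.trans hp'.2.symm
      rw [mul_left_cancel h3]
  have hcount : (ball hSf N).card * (c1 * D + 1) ≤ c1 * (ball hSf ((L' + 2) * N)).card := by
    calc (ball hSf N).card * (c1 * D + 1) = ((ball hSf N) ×ˢ T).card := by
          rw [Finset.card_product, hTcard]
      _ ≤ c1 * (((ball hSf N) ×ˢ T).image Ψ).card :=
          Finset.card_le_mul_card_image _ _ hfib
      _ ≤ c1 * (ball hSf ((L' + 2) * N)).card :=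
          Nat.mul_le_mul_left _ (Finset.card_le_card himg)
  have hfinal : c1 * (ball hSf ((L' + 2) * N)).card ≤ c1 * (D * (ball hSf N).card) :=
    Nat.mul_le_mul_left _ hNd
  have hpos : 1 ≤ (ball hSf N).card := (ball_nonempty hSf h1S N).card_pos
  nlinarith

/-- **A homomorphism with spanning abelianization gives a lattice.** -/
theorem lattice_of_hom {Γ : Type} [Group Γ] {S : Set Γ} {K : Set G} {A B : ℕ} {f : Γ → G}
    (hSf : S.Finite) (h1S : (1 : Γ) ∈ S) (hSi : S⁻¹ = S) (hgen : ∀ x : Γ, ∃ n : ℕ, x ∈ S ^ n)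
    (hK : IsCompact K) (hK1 : K ∈ 𝓝 (1 : G)) (hKi : K⁻¹ = K) (hf : IsQI S K A B f)
    (φ : Γ →* G)
    (hspan : ∀ v, E.pr 1 v ∈ Submodule.span ℝ (Set.range (fun γ : Γ => E.co 1 (φ γ)))) :
    ∃ H : Subgroup G, DiscreteTopology H ∧ CompactSpace (G ⧸ H) := by
  classical
  have : T2Space G := E.e.symm.t2Space
  have h1K : (1 : G) ∈ K := mem_of_mem_nhds hK1
  have hex : ∀ g : G, ∃ n, g ∈ K ^ n := hf.exhaust hgen hKi
  refine ⟨φ.range, ?_, ?_⟩
  · have hfin : ((φ.range : Set G) ∩ K).Finite := by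
      apply ((E.finite_fibres hSf h1S hSi hgen hK hK1 hKi hf φ hspan 1).image φ).subset
      rintro h ⟨⟨y, rfl⟩, hyK⟩
      exact ⟨y, by simpa using hyK, rfl⟩
    have hopen : IsOpen ({1} : Set φ.range) := by
      have hU : IsOpen (interior K \ (((φ.range : Set G) ∩ K) \ {1})) :=
        isOpen_interior.sdiff (hfin.subset Set.sdiff_subset).isClosed
      have h2 := hU.preimage (continuous_subtype_val (p := fun x => x ∈ φ.range))
      convert h2 using 1
      ext ⟨x, hx⟩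
      simp only [Set.mem_singleton_iff, Set.mem_preimage, Set.mem_sdiff, Set.mem_inter_iff,
        SetLike.mem_coe, hx, true_and, not_and, not_not]
      constructor
      · intro h
        have hx1 : x = 1 := congrArg Subtype.val h
        subst hx1
        exact ⟨mem_interior_iff_mem_nhds.mpr hK1, fun _ => rfl⟩
      · rintro ⟨h2, h3⟩
        exact Subtype.ext (h3 (interior_subset h2))
    exact discreteTopology_of_isOpen_singleton_one hopen
  · constructor
    obtain ⟨L, C, hL⟩ := E.linear_control S φ h1S hSi hSf hgen hspan hK hK1 hKi hex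
    have h2 : (Set.univ : Set (G ⧸ φ.range)) =
        (QuotientGroup.mk : G → G ⧸ φ.range) '' ({g : G | ∀ i, |E.e g i| ≤ C}⁻¹) := by
      symm
      rw [Set.eq_univ_iff_forall]
      intro z
      obtain ⟨h, rfl⟩ := QuotientGroup.mk_surjective z
      obtain ⟨n, hn⟩ := hex h⁻¹
      obtain ⟨y, _, hyc⟩ := hL (n + 1) (by omega) h⁻¹ (mem_pow_mono h1K (Nat.le_succ _) hn)
      refine ⟨((φ y)⁻¹ * h⁻¹)⁻¹, ?_, ?_⟩
      · rw [Set.inv_mem_inv]; exact hyc
      · rw [QuotientGroup.eq]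
        have h3 : (((φ y)⁻¹ * h⁻¹)⁻¹)⁻¹ * h = (φ y)⁻¹ := by group
        rw [h3]
        exact φ.range.inv_mem ⟨y, rfl⟩
    rw [h2]
    exact ((E.compact_box C).inv).image QuotientGroup.continuous_mk

end NilCoords

end BE6F
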