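import Pool.Agent.BE6F.Closed
import Pool.Agent.BE6F.Proper

/-!
# Averaging cocycles of sublinear average growth
-/

set_option autoImplicit false

open Filter Topology
open scoped Pointwise

namespace BE6F

section Select

variable {Γ : Type} [Group Γ] {S : Set Γ} (hS : S.Finite)

/-- total weight of a ball -/
noncomputable def tot (W : Γ → ℝ) (n : ℕ) : ℝ := ∑ x ∈ ball hS n, W x

lemma ball_mono (h1 : (1 : Γ) ∈ S) {a b : ℕ} (hab : a ≤ b) : ball hS a ⊆ ball hS b := by
  intro x hx
  rw [mem_ball] at hx ⊢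
  exact mem_pow_mono h1 hab hx

lemma tot_mono (h1 : (1 : Γ) ∈ S) {W : Γ → ℝ} (hW : ∀ x, 0 ≤ W x) {a b : ℕ} (hab : a ≤ b) :
    tot hS W a ≤ tot hS W b :=
  Finset.sum_le_sum_of_subset_of_nonneg (ball_mono hS h1 hab) (fun x _ _ => hW x)

/-- **Selection of radii with small boundary weight.** -/
theorem exists_radius (h1 : (1 : Γ) ∈ S) (hgrow : PolyBdd (fun n => (ball hS n).card))
    {W : Γ → ℝ} (hW : ∀ x, 0 ≤ W x)
    (hsub : Tendsto (fun n : ℕ => tot hS W n / (n * (ball hS n).card)) atTop (𝓝 0)) (k : ℕ)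
    (hk : 1 ≤ k) : ∃ n, k ≤ n ∧
      tot hS W (n + k) - tot hS W (n - k) ≤ (1 / (k : ℝ)) * (ball hS n).card := by
  by_contra hcon
  push Not at hcon
  obtain ⟨D, hD⟩ := hgrow.doubling (fun n => (ball_nonempty hS h1 n).card_pos) (2 * k + 1)
    (by omega)
  have hk0 : (0 : ℝ) < k := by exact_mod_cast hk
  set ε : ℝ := 1 / (2 * k * (2 * k + 1) * (D + 1)) with hε
  have hε0 : 0 < ε := by positivity
  have hev := hsub.eventually (gt_mem_nhds hε0)
  obtain ⟨N0, hN0⟩ := eventually_atTop.mp hev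
  obtain ⟨N, hN, hNd⟩ := hD (N0 + 1)
  have hN1 : 1 ≤ N := by omega
  have hNr : (1 : ℝ) ≤ N := by exact_mod_cast hN1
  have hbN : (0 : ℝ) < (ball hS N).card := by
    have := (ball_nonempty hS h1 N).card_pos
    positivity
  -- telescoping lower bound
  have hlow : ∀ L : ℕ, (L : ℝ) * ((1 / (k : ℝ)) * (ball hS N).card) ≤
      tot hS W (N + 2 * k * L) - tot hS W N := by
    intro L
    induction L with
    | zero => simp
    | succ L ih =>
      have h2 := hcon (N + 2 * k * L + k) (by omega)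
      have h3 : N + 2 * k * L + k + k = N + 2 * k * (L + 1) := by ring
      have h4 : N + 2 * k * L + k - k = N + 2 * k * L := by omega
      rw [h3, h4] at h2
      have h5 : ((ball hS N).card : ℝ) ≤ (ball hS (N + 2 * k * L + k)).card := by
        have := Finset.card_le_card (ball_mono hS h1 (show N ≤ N + 2 * k * L + k by omega))
        exact_mod_cast this
      have h6 : (1 / (k : ℝ)) * (ball hS N).card ≤
          (1 / (k : ℝ)) * (ball hS (N + 2 * k * L + k)).card :=
        mul_le_mul_of_nonneg_left h5 (by positivity)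
      push_cast
      linarith
  have h2 := hlow N
  have h3 : N + 2 * k * N = (2 * k + 1) * N := by ring
  rw [h3] at h2
  have h4 : 0 ≤ tot hS W N := Finset.sum_nonneg (fun x _ => hW x)
  -- upper bound
  have h5 := hN0 ((2 * k + 1) * N) (by nlinarith)
  have hbig : (0 : ℝ) < (((2 * k + 1) * N : ℕ) : ℝ) * (ball hS ((2 * k + 1) * N)).card := by
    have h6 := (ball_nonempty hS h1 ((2 * k + 1) * N)).card_pos
    have h7 : 0 < (2 * k + 1) * N := Nat.mul_pos (by omega) hN1
    positivity
  rw [div_lt_iff₀ hbig] at h5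
  have h6 : ((ball hS ((2 * k + 1) * N)).card : ℝ) ≤ D * (ball hS N).card := by
    exact_mod_cast hNd
  have h7 : (((2 * k + 1) * N : ℕ) : ℝ) = (2 * k + 1) * N := by push_cast; ring
  rw [h7] at h5
  have h8 : (N : ℝ) * ((1 / (k : ℝ)) * (ball hS N).card) <
      ε * ((2 * k + 1) * N * (D * (ball hS N).card)) := by
    calc (N : ℝ) * ((1 / (k : ℝ)) * (ball hS N).card)
        ≤ tot hS W ((2 * k + 1) * N) - tot hS W N := h2
      _ ≤ tot hS W ((2 * k + 1) * N) := by linarith
      _ < ε * ((2 * k + 1) * N * (ball hS ((2 * k + 1) * N)).card) := h5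
      _ ≤ ε * ((2 * k + 1) * N * (D * (ball hS N).card)) := by
          apply mul_le_mul_of_nonneg_left _ hε0.le
          apply mul_le_mul_of_nonneg_left h6 (by positivity)
  have h9 : ε * ((2 * k + 1) * N * (D * (ball hS N).card)) ≤
      (N : ℝ) * ((1 / (2 * k : ℝ)) * (ball hS N).card) := by
    rw [hε]
    have hD0 : (0 : ℝ) ≤ D := Nat.cast_nonneg _
    have h10 : 1 / (2 * (k : ℝ) * (2 * k + 1) * (D + 1)) * ((2 * k + 1) * N *
        (D * (ball hS N).card)) = (N : ℝ) * ((1 / (2 * k : ℝ)) * (ball hS N).card) *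
        (D / (D + 1)) := by
      field_simp
    rw [h10]
    apply mul_le_of_le_one_right (by positivity)
    rw [div_le_one (by positivity)]
    linarith
  have h11 : (N : ℝ) * ((1 / (2 * k : ℝ)) * (ball hS N).card) ≤
      (N : ℝ) * ((1 / (k : ℝ)) * (ball hS N).card) := by
    apply mul_le_mul_of_nonneg_left _ (by positivity)
    apply mul_le_mul_of_nonneg_right _ hbN.le
    apply one_div_le_one_div_of_le hk0
    linarith
  linarith

end Select

section Avg

variable {Γ : Type} [Group Γ] {S : Set Γ} (hS : S.Finite)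
variable {U : Type} [NormedAddCommGroup U] [NormedSpace ℝ U]

/-- average over a ball -/
noncomputable def av (n : ℕ) (u : Γ → U) : U := ((ball hS n).card : ℝ)⁻¹ • ∑ x ∈ ball hS n, u x

lemma av_add (n : ℕ) (u v : Γ → U) :
    av hS n (fun x => u x + v x) = av hS n u + av hS n v := by
  simp [av, Finset.sum_add_distrib, smul_add]

lemma av_neg (n : ℕ) (u : Γ → U) : av hS n (fun x => - u x) = - av hS n u := by
  simp [av]

lemma av_const (h1 : (1 : Γ) ∈ S) (n : ℕ) (c : U) : av hS n (fun _ => c) = c := by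
  have h0 : ((ball hS n).card : ℝ) ≠ 0 := by
    have := (ball_nonempty hS h1 n).card_pos
    positivity
  simp only [av, Finset.sum_const]
  rw [← Nat.cast_smul_eq_nsmul ℝ, smul_smul, inv_mul_cancel₀ h0, one_smul]

lemma av_map (n : ℕ) (u : Γ → U) (T : U →ₗ[ℝ] U) : T (av hS n u) = av hS n (fun x => T (u x)) := by
  simp [av, map_sum]

lemma av_shift (h1 : (1 : Γ) ∈ S) (hSi : S⁻¹ = S) {W : Γ → ℝ} (u : Γ → U) (C : ℝ)
    (hu : ∀ x, ‖u x‖ ≤ C * W x) {r n : ℕ} (hr : r ≤ n) {y : Γ} (hy : y ∈ S ^ r) :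
    ‖av hS n (fun x => u (x * y)) - av hS n u‖ ≤
      2 * C * ((tot hS W (n + r) - tot hS W (n - r)) / (ball hS n).card) := by
  classical
  set T := ball hS n with hT
  set b := ball hS (n - r) with hb
  set B := ball hS (n + r) with hB
  have h0 : (0 : ℝ) < T.card := by
    have := (ball_nonempty hS h1 n).card_pos
    positivity
  set P := T.image (fun x => x * y) with hP
  have hbT : b ⊆ T := ball_mono hS h1 (by omega)
  have hTB : T ⊆ B := ball_mono hS h1 (by omega)
  have hPB : P ⊆ B := by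
    intro z hz
    obtain ⟨x, hx, rfl⟩ := Finset.mem_image.mp hz
    rw [hT, mem_ball] at hx
    rw [hB, mem_ball]
    exact mul_mem_pow hx hy
  have hbP : b ⊆ P := by
    intro x hx
    rw [hb, mem_ball] at hx
    refine Finset.mem_image.mpr ⟨x * y⁻¹, ?_, by group⟩
    rw [hT, mem_ball]
    have h2 := mul_mem_pow hx (inv_mem_pow hSi hy)
    have h3 : n - r + r = n := by omega
    rwa [h3] at h2
  have hsum : ∑ x ∈ T, u (x * y) = ∑ z ∈ P, u z := by
    rw [hP, Finset.sum_image (fun x _ x' _ hxx => mul_left_injective y hxx)]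
  have hdiff : ∀ R : Finset Γ, b ⊆ R → R ⊆ B →
      ‖∑ x ∈ R, u x - ∑ x ∈ b, u x‖ ≤ C * (tot hS W (n + r) - tot hS W (n - r)) := by
    intro R hbR hRB
    rw [← Finset.sum_sdiff hbR, add_sub_cancel_right]
    refine (norm_sum_le _ _).trans ?_
    have h2 : ∑ x ∈ R \ b, ‖u x‖ ≤ ∑ x ∈ B \ b, ‖u x‖ :=
      Finset.sum_le_sum_of_subset_of_nonneg (Finset.sdiff_subset_sdiff hRB (le_refl b))
        (fun x _ _ => norm_nonneg _)
    refine h2.trans ?_
    have h3 : ∑ x ∈ B \ b, ‖u x‖ ≤ ∑ x ∈ B \ b, C * W x := Finset.sum_le_sum (fun x _ => hu x)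
    refine h3.trans (le_of_eq ?_)
    rw [← Finset.mul_sum]
    congr 1
    rw [tot, tot, ← hB, ← hb, ← Finset.sum_sdiff (hbT.trans hTB), add_sub_cancel_right]
  have hA := hdiff T hbT hTB
  have hA' := hdiff P hbP hPB
  have hkey : ‖∑ x ∈ T, u (x * y) - ∑ x ∈ T, u x‖ ≤
      2 * C * (tot hS W (n + r) - tot hS W (n - r)) := by
    rw [hsum]
    have h2 : ∑ z ∈ P, u z - ∑ x ∈ T, u x =
      (∑ x ∈ P, u x - ∑ x ∈ b, u x) - (∑ x ∈ T, u x - ∑ x ∈ b, u x) := by abel
    rw [h2]
    refine (norm_sub_le _ _).trans ?_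
    have h3 : 2 * C * (tot hS W (n + r) - tot hS W (n - r)) =
      C * (tot hS W (n + r) - tot hS W (n - r)) + C * (tot hS W (n + r) - tot hS W (n - r)) := by
      ring
    rw [h3]
    exact add_le_add hA' hA
  have h4 : av hS n (fun x => u (x * y)) - av hS n u =
      ((T.card : ℝ)⁻¹) • (∑ x ∈ T, u (x * y) - ∑ x ∈ T, u x) := by
    simp only [av, ← hT, smul_sub]
  rw [h4, norm_smul, norm_inv, Real.norm_of_nonneg h0.le, inv_mul_le_iff₀ h0]
  refine hkey.trans (le_of_eq ?_)
  field_simp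

/-- **The averaging theorem**: a family `θ x` of cochains satisfying the cocycle identity, with
sublinear average growth in `x`, is a twisted coboundary. -/
theorem average_cocycle [FiniteDimensional ℝ U] (h1 : (1 : Γ) ∈ S) (hSi : S⁻¹ = S)
    (hgen : ∀ x : Γ, ∃ n : ℕ, x ∈ S ^ n)
    (hgrow : PolyBdd (fun n => (ball hS n).card))
    {W : Γ → ℝ} (hW : ∀ x, 0 ≤ W x)
    (hsub : Tendsto (fun n : ℕ => tot hS W n / (n * (ball hS n).card)) atTop (𝓝 0))
    (T : Γ → (U →ₗ[ℝ] U)) (θ : Γ → Γ → U)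
    (hcoc : ∀ x y z, T z (θ x y) = - θ (x * y) z + θ x (y * z) + θ y z)
    (hbd : ∀ y, ∃ C : ℝ, ∀ x, ‖θ x y‖ ≤ C * W x) :
    ∃ b : Γ → U, ∀ y z, T z (b y) + b z - b (y * z) = θ y z := by
  have hrad := fun k : ℕ => exists_radius hS h1 hgrow hW hsub (k + 1) (by omega)
  choose ν hνk hν using hrad
  set b : ℕ → Γ → U := fun k y => av hS (ν k) (fun x => θ x y) with hb
  have hlim : ∀ y z, Tendsto (fun k => dlt T (b k) y z) atTop (𝓝 (θ y z)) := by
    intro y z
    have hid : ∀ k, dlt T (b k) y z = θ y z -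
        (av hS (ν k) (fun x => θ (x * y) z) - av hS (ν k) (fun x => θ x z)) := by
      intro k
      simp only [dlt, hb]
      rw [av_map]
      have h2 : (fun x => T z (θ x y)) = fun x => (- θ (x * y) z + θ x (y * z)) + θ y z :=
        funext (fun x => hcoc x y z)
      rw [h2, av_add, av_add, av_neg, av_const hS h1]
      abel
    simp only [hid]
    obtain ⟨r, hr⟩ := hgen y
    obtain ⟨C, hC⟩ := hbd z
    have hC0 : ∀ x, ‖θ x z‖ ≤ |C| * W x := fun x =>
      (hC x).trans (mul_le_mul_of_nonneg_right (le_abs_self C) (hW x))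
    have hz : Tendsto (fun k => av hS (ν k) (fun x => θ (x * y) z) -
        av hS (ν k) (fun x => θ x z)) atTop (𝓝 0) := by
      apply squeeze_zero_norm' (a := fun k : ℕ => 2 * |C| * (1 / ((k : ℝ) + 1)))
      · filter_upwards [eventually_ge_atTop r] with k hk
        have hrν : r ≤ ν k := hk.trans ((Nat.le_succ k).trans (hνk k))
        refine (av_shift hS h1 hSi (fun x => θ x z) |C| hC0 hrν hr).trans ?_
        apply mul_le_mul_of_nonneg_left _ (by positivity)
        have hcard : (0 : ℝ) < (ball hS (ν k)).card := by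
          have := (ball_nonempty hS h1 (ν k)).card_pos
          positivity
        rw [div_le_iff₀ hcard]
        have h2 := hν k
        have h3 : tot hS W (ν k + r) ≤ tot hS W (ν k + (k + 1)) :=
          tot_mono hS h1 hW (by omega)
        have h4 : tot hS W (ν k - (k + 1)) ≤ tot hS W (ν k - r) :=
          tot_mono hS h1 hW (by omega)
        push_cast at h2
        linarith
      · have := (tendsto_one_div_add_atTop_nhds_zero_nat (𝕜 := ℝ)).const_mul (2 * |C|)
        simpa using this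
    have := (tendsto_const_nhds (x := θ y z)).sub hz
    simpa using this
  obtain ⟨b0, hb0⟩ := closed_range hS h1 hgen T b θ hlim
  exact ⟨b0, fun y z => congrFun (congrFun hb0 y) z⟩

end Avg

end BE6F
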