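import Pool.Agent.BE6F.Mean

/-!
# Twisted coboundaries of a finitely generated group are closed under pointwise limits
-/

set_option autoImplicit false

open Filter Topology
open scoped Pointwise

namespace BE6F

section Closed

variable {Γ : Type} [Group Γ] {U : Type} [NormedAddCommGroup U] [NormedSpace ℝ U]

/-- the twisted coboundary -/
def dlt (T : Γ → (U →ₗ[ℝ] U)) (b : Γ → U) : Γ → Γ → U := fun y z => T z (b y) + b z - b (y * z)

lemma dlt_add (T : Γ → (U →ₗ[ℝ] U)) (b b' : Γ → U) :
    dlt T (fun y => b y + b' y) = fun y z => dlt T b y z + dlt T b' y z := by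
  funext y z
  simp only [dlt, map_add]
  abel

/-- product of a reversed word -/
def rp {S : Set Γ} : List S → Γ
  | [] => 1
  | s :: l => rp l * s.1

lemma exists_word {S : Set Γ} (n : ℕ) : ∀ y ∈ S ^ n, ∃ l : List S, rp l = y := by
  induction n with
  | zero =>
    intro y hy
    rw [pow_zero, Set.mem_one] at hy
    exact ⟨[], by simp [rp, hy]⟩
  | succ n ih =>
    intro y hy
    rw [pow_succ] at hy
    obtain ⟨y', hy', s, hs, rfl⟩ := hy
    obtain ⟨l, hl⟩ := ih y' hy'
    exact ⟨⟨s, hs⟩ :: l, by simp [rp, hl]⟩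

/-- the value on a word of a cochain with prescribed values on the generators and prescribed
coboundary -/
noncomputable def vlin {S : Set Γ} (h1 : (1 : Γ) ∈ S) (T : Γ → (U →ₗ[ℝ] U)) :
    List S → (((S → U) × (Γ → Γ → U)) →ₗ[ℝ] U)
  | [] => (LinearMap.proj (⟨1, h1⟩ : S)).comp (LinearMap.fst ℝ (S → U) (Γ → Γ → U))
  | s :: l => (T s.1).comp (vlin h1 T l) +
      (LinearMap.proj s).comp (LinearMap.fst ℝ (S → U) (Γ → Γ → U)) -
      ((LinearMap.proj s.1).comp (LinearMap.proj (rp l))).comp
        (LinearMap.snd ℝ (S → U) (Γ → Γ → U))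

lemma vlin_cons {S : Set Γ} (h1 : (1 : Γ) ∈ S) (T : Γ → (U →ₗ[ℝ] U)) (s : S) (l : List S)
    (p : (S → U) × (Γ → Γ → U)) :
    vlin h1 T (s :: l) p = T s.1 (vlin h1 T l p) + p.1 s - p.2 (rp l) s.1 := rfl

lemma vlin_nil {S : Set Γ} (h1 : (1 : Γ) ∈ S) (T : Γ → (U →ₗ[ℝ] U))
    (p : (S → U) × (Γ → Γ → U)) : vlin h1 T [] p = p.1 ⟨1, h1⟩ := rfl

lemma vlin_eq {S : Set Γ} (h1 : (1 : Γ) ∈ S) (T : Γ → (U →ₗ[ℝ] U)) (b : Γ → U) (l : List S) :
    vlin h1 T l (fun s => b s.1, dlt T b) = b (rp l) := by
  induction l with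
  | nil => rw [vlin_nil]; rfl
  | cons s l ih =>
    rw [vlin_cons, ih]
    simp only [dlt, rp]
    abel

variable [FiniteDimensional ℝ U]

lemma vlin_tendsto {S : Set Γ} (h1 : (1 : Γ) ∈ S) (T : Γ → (U →ₗ[ℝ] U)) {F : Filter ℕ}
    (η : ℕ → Γ → Γ → U) (θ : Γ → Γ → U)
    (h : ∀ y z, Tendsto (fun k => η k y z) F (𝓝 (θ y z))) (l : List S) :
    Tendsto (fun k => vlin h1 T l (0, η k)) F (𝓝 (vlin h1 T l (0, θ))) := by
  induction l with
  | nil => simp only [vlin_nil]; exact tendsto_const_nhds
  | cons s l ih =>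
    simp only [vlin_cons]
    have hc : Continuous (T s.1) := LinearMap.continuous_of_finiteDimensional _
    exact (((hc.tendsto _).comp ih).add tendsto_const_nhds).sub (h _ _)

/-- **Twisted coboundaries are closed under pointwise limits.** -/
theorem closed_range {S : Set Γ} (hS : S.Finite) (h1 : (1 : Γ) ∈ S)
    (hgen : ∀ x : Γ, ∃ n : ℕ, x ∈ S ^ n) (T : Γ → (U →ₗ[ℝ] U)) {F : Filter ℕ} [F.NeBot]
    (b : ℕ → Γ → U) (θ : Γ → Γ → U)
    (h : ∀ y z, Tendsto (fun k => dlt T (b k) y z) F (𝓝 (θ y z))) :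
    ∃ b0 : Γ → U, dlt T b0 = θ := by
  classical
  have : Finite S := hS
  have hw : ∀ y : Γ, ∃ l : List S, rp l = y := fun y => by
    obtain ⟨n, hn⟩ := hgen y
    exact exists_word n y hn
  choose word hword using hw
  -- the linear map β ↦ δ(vlin (β, 0))
  set L1 : (S → U) →ₗ[ℝ] (Γ → Γ → U) :=
    { toFun := fun β => dlt T (fun y => vlin h1 T (word y) (β, 0))
      map_add' := by
        intro β β'
        have h2 : ∀ y, vlin h1 T (word y) (β + β', 0) =
            vlin h1 T (word y) (β, 0) + vlin h1 T (word y) (β', 0) := by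
          intro y
          rw [← map_add]
          congr 1
          simp
        simp only [h2, dlt_add]
        rfl
      map_smul' := by
        intro c β
        have h2 : ∀ y, vlin h1 T (word y) (c • β, 0) = c • vlin h1 T (word y) (β, 0) := by
          intro y
          rw [← map_smul]
          congr 1
          simp
        funext y z
        simp only [dlt, h2, map_smul, RingHom.id_apply, Pi.smul_apply, smul_sub, smul_add] } with hL1
  have hL1v : ∀ β, L1 β = dlt T (fun y => vlin h1 T (word y) (β, 0)) := fun β => rfl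
  -- decomposition
  have hdec : ∀ (β : S → U) (η : Γ → Γ → U) (y : Γ), vlin h1 T (word y) (β, η) =
      vlin h1 T (word y) (β, 0) + vlin h1 T (word y) (0, η) := by
    intro β η y
    rw [← map_add]
    congr 1
    simp
  set R : (Γ → Γ → U) → (Γ → Γ → U) := fun η => fun y z =>
    η y z - dlt T (fun y => vlin h1 T (word y) (0, η)) y z with hR
  have hmem : ∀ k, R (dlt T (b k)) ∈ LinearMap.range L1 := by
    intro k
    refine ⟨fun s => b k s.1, ?_⟩
    rw [hL1v]
    have h2 : ∀ y, b k y = vlin h1 T (word y) (fun s => b k s.1, 0) +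
        vlin h1 T (word y) (0, dlt T (b k)) := by
      intro y
      rw [← hdec, vlin_eq, hword]
    have h3 : b k = fun y => vlin h1 T (word y) (fun s => b k s.1, 0) +
        vlin h1 T (word y) (0, dlt T (b k)) := funext h2
    have h4 : dlt T (b k) = fun y z =>
        dlt T (fun y => vlin h1 T (word y) (fun s => b k s.1, 0)) y z +
        dlt T (fun y => vlin h1 T (word y) (0, dlt T (b k))) y z := by
      conv_lhs => rw [h3]
      rw [dlt_add]
    funext y z
    simp only [hR]
    have h5 := congrFun (congrFun h4 y) z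
    rw [eq_sub_iff_add_eq]
    exact h5.symm
  have htend : Tendsto (fun k => R (dlt T (b k))) F (𝓝 (R θ)) := by
    rw [tendsto_pi_nhds]
    intro y
    rw [tendsto_pi_nhds]
    intro z
    simp only [hR, dlt]
    have hv := vlin_tendsto h1 T (fun k => dlt T (b k)) θ h
    have hc : Continuous (T z) := LinearMap.continuous_of_finiteDimensional _
    exact (h y z).sub ((((hc.tendsto _).comp (hv (word y))).add (hv (word z))).sub
      (hv (word (y * z))))
  have hclosed : IsClosed ((LinearMap.range L1 : Submodule ℝ (Γ → Γ → U)) : Set (Γ → Γ → U)) :=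
    Submodule.closed_of_finiteDimensional _
  have hθ : R θ ∈ LinearMap.range L1 :=
    hclosed.mem_of_tendsto htend (Eventually.of_forall hmem)
  obtain ⟨β, hβ⟩ := hθ
  refine ⟨fun y => vlin h1 T (word y) (β, θ), ?_⟩
  have h3 : (fun y => vlin h1 T (word y) (β, θ)) = fun y => vlin h1 T (word y) (β, 0) +
      vlin h1 T (word y) (0, θ) := funext (hdec β θ)
  rw [h3, dlt_add]
  funext y z
  have h5 := congrFun (congrFun hβ y) z
  rw [hL1v] at h5
  simp only [hR] at h5
  rw [h5]
  abel

end Closed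

end BE6F
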