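import Mathlib

/-!
# Exponential coordinates on simply connected nilpotent Lie groups

`ExpCoords m G` : the topological group `G` is presented in exponential coordinates of the first
kind adapted to a central series (Baker-Campbell-Hausdorff coordinates).
-/

set_option autoImplicit false

open Filter Topology

namespace BE6F

/-- Exponential coordinates (of the first kind) on a group `G` with a topology: a homeomorphism
`e : G ≃ₜ ℝ^m` in which

* the multiplication is triangular and polynomial:
  `e (g h) i = e g i + e h i + P i (coordinates j < i of g, coordinates j < i of h)`;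
* the straight lines through the origin are one-parameter subgroups.

For a connected simply connected nilpotent Lie group with Lie algebra `𝔤`, the logarithm
`G → 𝔤 ≅ ℝ^m`, with respect to a basis of `𝔤` adapted to a central series, is such an `e` by the
Baker-Campbell-Hausdorff formula; so every such Lie group has exponential coordinates. -/
structure ExpCoords (m : ℕ) (G : Type) [Group G] [TopologicalSpace G] where
  /-- the coordinates -/
  e : G ≃ₜ (Fin m → ℝ)
  /-- the polynomials of the multiplication law -/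
  P : (i : Fin m) → MvPolynomial ({j : Fin m // j < i} ⊕ {j : Fin m // j < i}) ℝ
  /-- the multiplication law is triangular and polynomial -/
  mul_apply : ∀ (g h : G) (i : Fin m), e (g * h) i = e g i + e h i +
    MvPolynomial.eval (Sum.elim (fun j => e g j.1) (fun j => e h j.1)) (P i)
  /-- straight lines through the origin are one-parameter subgroups -/
  line : ∀ (g : G) (s t : ℝ),
    e.symm ((s + t) • e g) = e.symm (s • e g) * e.symm (t • e g)

namespace ExpCoords

variable {m : ℕ} {G : Type} [Group G] [TopologicalSpace G] (E : ExpCoords m G)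

/-- real powers -/
noncomputable def pw (g : G) (t : ℝ) : G := E.e.symm (t • E.e g)

lemma e_pw (g : G) (t : ℝ) : E.e (E.pw g t) = t • E.e g := by
  simp [pw]

lemma pw_one (g : G) : E.pw g 1 = g := by simp [pw]

lemma pw_add (g : G) (s t : ℝ) : E.pw g (s + t) = E.pw g s * E.pw g t := E.line g s t

lemma symm_zero : E.e.symm 0 = 1 := by
  have h := E.line 1 0 0
  simp only [add_zero, zero_smul] at h
  have h2 : E.e.symm 0 * 1 = E.e.symm 0 * E.e.symm 0 := by rw [mul_one]; exact h
  exact (mul_left_cancel h2).symm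

lemma e_one : E.e 1 = 0 := by
  rw [← E.symm_zero]; simp

lemma pw_zero (g : G) : E.pw g 0 = 1 := by simp [pw, E.symm_zero]

lemma pw_neg (g : G) (t : ℝ) : E.pw g (-t) = (E.pw g t)⁻¹ := by
  have h := E.pw_add g (-t) t
  rw [neg_add_cancel, E.pw_zero] at h
  exact eq_inv_of_mul_eq_one_left h.symm

lemma e_inv (g : G) : E.e g⁻¹ = - E.e g := by
  have h := E.pw_neg g 1
  rw [E.pw_one] at h
  rw [← h, E.e_pw]; simp

lemma pw_nat (g : G) (n : ℕ) : E.pw g n = g ^ n := by
  induction n with
  | zero => simp [E.pw_zero]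
  | succ k ih => rw [Nat.cast_succ, E.pw_add, ih, E.pw_one, pow_succ]

/-- curves with polynomial coordinates -/
def PolyCurve (γ : ℝ → G) : Prop := ∀ i, ∃ p : Polynomial ℝ, ∀ t, E.e (γ t) i = p.eval t

lemma polyCurve_const (g : G) : E.PolyCurve (fun _ => g) := fun i =>
  ⟨Polynomial.C (E.e g i), fun t => by simp⟩

lemma polyCurve_pw (g : G) : E.PolyCurve (E.pw g) := fun i =>
  ⟨Polynomial.X * Polynomial.C (E.e g i), fun t => by simp only [E.e_pw, Pi.smul_apply, smul_eq_mul, Polynomial.eval_mul, Polynomial.eval_X, Polynomial.eval_C]⟩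

lemma polyCurve_pw_inv (g : G) : E.PolyCurve (fun t => (E.pw g t)⁻¹) := fun i =>
  ⟨- (Polynomial.X * Polynomial.C (E.e g i)), fun t => by simp only [E.e_inv, E.e_pw, Pi.neg_apply, Pi.smul_apply, smul_eq_mul, Polynomial.eval_neg, Polynomial.eval_mul, Polynomial.eval_X, Polynomial.eval_C]⟩

/-- substituting polynomials in one variable into a polynomial in several variables -/
lemma exists_poly_eval {σ : Type} (P : MvPolynomial σ ℝ) (x : σ → ℝ → ℝ)
    (hx : ∀ j, ∃ p : Polynomial ℝ, ∀ t, x j t = p.eval t) :
    ∃ q : Polynomial ℝ, ∀ t, MvPolynomial.eval (fun j => x j t) P = q.eval t := by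
  choose p hp using hx
  refine ⟨MvPolynomial.aeval p P, fun t => ?_⟩
  induction P using MvPolynomial.induction_on with
  | C a => simp
  | add a b ha hb => simp [ha, hb]
  | mul_X a j ha =>
    rw [map_mul, map_mul, Polynomial.eval_mul, ← ha, MvPolynomial.eval_X, MvPolynomial.aeval_X, hp]

variable {E}

lemma PolyCurve.mul {γ δ : ℝ → G} (hγ : E.PolyCurve γ) (hδ : E.PolyCurve δ) :
    E.PolyCurve (fun t => γ t * δ t) := by
  intro i
  obtain ⟨p, hp⟩ := hγ i
  obtain ⟨q, hq⟩ := hδ i
  obtain ⟨r, hr⟩ := exists_poly_eval (E.P i)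
    (fun (j : {j : Fin m // j < i} ⊕ {j : Fin m // j < i}) t =>
      Sum.elim (fun j => E.e (γ t) j.1) (fun j => E.e (δ t) j.1) j)
    (by
      rintro (j | j)
      · exact hγ j.1
      · exact hδ j.1)
  exact ⟨p + q + r, fun t => by rw [E.mul_apply, hr]; simp [hp, hq]⟩

lemma PolyCurve.eq_of_nat {γ δ : ℝ → G} (hγ : E.PolyCurve γ) (hδ : E.PolyCurve δ)
    (h : ∀ n : ℕ, γ n = δ n) (t : ℝ) : γ t = δ t := by
  apply E.e.injective
  funext i
  obtain ⟨p, hp⟩ := hγ i
  obtain ⟨q, hq⟩ := hδ i
  have hpq : p = q := by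
    apply Polynomial.eq_of_infinite_eval_eq
    apply Set.Infinite.mono (s := Set.range (fun n : ℕ => (n : ℝ)))
    · rintro x ⟨n, rfl⟩
      simp only [Set.mem_ofPred_eq]
      rw [← hp, ← hq, h n]
    · exact Set.infinite_range_of_injective Nat.cast_injective
  rw [hp, hq, hpq]

/-- a bounded polynomial is constant -/
lemma _root_.BE6F.eval_const_of_bounded (p : Polynomial ℝ) (C : ℝ) (h : ∀ t, |p.eval t| ≤ C)
    (s t : ℝ) : p.eval s = p.eval t := by
  by_cases hd : 0 < p.degree
  · have := Polynomial.abs_tendsto_atTop p hd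
    obtain ⟨x, hx⟩ := (this.eventually (eventually_gt_atTop C)).exists
    exact absurd (h x) (not_le.mpr hx)
  · rw [Polynomial.eq_C_of_degree_le_zero (not_lt.mp hd)]; simp

lemma PolyCurve.const_of_bounded {γ : ℝ → G} (hγ : E.PolyCurve γ) {K : Set G}
    (hK : IsCompact K) (h : ∀ t, γ t ∈ K) (s t : ℝ) : γ s = γ t := by
  apply E.e.injective
  funext i
  obtain ⟨p, hp⟩ := hγ i
  have hc : IsCompact ((fun g => E.e g i) '' K) :=
    hK.image ((continuous_apply i).comp E.e.continuous)
  obtain ⟨C, hC⟩ := hc.isBounded.exists_norm_le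
  rw [hp, hp]
  apply eval_const_of_bounded p C
  intro t
  rw [← hp]
  exact hC _ ⟨γ t, h t, rfl⟩

variable (E)

include E in
/-- **An element with relatively compact conjugacy class is central.** -/
theorem central_of_bounded {K : Set G} (hK : IsCompact K) (c : G)
    (h : ∀ g : G, g⁻¹ * c * g ∈ K) : c ∈ Subgroup.center G := by
  rw [Subgroup.mem_center_iff]
  intro g
  have h1 : E.PolyCurve (fun t => (E.pw g t)⁻¹ * c * E.pw g t) :=
    ((E.polyCurve_pw_inv g).mul (E.polyCurve_const c)).mul (E.polyCurve_pw g)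
  have h2 := h1.const_of_bounded hK (fun t => h _) 1 0
  simp only [E.pw_one, E.pw_zero, inv_one, one_mul, mul_one] at h2
  -- g⁻¹ * c * g = c
  calc g * c = g * (g⁻¹ * c * g) := by rw [h2]
    _ = c * g := by group

/-- real powers of a central element are central -/
theorem pw_mem_center {c : G} (hc : c ∈ Subgroup.center G) (t : ℝ) :
    E.pw c t ∈ Subgroup.center G := by
  rw [Subgroup.mem_center_iff]
  intro g
  have h1 : E.PolyCurve (fun t => g * E.pw c t) := (E.polyCurve_const g).mul (E.polyCurve_pw c)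
  have h2 : E.PolyCurve (fun t => E.pw c t * g) := (E.polyCurve_pw c).mul (E.polyCurve_const g)
  refine h1.eq_of_nat h2 (fun n => ?_) t
  simp only [E.pw_nat]
  have := Subgroup.mem_center_iff.mp ((Subgroup.center G).pow_mem hc n) g
  exact this

lemma differentiable_eval_aux {σ : Type} [Finite σ] (P : MvPolynomial σ ℝ) (x : σ → ℝ × ℝ → ℝ)
    (hx : ∀ j, Differentiable ℝ (x j)) :
    Differentiable ℝ (fun v => MvPolynomial.eval (fun j => x j v) P) := by
  induction P using MvPolynomial.induction_on with
  | C a => simp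
  | add a b ha hb =>
    have := ha.add hb
    simp only [map_add]
    exact this
  | mul_X a j ha =>
    have := ha.mul (hx j)
    simp only [map_mul, MvPolynomial.eval_X]
    exact this

/-- the correction polynomial vanishes when one of the factors is trivial -/
lemma eval_P_left (h : G) (i : Fin m) :
    MvPolynomial.eval (Sum.elim (fun _ : {j : Fin m // j < i} => (0 : ℝ))
      (fun j : {j : Fin m // j < i} => E.e h j.1)) (E.P i) = 0 := by
  have h1 := E.mul_apply 1 h i
  rw [one_mul, E.e_one] at h1
  simp only [Pi.zero_apply, zero_add] at h1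
  linarith

lemma eval_P_right (g : G) (i : Fin m) :
    MvPolynomial.eval (Sum.elim (fun j : {j : Fin m // j < i} => E.e g j.1)
      (fun _ : {j : Fin m // j < i} => (0 : ℝ))) (E.P i) = 0 := by
  have h1 := E.mul_apply g 1 i
  rw [mul_one, E.e_one] at h1
  simp only [Pi.zero_apply, add_zero] at h1
  linarith

/-- **On commuting elements the coordinates are additive.** -/
theorem e_mul_of_commute {g h : G} (hgh : Commute g h) : E.e (g * h) = E.e g + E.e h := by
  funext i
  -- the function q(s,t) = P i (s g, t h)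
  set F : ℝ × ℝ → ℝ := fun v => MvPolynomial.eval
    (Sum.elim (fun j : {j : Fin m // j < i} => E.e (E.pw g v.1) j.1)
      (fun j : {j : Fin m // j < i} => E.e (E.pw h v.2) j.1)) (E.P i) with hF
  have hFd : Differentiable ℝ F := by
    have := differentiable_eval_aux (E.P i)
      (fun (j : {j : Fin m // j < i} ⊕ {j : Fin m // j < i}) (v : ℝ × ℝ) =>
        Sum.elim (fun j => E.e (E.pw g v.1) j.1) (fun j => E.e (E.pw h v.2) j.1) j) ?_
    · exact this
    · rintro (j | j)
      · simp only [Sum.elim_inl, E.e_pw, Pi.smul_apply, smul_eq_mul]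
        fun_prop
      · simp only [Sum.elim_inr, E.e_pw, Pi.smul_apply, smul_eq_mul]
        fun_prop
  have hF1 : ∀ s, F (s, 0) = 0 := by
    intro s
    have := E.eval_P_right (E.pw g s) i
    simp only [hF, E.pw_zero, E.e_one, Pi.zero_apply]
    exact this
  have hF2 : ∀ t, F (0, t) = 0 := by
    intro t
    have := E.eval_P_left (E.pw h t) i
    simp only [hF, E.pw_zero, E.e_one, Pi.zero_apply]
    exact this
  -- the diagonal is linear
  have hdiag : ∀ s : ℝ, F (s, s) = s * (E.e (g * h) i - E.e g i - E.e h i) := by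
    obtain ⟨q, hq⟩ := exists_poly_eval (E.P i)
      (fun (j : {j : Fin m // j < i} ⊕ {j : Fin m // j < i}) t =>
        Sum.elim (fun j => E.e (E.pw g t) j.1) (fun j => E.e (E.pw h t) j.1) j)
      (by
        rintro (j | j)
        · exact E.polyCurve_pw g j.1
        · exact E.polyCurve_pw h j.1)
    have hqF : ∀ t, F (t, t) = q.eval t := hq
    have hpoly : q = Polynomial.X * Polynomial.C (E.e (g * h) i - E.e g i - E.e h i) := by
      apply Polynomial.eq_of_infinite_eval_eq
      apply Set.Infinite.mono (s := Set.range (fun n : ℕ => (n : ℝ)))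
      · rintro x ⟨n, rfl⟩
        simp only [Set.mem_ofPred_eq]
        rw [← hqF]
        have h1 := E.mul_apply (E.pw g n) (E.pw h n) i
        rw [E.pw_nat, E.pw_nat, ← hgh.mul_pow, ← E.pw_nat, ← E.pw_nat, ← E.pw_nat] at h1
        simp only [Polynomial.eval_mul, Polynomial.eval_X, Polynomial.eval_C]
        have h2 : F ((n : ℝ), (n : ℝ)) = MvPolynomial.eval
          (Sum.elim (fun j : {j : Fin m // j < i} => E.e (E.pw g n) j.1)
            (fun j : {j : Fin m // j < i} => E.e (E.pw h n) j.1)) (E.P i) := rfl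
        rw [← h2] at h1
        simp only [E.e_pw, Pi.smul_apply, smul_eq_mul] at h1
        linarith
      · exact Set.infinite_range_of_injective Nat.cast_injective
    intro s
    rw [hqF, hpoly]; simp
  -- derivative at the origin
  have hd := (hFd (0, 0)).hasFDerivAt
  set L := fderiv ℝ F (0, 0) with hL
  have hc1 : HasDerivAt (fun s : ℝ => F (s, 0)) (L (1, 0)) 0 := by
    have hcurve : HasDerivAt (fun s : ℝ => ((s, 0) : ℝ × ℝ)) (1, 0) 0 :=
      (hasDerivAt_id (0 : ℝ)).prodMk (hasDerivAt_const (0 : ℝ) (0 : ℝ))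
    exact HasFDerivAt.comp_hasDerivAt (f := fun s : ℝ => ((s, 0) : ℝ × ℝ)) (0 : ℝ) hd hcurve
  have hc2 : HasDerivAt (fun s : ℝ => F (0, s)) (L (0, 1)) 0 := by
    have hcurve : HasDerivAt (fun s : ℝ => ((0, s) : ℝ × ℝ)) (0, 1) 0 :=
      (hasDerivAt_const (0 : ℝ) (0 : ℝ)).prodMk (hasDerivAt_id (0 : ℝ))
    exact HasFDerivAt.comp_hasDerivAt (f := fun s : ℝ => ((0, s) : ℝ × ℝ)) (0 : ℝ) hd hcurve
  have hc3 : HasDerivAt (fun s : ℝ => F (s, s)) (L (1, 1)) 0 := by
    have hcurve : HasDerivAt (fun s : ℝ => ((s, s) : ℝ × ℝ)) (1, 1) 0 :=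
      (hasDerivAt_id (0 : ℝ)).prodMk (hasDerivAt_id (0 : ℝ))
    exact HasFDerivAt.comp_hasDerivAt (f := fun s : ℝ => ((s, s) : ℝ × ℝ)) (0 : ℝ) hd hcurve
  have e1 : L (1, 0) = 0 := by
    have : (fun s : ℝ => F (s, 0)) = fun _ => 0 := funext hF1
    rw [this] at hc1
    exact hc1.unique (hasDerivAt_const _ _)
  have e2 : L (0, 1) = 0 := by
    have : (fun s : ℝ => F (0, s)) = fun _ => 0 := funext hF2
    rw [this] at hc2
    exact hc2.unique (hasDerivAt_const _ _)
  have e3 : L (1, 1) = 0 := by
    have : ((1, 1) : ℝ × ℝ) = (1, 0) + (0, 1) := by simp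
    rw [this, map_add, e1, e2, add_zero]
  have e4 : L (1, 1) = E.e (g * h) i - E.e g i - E.e h i := by
    have : (fun s : ℝ => F (s, s)) = fun s => s * (E.e (g * h) i - E.e g i - E.e h i) :=
      funext hdiag
    rw [this] at hc3
    have h5 := (hasDerivAt_id (0 : ℝ)).mul_const (E.e (g * h) i - E.e g i - E.e h i)
    simp only [id_eq, one_mul] at h5
    exact hc3.unique h5
  rw [e3] at e4
  simp only [Pi.add_apply]
  linarith

/-- the center, in coordinates, is a linear subspace -/
noncomputable def centerSub : Submodule ℝ (Fin m → ℝ) where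
  carrier := {v | E.e.symm v ∈ Subgroup.center G}
  zero_mem' := by simp [E.symm_zero, (Subgroup.center G).one_mem]
  add_mem' := by
    intro v w hv hw
    simp only [Set.mem_ofPred_eq] at hv hw ⊢
    have hcomm : Commute (E.e.symm v) (E.e.symm w) :=
      (Subgroup.mem_center_iff.mp hw (E.e.symm v))
    have h1 := E.e_mul_of_commute hcomm
    simp only [Homeomorph.apply_symm_apply] at h1
    rw [← h1]
    simpa using (Subgroup.center G).mul_mem hv hw
  smul_mem' := by
    intro t v hv
    simp only [Set.mem_ofPred_eq] at hv ⊢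
    have := E.pw_mem_center hv t
    simpa [pw] using this

lemma mem_centerSub {v : Fin m → ℝ} : v ∈ E.centerSub ↔ E.e.symm v ∈ Subgroup.center G :=
  Iff.rfl

lemma e_mem_centerSub {g : G} (hg : g ∈ Subgroup.center G) : E.e g ∈ E.centerSub := by
  rw [mem_centerSub]; simpa using hg

lemma isClosed_centerSub : IsClosed (E.centerSub : Set (Fin m → ℝ)) :=
  E.centerSub.closed_of_finiteDimensional

end ExpCoords

end BE6F
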