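import Pool.Agent.BE6F.Mean

/-!
# A quasi-isometry with bounded multiplicative defect produces a lattice
-/

set_option autoImplicit false

open Filter Topology
open scoped Pointwise

namespace BE6F

variable {m : ℕ} {G : Type} [Group G] [TopologicalSpace G] [IsTopologicalGroup G]

/-- **Near-homomorphic quasi-isometries produce lattices.** -/
theorem exists_lattice (E : ExpCoords m G) {Γ : Type} [Group Γ] {S : Set Γ} {K : Set G}
    {A B C : ℕ} {g : Γ → G} (hS : S.Finite) (h1 : (1 : Γ) ∈ S)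
    (hgen : ∀ x : Γ, ∃ n : ℕ, x ∈ S ^ n)
    (hK : IsCompact K) (hK1 : K ∈ 𝓝 (1 : G)) (hKi : K⁻¹ = K)
    (hg : IsQI S K A B g) (hdef : ∀ x y, (g (x * y))⁻¹ * g x * g y ∈ K ^ C) :
    ∃ H : Subgroup G, DiscreteTopology H ∧ CompactSpace (G ⧸ H) := by
  classical
  have : T2Space G := E.e.symm.t2Space
  have h1K : (1 : G) ∈ K := mem_of_mem_nhds hK1
  have hex : ∀ h : G, ∃ n, h ∈ K ^ n := hg.exhaust hgen hKi
  set c : Γ → Γ → G := fun x y => (g (x * y))⁻¹ * g x * g y with hc
  -- the associativity identity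
  have hassoc : ∀ x y z, (g z)⁻¹ * c x y * g z = (c (x * y) z)⁻¹ * c x (y * z) * c y z := by
    intro x y z
    simp only [hc]
    rw [mul_assoc x y z]
    group
  -- the defect is central
  have hcen : ∀ x y, c x y ∈ Subgroup.center G := by
    intro x y
    apply E.central_of_bounded (isCompact_pow hK (B + (C + C + C) + B))
    intro h
    obtain ⟨z, hz⟩ := hg.onto h
    have e1 : h⁻¹ * c x y * h = ((g z)⁻¹ * h)⁻¹ * ((g z)⁻¹ * c x y * g z) * ((g z)⁻¹ * h) := by
      group
    rw [e1, hassoc]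
    exact mul_mem_pow (mul_mem_pow (inv_mem_pow hKi hz)
      (mul_mem_pow (mul_mem_pow (inv_mem_pow hKi (hdef _ _)) (hdef _ _)) (hdef _ _))) hz
  have hcoc : ∀ x y z, c (x * y) z * c x y = c x (y * z) * c y z := by
    intro x y z
    have h2 := hassoc x y z
    have h3 : (g z)⁻¹ * c x y * g z = c x y := by
      have := Subgroup.mem_center_iff.mp (hcen x y) (g z)
      rw [mul_assoc, ← this]; group
    rw [h3] at h2
    rw [h2]; group
  have hecoc : ∀ x y z, E.e (c (x * y) z) + E.e (c x y) = E.e (c x (y * z)) + E.e (c y z) := by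
    intro x y z
    have hcm : Commute (c (x * y) z) (c x y) := Subgroup.mem_center_iff.mp (hcen x y) _
    have hcm2 : Commute (c x (y * z)) (c y z) := Subgroup.mem_center_iff.mp (hcen y z) _
    rw [← E.e_mul_of_commute hcm, ← E.e_mul_of_commute hcm2, hcoc]
  -- boundedness of the defect
  obtain ⟨ρ, hρ⟩ := E.exists_bound (isCompact_pow hK C)
  have hbd : ∀ x y, ‖E.e (c x y)‖ ≤ (ρ : ℝ) := fun x y =>
    (pi_norm_le_iff_of_nonneg (Nat.cast_nonneg ρ)).mpr (fun i => hρ _ (hdef x y) i)
  -- the mean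
  have hgrow : PolyBdd (fun n => (ball hS n).card) := growth_of_qi E hS hgen hK hK1 hKi hg
  obtain ⟨M, hMadd, hMconst, hMinv, hMsub, hMnorm⟩ := exists_mean hS h1 hgen hgrow m
  set b : Γ → (Fin m → ℝ) := fun y => M (fun x => E.e (c x y)) with hb
  have hbsub : ∀ y, b y ∈ E.centerSub := fun y =>
    hMsub _ ρ (fun x => hbd x y) _ (fun x => E.e_mem_centerSub (hcen x y))
  have hbnorm : ∀ y, ‖b y‖ ≤ ρ := fun y => hMnorm _ ρ (fun x => hbd x y)
  have hbcoc : ∀ y z, b z + b y = b (y * z) + E.e (c y z) := by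
    intro y z
    have h2 : (fun x => E.e (c (x * y) z) + E.e (c x y)) =
        fun x => E.e (c x (y * z)) + E.e (c y z) := funext (fun x => hecoc x y z)
    have h3 := hMadd (fun x => E.e (c (x * y) z)) (fun x => E.e (c x y)) ρ ρ
      (fun x => hbd _ _) (fun x => hbd _ _)
    have h4 := hMadd (fun x => E.e (c x (y * z))) (fun _ => E.e (c y z)) ρ ρ
      (fun x => hbd _ _) (fun x => hbd _ _)
    have h5 := hMinv (fun x => E.e (c x z)) ρ (fun x => hbd _ _) y
    rw [hMconst] at h4
    rw [h5, h2, h4] at h3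
    exact h3.symm
  set β : Γ → G := fun y => E.e.symm (b y) with hβ
  have hβc : ∀ y, β y ∈ Subgroup.center G := fun y => hbsub y
  have heβ : ∀ y, E.e (β y) = b y := fun y => by simp [hβ]
  have hβcoc : ∀ y z, β z * β y = β (y * z) * c y z := by
    intro y z
    apply E.e.injective
    have hcm : Commute (β z) (β y) := Subgroup.mem_center_iff.mp (hβc y) _
    have hcm2 : Commute (β (y * z)) (c y z) := Subgroup.mem_center_iff.mp (hcen y z) _
    rw [E.e_mul_of_commute hcm, E.e_mul_of_commute hcm2, heβ, heβ, heβ]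
    exact hbcoc y z
  -- the homomorphism
  set φ : Γ →* G := MonoidHom.mk' (fun y => g y * (β y)⁻¹) (by
    intro y z
    have h2 := hβcoc y z
    have h3 : g y * g z = g (y * z) * c y z := by simp only [hc]; group
    have h4 : (β y)⁻¹ * g z = g z * (β y)⁻¹ := by
      have := Subgroup.mem_center_iff.mp ((Subgroup.center G).inv_mem (hβc y)) (g z)
      exact this.symm
    have h5 : g y * (β y)⁻¹ * (g z * (β z)⁻¹) = g y * g z * (β z * β y)⁻¹ := by
      rw [mul_inv_rev, ← mul_assoc (g y * (β y)⁻¹), mul_assoc (g y) ((β y)⁻¹) (g z), h4]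
      group
    rw [h5, h2, h3]
    have h6 : g (y * z) * c y z * (β (y * z) * c y z)⁻¹ = g (y * z) * (β (y * z))⁻¹ := by
      group
    rw [h6]) with hφ
  have hφval : ∀ y, φ y = g y * (β y)⁻¹ := fun y => rfl
  have hgφ : ∀ y, g y = φ y * β y := fun y => by rw [hφval]; group
  -- β is bounded
  obtain ⟨j, hj⟩ := compact_subset_pow hK1 hex
    (Q := E.e.symm '' Metric.closedBall (0 : Fin m → ℝ) ρ)
    ((isCompact_closedBall _ _).image E.e.symm.continuous)
  have hβj : ∀ y, β y ∈ K ^ j := fun y => hj ⟨b y, by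
    rw [mem_closedBall_zero_iff]; exact hbnorm y, rfl⟩
  refine ⟨φ.range, ?_, ?_⟩
  · -- discreteness
    obtain ⟨j1, hj1⟩ := hex (g 1)
    have hfin : ((φ.range : Set G) ∩ K).Finite := by
      apply ((finite_pow hS (A * (j1 + (1 + j)) + B)).image φ).subset
      rintro h ⟨⟨y, rfl⟩, hyK⟩
      refine ⟨y, ?_, rfl⟩
      have h2 : (g 1)⁻¹ * g y ∈ K ^ (j1 + (1 + j)) := by
        apply mul_mem_pow (inv_mem_pow hKi hj1)
        rw [hgφ y]
        exact mul_mem_pow (by rw [pow_one]; exact hyK) (hβj y)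
      have h3 := hg.lo 1 y _ h2
      simpa using h3
    have hopen : IsOpen ({1} : Set φ.range) := by
      have hU : IsOpen (interior K \ (((φ.range : Set G) ∩ K) \ {1})) :=
        isOpen_interior.sdiff (hfin.subset Set.sdiff_subset).isClosed
      have h2 := hU.preimage (continuous_subtype_val (p := fun x => x ∈ φ.range))
      convert h2 using 1
      ext ⟨x, hx⟩
      simp only [Set.mem_singleton_iff, Set.mem_preimage, Set.mem_sdiff, Set.mem_inter_iff,
        SetLike.mem_coe, hx, true_and, not_and, not_not]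
      constructor
      · intro h
        have hx1 : x = 1 := congrArg Subtype.val h
        subst hx1
        exact ⟨mem_interior_iff_mem_nhds.mpr hK1, fun _ => rfl⟩
      · rintro ⟨h2, h3⟩
        exact Subtype.ext (h3 (interior_subset h2))
    exact discreteTopology_of_isOpen_singleton_one hopen
  · -- cocompactness
    constructor
    have h2 : (Set.univ : Set (G ⧸ φ.range)) =
        (QuotientGroup.mk : G → G ⧸ φ.range) '' (K ^ (B + j)) := by
      symm
      rw [Set.eq_univ_iff_forall]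
      intro q
      obtain ⟨h, rfl⟩ := QuotientGroup.mk_surjective q
      obtain ⟨y, hy⟩ := hg.onto h⁻¹
      refine ⟨((g y)⁻¹ * h⁻¹)⁻¹ * (β y)⁻¹,
        mul_mem_pow (inv_mem_pow hKi hy) (inv_mem_pow hKi (hβj y)), ?_⟩
      rw [QuotientGroup.eq]
      have h3 : (((g y)⁻¹ * h⁻¹)⁻¹ * (β y)⁻¹)⁻¹ * h = (φ y)⁻¹ := by
        rw [hφval]
        have h4 := Subgroup.mem_center_iff.mp (hβc y) ((g y)⁻¹)
        have : (((g y)⁻¹ * h⁻¹)⁻¹ * (β y)⁻¹)⁻¹ * h = β y * (g y)⁻¹ := by group
        rw [this]; group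
      rw [h3]
      exact φ.range.inv_mem ⟨y, rfl⟩
    rw [h2]
    exact (isCompact_pow hK _).image QuotientGroup.continuous_mk

end BE6F
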