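import Pool.Agent.BE6F.Near

/-!
# A quasi-isometry whose multiplicative defect is bounded modulo an abelian term of the lower
central series produces a lattice
-/

set_option autoImplicit false

open Filter Topology
open scoped Pointwise

namespace BE6F

section Sets

variable {G : Type} [Group G] {K : Set G} {N : Subgroup G}

lemma kn_mul [N.Normal] {a b : ℕ} {g h : G} (hg : g ∈ K ^ a * (N : Set G))
    (hh : h ∈ K ^ b * (N : Set G)) : g * h ∈ K ^ (a + b) * (N : Set G) := by
  obtain ⟨k, hk, n, hn, rfl⟩ := hg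
  obtain ⟨k', hk', n', hn', rfl⟩ := hh
  refine ⟨k * k', mul_mem_pow hk hk', k'⁻¹ * n * k' * n', ?_, by simp only; group⟩
  refine N.mul_mem ?_ hn'
  have := (inferInstance : N.Normal).conj_mem n hn k'⁻¹
  simpa using this

lemma kn_inv [N.Normal] (hKi : K⁻¹ = K) {a : ℕ} {g : G} (hg : g ∈ K ^ a * (N : Set G)) :
    g⁻¹ ∈ K ^ a * (N : Set G) := by
  obtain ⟨k, hk, n, hn, rfl⟩ := hg
  refine ⟨k⁻¹, inv_mem_pow hKi hk, k * n⁻¹ * k⁻¹, ?_, by simp only; group⟩
  exact (inferInstance : N.Normal).conj_mem _ (N.inv_mem hn) k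

lemma kn_of {a : ℕ} {g : G} (hg : g ∈ K ^ a) : g ∈ K ^ a * (N : Set G) :=
  ⟨g, hg, 1, N.one_mem, mul_one g⟩

end Sets

namespace NilCoords

variable {m : ℕ} {G : Type} [Group G] [TopologicalSpace G] [IsTopologicalGroup G]
  (E : NilCoords m G)

/-- projection to the coordinates of weight at most `q` -/
noncomputable def pl (q : ℕ) : (Fin m → ℝ) →ₗ[ℝ] (Fin m → ℝ) where
  toFun v i := if E.w i ≤ q then v i else 0
  map_add' v w := by
    funext i
    simp only [Pi.add_apply]
    split_ifs <;> simp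
  map_smul' t v := by
    funext i
    simp only [Pi.smul_apply, RingHom.id_apply]
    split_ifs <;> simp

lemma pl_apply (q : ℕ) (v : Fin m → ℝ) (i : Fin m) :
    E.pl q v i = if E.w i ≤ q then v i else 0 := rfl

lemma pl_pl (q : ℕ) (v : Fin m → ℝ) : E.pl q (E.pl q v) = E.pl q v := by
  funext i
  simp only [pl_apply]
  split_ifs <;> rfl

lemma pl_eq_iff (q : ℕ) (v w : Fin m → ℝ) :
    E.pl q v = E.pl q w ↔ ∀ i, E.w i ≤ q → v i = w i := by
  constructor
  · intro h i hi
    have := congrFun h i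
    rwa [pl_apply, pl_apply, if_pos hi, if_pos hi] at this
  · intro h
    funext i
    rw [pl_apply, pl_apply]
    split_ifs with hi
    · exact h i hi
    · rfl

/-- the term of the lower central series -/
abbrev Nq (G : Type) [Group G] (q : ℕ) : Subgroup G := (⊤ : Subgroup G).lowerCentralSeries q

lemma mk_eq_iff (q : ℕ) (g h : G) :
    (QuotientGroup.mk' (Nq G q) g = QuotientGroup.mk' (Nq G q) h) ↔
      E.pl q (E.e g) = E.pl q (E.e h) := by
  rw [E.pl_eq_iff, QuotientGroup.mk'_apply, QuotientGroup.mk'_apply, QuotientGroup.eq,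
    ← E.lv_succ_iff, E.lv_inv_mul_iff]
  constructor
  · intro h1 i hi; exact h1 i (by omega)
  · intro h1 i hi; exact h1 i (by omega)

lemma pl_mul_deep (q : ℕ) (g : G) {a : G} (ha : a ∈ Nq G q) :
    E.pl q (E.e (g * a)) = E.pl q (E.e g) := by
  rw [← E.mk_eq_iff, map_mul]
  have : QuotientGroup.mk' (Nq G q) a = 1 := (QuotientGroup.eq_one_iff a).mpr ha
  rw [this, mul_one]

include E in
/-- an element whose conjugacy class is bounded modulo `Nq` is central modulo `Nq` -/
theorem central_mod_of_bounded (q : ℕ) {K : Set G} (hK : IsCompact K) (n : ℕ) (c : G)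
    (h : ∀ g : G, g⁻¹ * c * g ∈ K ^ n * (Nq G q : Set G)) :
    QuotientGroup.mk' (Nq G q) c ∈ Subgroup.center (G ⧸ Nq G q) := by
  rw [Subgroup.mem_center_iff]
  intro x
  obtain ⟨g, rfl⟩ := QuotientGroup.mk'_surjective (Nq G q) x
  have h1 : E.PolyCurve (fun t => (E.pw g t)⁻¹ * c * E.pw g t) :=
    ((E.polyCurve_pw_inv g).mul (E.polyCurve_const c)).mul (E.polyCurve_pw g)
  obtain ⟨b, hb⟩ := E.exists_bound (isCompact_pow hK n)
  have h2 : QuotientGroup.mk' (Nq G q) (g⁻¹ * c * g) = QuotientGroup.mk' (Nq G q) c := by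
    rw [E.mk_eq_iff, E.pl_eq_iff]
    intro i hi
    obtain ⟨p, hp⟩ := h1 i
    have h3 : ∀ t, |p.eval t| ≤ (b : ℝ) := by
      intro t
      rw [← hp]
      obtain ⟨k, hk, a, ha, hka⟩ := h (E.pw g t)
      have h4 := (E.pl_eq_iff q _ _).mp (E.pl_mul_deep q k ha) i hi
      simp only at hka
      rw [hka] at h4
      simp only
      rw [h4]
      exact hb k hk i
    have h4 := eval_const_of_bounded p b h3 1 0
    rw [← hp, ← hp] at h4
    simpa only [E.pw_one, E.pw_zero, inv_one, one_mul, mul_one] using h4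
  rw [map_mul, map_mul, map_inv] at h2
  calc QuotientGroup.mk' (Nq G q) g * QuotientGroup.mk' (Nq G q) c
      = QuotientGroup.mk' (Nq G q) g * ((QuotientGroup.mk' (Nq G q) g)⁻¹ *
          QuotientGroup.mk' (Nq G q) c * QuotientGroup.mk' (Nq G q) g) := by rw [h2]
    _ = QuotientGroup.mk' (Nq G q) c * QuotientGroup.mk' (Nq G q) g := by group

/-- **On elements commuting modulo `Nq` the coordinates of weight at most `q` are additive.** -/
theorem pl_mul_of_commute (q : ℕ) {g h : G}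
    (hgh : Commute (QuotientGroup.mk' (Nq G q) g) (QuotientGroup.mk' (Nq G q) h)) :
    E.pl q (E.e (g * h)) = E.pl q (E.e g) + E.pl q (E.e h) := by
  funext i
  rw [Pi.add_apply, pl_apply, pl_apply, pl_apply]
  split_ifs with hi
  swap
  · simp
  -- the function q(s,t) = P i (s g, t h)
  set F : ℝ × ℝ → ℝ := fun v => MvPolynomial.eval
    (Sum.elim (fun j : {j : Fin m // j < i} => E.e (E.pw g v.1) j.1)
      (fun j : {j : Fin m // j < i} => E.e (E.pw h v.2) j.1)) (E.P i) with hF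
  have hFd : Differentiable ℝ F := by
    have := ExpCoords.differentiable_eval_aux (E.P i)
      (fun (j : {j : Fin m // j < i} ⊕ {j : Fin m // j < i}) (v : ℝ × ℝ) =>
        Sum.elim (fun j => E.e (E.pw g v.1) j.1) (fun j => E.e (E.pw h v.2) j.1) j) ?_
    · exact this
    · rintro (j | j)
      · simp only [Sum.elim_inl, E.e_pw, Pi.smul_apply, smul_eq_mul]
        fun_prop
      · simp only [Sum.elim_inr, E.e_pw, Pi.smul_apply, smul_eq_mul]
        fun_prop
  have hF1 : ∀ s, F (s, 0) = 0 := by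
    intro s
    have := E.eval_P_right (E.pw g s) i
    simp only [hF, E.pw_zero, E.e_one, Pi.zero_apply]
    exact this
  have hF2 : ∀ t, F (0, t) = 0 := by
    intro t
    have := E.eval_P_left (E.pw h t) i
    simp only [hF, E.pw_zero, E.e_one, Pi.zero_apply]
    exact this
  -- the diagonal is linear
  have hdiag : ∀ s : ℝ, F (s, s) = s * (E.e (g * h) i - E.e g i - E.e h i) := by
    obtain ⟨p, hp⟩ := ExpCoords.exists_poly_eval (E.P i)
      (fun (j : {j : Fin m // j < i} ⊕ {j : Fin m // j < i}) t =>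
        Sum.elim (fun j => E.e (E.pw g t) j.1) (fun j => E.e (E.pw h t) j.1) j)
      (by
        rintro (j | j)
        · exact E.polyCurve_pw g j.1
        · exact E.polyCurve_pw h j.1)
    have hpF : ∀ t, F (t, t) = p.eval t := hp
    have hpoly : p = Polynomial.X * Polynomial.C (E.e (g * h) i - E.e g i - E.e h i) := by
      apply Polynomial.eq_of_infinite_eval_eq
      apply Set.Infinite.mono (s := Set.range (fun n : ℕ => (n : ℝ)))
      · rintro x ⟨n, rfl⟩
        simp only [Set.mem_ofPred_eq]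
        rw [← hpF]
        have h1 := E.mul_apply (E.pw g n) (E.pw h n) i
        have hcomm : QuotientGroup.mk' (Nq G q) (g ^ n * h ^ n) =
            QuotientGroup.mk' (Nq G q) ((g * h) ^ n) := by
          rw [map_mul, map_pow, map_pow, map_pow, map_mul, hgh.mul_pow]
        have h3 := (E.pl_eq_iff q _ _).mp ((E.mk_eq_iff q _ _).mp hcomm) i hi
        rw [E.pw_nat, E.pw_nat, h3, ← E.pw_nat, ← E.pw_nat, ← E.pw_nat] at h1
        simp only [Polynomial.eval_mul, Polynomial.eval_X, Polynomial.eval_C]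
        have h2 : F ((n : ℝ), (n : ℝ)) = MvPolynomial.eval
          (Sum.elim (fun j : {j : Fin m // j < i} => E.e (E.pw g n) j.1)
            (fun j : {j : Fin m // j < i} => E.e (E.pw h n) j.1)) (E.P i) := rfl
        rw [← h2] at h1
        simp only [E.e_pw, Pi.smul_apply, smul_eq_mul] at h1
        linarith
      · exact Set.infinite_range_of_injective Nat.cast_injective
    intro s
    rw [hpF, hpoly]; simp
  -- derivative at the origin
  have hd := (hFd (0, 0)).hasFDerivAt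
  set L := fderiv ℝ F (0, 0) with hL
  have hc1 : HasDerivAt (fun s : ℝ => F (s, 0)) (L (1, 0)) 0 := by
    have hcurve : HasDerivAt (fun s : ℝ => ((s, 0) : ℝ × ℝ)) (1, 0) 0 :=
      (hasDerivAt_id (0 : ℝ)).prodMk (hasDerivAt_const (0 : ℝ) (0 : ℝ))
    exact HasFDerivAt.comp_hasDerivAt (f := fun s : ℝ => ((s, 0) : ℝ × ℝ)) (0 : ℝ) hd hcurve
  have hc2 : HasDerivAt (fun s : ℝ => F (0, s)) (L (0, 1)) 0 := by
    have hcurve : HasDerivAt (fun s : ℝ => ((0, s) : ℝ × ℝ)) (0, 1) 0 :=
      (hasDerivAt_const (0 : ℝ) (0 : ℝ)).prodMk (hasDerivAt_id (0 : ℝ))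
    exact HasFDerivAt.comp_hasDerivAt (f := fun s : ℝ => ((0, s) : ℝ × ℝ)) (0 : ℝ) hd hcurve
  have hc3 : HasDerivAt (fun s : ℝ => F (s, s)) (L (1, 1)) 0 := by
    have hcurve : HasDerivAt (fun s : ℝ => ((s, s) : ℝ × ℝ)) (1, 1) 0 :=
      (hasDerivAt_id (0 : ℝ)).prodMk (hasDerivAt_id (0 : ℝ))
    exact HasFDerivAt.comp_hasDerivAt (f := fun s : ℝ => ((s, s) : ℝ × ℝ)) (0 : ℝ) hd hcurve
  have e1 : L (1, 0) = 0 := by
    have : (fun s : ℝ => F (s, 0)) = fun _ => 0 := funext hF1
    rw [this] at hc1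
    exact hc1.unique (hasDerivAt_const _ _)
  have e2 : L (0, 1) = 0 := by
    have : (fun s : ℝ => F (0, s)) = fun _ => 0 := funext hF2
    rw [this] at hc2
    exact hc2.unique (hasDerivAt_const _ _)
  have e3 : L (1, 1) = 0 := by
    have : ((1, 1) : ℝ × ℝ) = (1, 0) + (0, 1) := by simp
    rw [this, map_add, e1, e2, add_zero]
  have e4 : L (1, 1) = E.e (g * h) i - E.e g i - E.e h i := by
    have : (fun s : ℝ => F (s, s)) = fun s => s * (E.e (g * h) i - E.e g i - E.e h i) :=
      funext hdiag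
    rw [this] at hc3
    have h5 := (hasDerivAt_id (0 : ℝ)).mul_const (E.e (g * h) i - E.e g i - E.e h i)
    simp only [id_eq, one_mul] at h5
    exact hc3.unique h5
  rw [e3] at e4
  linarith

/-- real powers of an element central modulo `Nq` are central modulo `Nq` -/
theorem pw_mem_center_mod (q : ℕ) {c : G}
    (hc : QuotientGroup.mk' (Nq G q) c ∈ Subgroup.center (G ⧸ Nq G q)) (t : ℝ) :
    QuotientGroup.mk' (Nq G q) (E.pw c t) ∈ Subgroup.center (G ⧸ Nq G q) := by
  rw [Subgroup.mem_center_iff]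
  intro x
  obtain ⟨g, rfl⟩ := QuotientGroup.mk'_surjective (Nq G q) x
  have h1 : E.PolyCurve (fun t => g * E.pw c t) := (E.polyCurve_const g).mul (E.polyCurve_pw c)
  have h2 : E.PolyCurve (fun t => E.pw c t * g) := (E.polyCurve_pw c).mul (E.polyCurve_const g)
  rw [← map_mul, ← map_mul, E.mk_eq_iff, E.pl_eq_iff]
  intro i hi
  obtain ⟨p1, hp1⟩ := h1 i
  obtain ⟨p2, hp2⟩ := h2 i
  have hpp : p1 = p2 := by
    apply Polynomial.eq_of_infinite_eval_eq
    apply Set.Infinite.mono (s := Set.range (fun n : ℕ => (n : ℝ)))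
    · rintro x ⟨n, rfl⟩
      simp only [Set.mem_ofPred_eq]
      rw [← hp1, ← hp2]
      have h3 : QuotientGroup.mk' (Nq G q) (g * E.pw c n) =
          QuotientGroup.mk' (Nq G q) (E.pw c n * g) := by
        rw [E.pw_nat, map_mul, map_mul, map_pow]
        exact Subgroup.mem_center_iff.mp ((Subgroup.center _).pow_mem hc n) _
      exact (E.pl_eq_iff q _ _).mp ((E.mk_eq_iff q _ _).mp h3) i hi
    · exact Set.infinite_range_of_injective Nat.cast_injective
  rw [hp1, hp2, hpp]

/-- the elements central modulo `Nq`, in coordinates, form a linear subspace -/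
noncomputable def centerMod (q : ℕ) : Submodule ℝ (Fin m → ℝ) where
  carrier := {v | E.pl q v = v ∧
    QuotientGroup.mk' (Nq G q) (E.e.symm v) ∈ Subgroup.center (G ⧸ Nq G q)}
  zero_mem' := by
    refine ⟨map_zero _, ?_⟩
    rw [E.symm_zero, map_one]
    exact (Subgroup.center _).one_mem
  add_mem' := by
    intro v w hv hw
    simp only [Set.mem_ofPred_eq] at hv hw ⊢
    refine ⟨by rw [map_add, hv.1, hw.1], ?_⟩
    have hcomm : Commute (QuotientGroup.mk' (Nq G q) (E.e.symm v))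
        (QuotientGroup.mk' (Nq G q) (E.e.symm w)) := Subgroup.mem_center_iff.mp hw.2 _
    have h1 := E.pl_mul_of_commute q hcomm
    simp only [Homeomorph.apply_symm_apply] at h1
    have h2 : QuotientGroup.mk' (Nq G q) (E.e.symm (v + w)) =
        QuotientGroup.mk' (Nq G q) (E.e.symm v * E.e.symm w) := by
      rw [E.mk_eq_iff, h1, Homeomorph.apply_symm_apply, map_add]
    rw [h2, map_mul]
    exact (Subgroup.center _).mul_mem hv.2 hw.2
  smul_mem' := by
    intro t v hv
    simp only [Set.mem_ofPred_eq] at hv ⊢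
    refine ⟨by rw [map_smul, hv.1], ?_⟩
    have := E.pw_mem_center_mod q hv.2 t
    simpa [ExpCoords.pw] using this

lemma mem_centerMod {q : ℕ} {v : Fin m → ℝ} : v ∈ E.centerMod q ↔ E.pl q v = v ∧
    QuotientGroup.mk' (Nq G q) (E.e.symm v) ∈ Subgroup.center (G ⧸ Nq G q) := Iff.rfl

lemma pl_mem_centerMod {q : ℕ} {g : G}
    (hg : QuotientGroup.mk' (Nq G q) g ∈ Subgroup.center (G ⧸ Nq G q)) :
    E.pl q (E.e g) ∈ E.centerMod q := by
  rw [mem_centerMod]
  refine ⟨E.pl_pl q _, ?_⟩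
  have : QuotientGroup.mk' (Nq G q) (E.e.symm (E.pl q (E.e g))) = QuotientGroup.mk' (Nq G q) g := by
    rw [E.mk_eq_iff, Homeomorph.apply_symm_apply, E.pl_pl]
  rw [this]; exact hg

include E in
/-- **Quasi-isometries which are nearly homomorphic modulo an abelian term produce lattices.** -/
theorem lattice_of_defect {Γ : Type} [Group Γ] {S : Set Γ} {K : Set G} {A B C : ℕ} {g : Γ → G}
    (hS : S.Finite) (h1 : (1 : Γ) ∈ S) (hSi : S⁻¹ = S) (hgen : ∀ x : Γ, ∃ n : ℕ, x ∈ S ^ n)
    (hK : IsCompact K) (hK1 : K ∈ 𝓝 (1 : G)) (hKi : K⁻¹ = K) (hg : IsQI S K A B g)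
    {q : ℕ} (hq : 1 ≤ q)
    (hab : ∀ a ∈ Nq G q, ∀ b ∈ Nq G q, a * b = b * a)
    (hdef : ∀ x y, (g (x * y))⁻¹ * g x * g y ∈ K ^ C * (Nq G q : Set G)) :
    ∃ H : Subgroup G, DiscreteTopology H ∧ CompactSpace (G ⧸ H) := by
  classical
  have : T2Space G := E.e.symm.t2Space
  have h1K : (1 : G) ∈ K := mem_of_mem_nhds hK1
  have hex : ∀ h : G, ∃ n, h ∈ K ^ n := hg.exhaust hgen hKi
  set π := QuotientGroup.mk' (Nq G q) with hπ
  obtain ⟨c, hc⟩ : ∃ c : Γ → Γ → G, ∀ x y, c x y = (g (x * y))⁻¹ * g x * g y :=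
    ⟨_, fun _ _ => rfl⟩
  simp only [← hc] at hdef
  -- the associativity identity
  have hassoc : ∀ x y z, (g z)⁻¹ * c x y * g z = (c (x * y) z)⁻¹ * c x (y * z) * c y z := by
    intro x y z
    simp only [hc]
    rw [mul_assoc x y z]
    group
  -- the defect is central modulo `Nq`
  have hcen : ∀ x y, π (c x y) ∈ Subgroup.center (G ⧸ Nq G q) := by
    intro x y
    apply E.central_mod_of_bounded q hK (B + (C + C + C) + B)
    intro h
    obtain ⟨z, hz⟩ := hg.onto h
    have e1 : h⁻¹ * c x y * h = ((g z)⁻¹ * h)⁻¹ * ((g z)⁻¹ * c x y * g z) * ((g z)⁻¹ * h) := by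
      group
    rw [e1, hassoc]
    exact kn_mul (kn_mul (kn_of (inv_mem_pow hKi hz))
      (kn_mul (kn_mul (kn_inv hKi (hdef _ _)) (hdef _ _)) (hdef _ _))) (kn_of hz)
  have hcoc : ∀ x y z, π (c (x * y) z) * π (c x y) = π (c x (y * z)) * π (c y z) := by
    intro x y z
    have h2 := congrArg π (hassoc x y z)
    rw [map_mul, map_mul, map_inv, map_mul, map_mul, map_inv] at h2
    have h3 : (π (g z))⁻¹ * π (c x y) * π (g z) = π (c x y) := by
      have := Subgroup.mem_center_iff.mp (hcen x y) (π (g z))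
      rw [mul_assoc, ← this]; group
    rw [h3] at h2
    rw [h2]; group
  obtain ⟨u, hu⟩ : ∃ u : Γ → Γ → (Fin m → ℝ), ∀ x y, u x y = E.pl q (E.e (c x y)) :=
    ⟨_, fun _ _ => rfl⟩
  have hecoc : ∀ x y z, u (x * y) z + u x y = u x (y * z) + u y z := by
    intro x y z
    have hcm : Commute (π (c (x * y) z)) (π (c x y)) := Subgroup.mem_center_iff.mp (hcen x y) _
    have hcm2 : Commute (π (c x (y * z))) (π (c y z)) := Subgroup.mem_center_iff.mp (hcen y z) _
    simp only [hu]
    rw [← E.pl_mul_of_commute q hcm, ← E.pl_mul_of_commute q hcm2, ← E.mk_eq_iff, map_mul, map_mul]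
    exact hcoc x y z
  -- boundedness of the defect
  obtain ⟨ρ, hρ⟩ := E.exists_bound (isCompact_pow hK C)
  have hbd : ∀ x y, ‖u x y‖ ≤ (ρ : ℝ) := by
    intro x y
    rw [pi_norm_le_iff_of_nonneg (Nat.cast_nonneg ρ)]
    intro i
    simp only [hu, pl_apply]
    split_ifs with hi
    · obtain ⟨k, hk, a, ha, hka⟩ := hdef x y
      have h4 := (E.pl_eq_iff q _ _).mp (E.pl_mul_deep q k ha) i hi
      simp only at hka
      rw [hka] at h4
      rw [h4, Real.norm_eq_abs]
      exact hρ k hk i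
    · simp
  -- the mean
  have hgrow : PolyBdd (fun n => (ball hS n).card) :=
    growth_of_qi E.toExpCoords hS hgen hK hK1 hKi hg
  obtain ⟨M, hMadd, hMconst, hMinv, hMsub, hMnorm⟩ := exists_mean hS h1 hgen hgrow m
  set b : Γ → (Fin m → ℝ) := fun y => M (fun x => u x y) with hb
  have hbsub : ∀ y, b y ∈ E.centerMod q := fun y =>
    hMsub _ ρ (fun x => hbd x y) _ (fun x => by rw [hu]; exact E.pl_mem_centerMod (hcen x y))
  have hbnorm : ∀ y, ‖b y‖ ≤ ρ := fun y => hMnorm _ ρ (fun x => hbd x y)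
  have hbcoc : ∀ y z, b z + b y = b (y * z) + u y z := by
    intro y z
    have h2 : (fun x => u (x * y) z + u x y) =
        fun x => u x (y * z) + u y z := funext (fun x => hecoc x y z)
    have h3 := hMadd (fun x => u (x * y) z) (fun x => u x y) ρ ρ
      (fun x => hbd _ _) (fun x => hbd _ _)
    have h4 := hMadd (fun x => u x (y * z)) (fun _ => u y z) ρ ρ
      (fun x => hbd _ _) (fun x => hbd _ _)
    have h5 := hMinv (fun x => u x z) ρ (fun x => hbd _ _) y
    rw [hMconst] at h4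
    rw [h5, h2, h4] at h3
    exact h3.symm
  obtain ⟨β, hβ⟩ : ∃ β : Γ → G, ∀ y, β y = E.e.symm (b y) := ⟨_, fun _ => rfl⟩
  have hβc : ∀ y, π (β y) ∈ Subgroup.center (G ⧸ Nq G q) := fun y => by rw [hβ]; exact (hbsub y).2
  have heβ : ∀ y, E.e (β y) = b y := fun y => by simp [hβ]
  have hβcoc : ∀ y z, π (β z) * π (β y) = π (β (y * z)) * π (c y z) := by
    intro y z
    rw [← map_mul, ← map_mul, E.mk_eq_iff]
    have hcm : Commute (π (β z)) (π (β y)) := Subgroup.mem_center_iff.mp (hβc y) _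
    have hcm2 : Commute (π (β (y * z))) (π (c y z)) := Subgroup.mem_center_iff.mp (hcen y z) _
    rw [E.pl_mul_of_commute q hcm, E.pl_mul_of_commute q hcm2, heβ, heβ, heβ, (hbsub _).1,
      (hbsub _).1, (hbsub _).1, ← hu]
    exact hbcoc y z
  -- the map which is a homomorphism modulo `Nq`
  obtain ⟨F0, hF0⟩ : ∃ F0 : Γ → G, ∀ y, F0 y = g y * (β y)⁻¹ := ⟨_, fun _ => rfl⟩
  have hF0hom : ∀ y z, π (F0 y) * π (F0 z) = π (F0 (y * z)) := by
    intro y z
    simp only [hF0, map_mul, map_inv]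
    have h2 := hβcoc y z
    have h3 : π (g y) * π (g z) = π (g (y * z)) * π (c y z) := by
      rw [← map_mul, ← map_mul]; congr 1; simp only [hc]; group
    have h4 : (π (β y))⁻¹ * π (g z) = π (g z) * (π (β y))⁻¹ := by
      have := Subgroup.mem_center_iff.mp ((Subgroup.center _).inv_mem (hβc y)) (π (g z))
      exact this.symm
    have h5 : π (g y) * (π (β y))⁻¹ * (π (g z) * (π (β z))⁻¹) =
        π (g y) * π (g z) * (π (β z) * π (β y))⁻¹ := by
      rw [mul_inv_rev, ← mul_assoc (π (g y) * (π (β y))⁻¹), mul_assoc (π (g y)) ((π (β y))⁻¹) (π (g z)),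
        h4]
      group
    rw [h5, h2, h3]
    group
  have hF0' : ∀ x y, E.Lv (q + 1) ((F0 (x * y))⁻¹ * F0 x * F0 y) := by
    intro x y
    rw [E.lv_succ_iff]
    have h2 : π ((F0 (x * y))⁻¹ * F0 x * F0 y) = 1 := by
      rw [map_mul, map_mul, map_inv, mul_assoc, hF0hom, inv_mul_cancel]
    exact (QuotientGroup.eq_one_iff _).mp h2
  -- β is bounded
  obtain ⟨j, hj⟩ := compact_subset_pow hK1 hex
    (Q := E.e.symm '' Metric.closedBall (0 : Fin m → ℝ) ρ)
    ((isCompact_closedBall _ _).image E.e.symm.continuous)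
  have hβj : ∀ y, β y ∈ K ^ j := fun y => hj ⟨b y, by
    rw [mem_closedBall_zero_iff]; exact hbnorm y, (hβ y).symm⟩
  have hρ' : ∀ x, (g x)⁻¹ * F0 x ∈ K ^ ((fun _ : Γ => j) x) := by
    intro x
    simp only [hF0]
    rw [inv_mul_cancel_left]
    exact inv_mem_pow hKi (hβj x)
  -- the exponent
  set p : ℕ := ∑ i, E.w i + 1 with hp
  have hwp : ∀ i, E.w i ≤ p + 1 := by
    intro i
    have : E.w i ≤ ∑ i, E.w i := Finset.single_le_sum (fun _ _ => Nat.zero_le _) (Finset.mem_univ i)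
    omega
  refine E.lattice_of_near_hom hS h1 hSi hgen hK hK1 hKi hg p (by omega) hwp (i0 := q + 1)
    (by omega) (fun a b ha hb => hab a ((E.lv_succ_iff q a).mp ha) b ((E.lv_succ_iff q b).mp hb))
    F0 hF0' (fun _ => j) hρ' ?_
  have hlim : Tendsto (fun n : ℕ => ((j : ℝ) ^ p) * (1 / (n : ℝ))) atTop (𝓝 0) := by
    have := (tendsto_one_div_atTop_nhds_zero_nat (𝕜 := ℝ)).const_mul ((j : ℝ) ^ p)
    simpa using this
  refine hlim.congr (fun n => ?_)
  have hc0 : ((ball hS n).card : ℝ) ≠ 0 := by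
    have := (ball_nonempty hS h1 n).card_pos
    positivity
  have htot : tot hS (fun _ => (j : ℝ) ^ p) n = (ball hS n).card * (j : ℝ) ^ p := by
    simp [tot]
  rw [htot]
  field_simp

end NilCoords

end BE6F
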