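import Pool.Agent.BE6F.Omega

/-!
# Maps which are homomorphisms modulo an abelian term of the lower central series
-/

set_option autoImplicit false

open Filter Topology
open scoped Pointwise commutatorElement

namespace BE6F

namespace NilCoords

variable {m : ℕ} {G : Type} [Group G] [TopologicalSpace G] [IsTopologicalGroup G]
  (E : NilCoords m G)

/-- **Sublinear closeness forces the abelianization to be spanned.** -/
theorem span_of_sublinear {Γ : Type} [Group Γ] {S : Set Γ} {K : Set G} {A B : ℕ} {f : Γ → G}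
    (hSf : S.Finite) (h1S : (1 : Γ) ∈ S) (hgen : ∀ x : Γ, ∃ n : ℕ, x ∈ S ^ n)
    (hK : IsCompact K) (hK1 : K ∈ 𝓝 (1 : G)) (hKi : K⁻¹ = K) (hf : IsQI S K A B f)
    (p : ℕ) (hp : 1 ≤ p) (ρ : Γ → ℕ)
    (hsub : Tendsto (fun n : ℕ => tot hSf (fun x => (ρ x : ℝ) ^ p) n /
      (n * (ball hSf n).card)) atTop (𝓝 0))
    (ψ : Γ → (Fin m → ℝ)) (D : ℕ) (hψ : ∀ x, ‖E.co 1 (f x) - ψ x‖ ≤ D * ρ x)
    (v : Fin m → ℝ) : E.pr 1 v ∈ Submodule.span ℝ (Set.range ψ) := by
  classical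
  by_contra hv
  obtain ⟨lam, hlv, hker⟩ := Submodule.exists_le_ker_of_notMem hv
  have hex : ∀ g : G, ∃ n, g ∈ K ^ n := hf.exhaust hgen hKi
  have h1K : (1 : G) ∈ K := mem_of_mem_nhds hK1
  have hlψ : ∀ x, lam (ψ x) = 0 := fun x =>
    LinearMap.mem_ker.mp (hker (Submodule.subset_span ⟨x, rfl⟩))
  -- normalize
  set v0 : Fin m → ℝ := (lam (E.pr 1 v))⁻¹ • E.pr 1 v with hv0
  have hlv0 : lam v0 = 1 := by
    rw [hv0, map_smul, smul_eq_mul, inv_mul_cancel₀ hlv]
  have hprv0 : E.pr 1 v0 = v0 := by rw [hv0, map_smul, E.pr_pr]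
  set g0 : G := E.e.symm v0 with hg0
  have hcog0 : E.co 1 g0 = v0 := by rw [co, hg0, Homeomorph.apply_symm_apply, hprv0]
  -- bound of the functional
  obtain ⟨Lam, hLam⟩ := exists_nat_ge ‖lam.toContinuousLinearMap‖
  have hlb : ∀ u, |lam u| ≤ Lam * ‖u‖ := by
    intro u
    have h1 := (lam.toContinuousLinearMap).le_opNorm u
    have h2 : ‖lam.toContinuousLinearMap‖ * ‖u‖ ≤ Lam * ‖u‖ :=
      mul_le_mul_of_nonneg_right hLam (norm_nonneg _)
    exact h1.trans h2
  -- bound of co 1 on powers of K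
  obtain ⟨c0, hc0⟩ := E.exists_bound hK
  have hco : ∀ n : ℕ, ∀ k ∈ K ^ n, ‖E.co 1 k‖ ≤ c0 * n := by
    intro n
    induction n with
    | zero =>
      intro k hk
      rw [pow_zero, Set.mem_one] at hk
      rw [hk, E.co_one]; simp
    | succ n ih =>
      intro k hk
      rw [pow_succ] at hk
      obtain ⟨k', hk', k'', hk'', rfl⟩ := hk
      simp only
      rw [E.co_mul (E.lv_one _) (E.lv_one _) (by omega)]
      have h2 : ‖E.co 1 k''‖ ≤ c0 := by
        refine (E.norm_pr_le _ _).trans ?_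
        exact (pi_norm_le_iff_of_nonneg (Nat.cast_nonneg _)).mpr (hc0 k'' hk'')
      have h3 := ih k' hk'
      push_cast
      calc _ ≤ ‖E.co 1 k'‖ + ‖E.co 1 k''‖ := norm_add_le _ _
        _ ≤ _ := by linarith
  -- constants
  obtain ⟨a, ha⟩ := hex g0
  obtain ⟨j0, hj0⟩ := hex (f 1)⁻¹
  set L0 : ℕ := Lam * c0 with hL0
  have hlamK : ∀ n : ℕ, ∀ k ∈ K ^ n, |lam (E.co 1 k)| ≤ L0 * n := by
    intro n k hk
    refine (hlb _).trans ?_
    rw [hL0]; push_cast
    rw [mul_assoc]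
    exact mul_le_mul_of_nonneg_left (hco n k hk) (Nat.cast_nonneg _)
  set q : ℕ := 2 * L0 * (A + 2 * B) + 1 with hq
  set L : ℕ := A * (j0 + a + B) + B with hL
  set l : ℕ := L * q + 2 with hl
  set c3 : ℕ := 2 * (Lam * D) + 1 with hc3
  -- many points where ρ is large
  have hmany : ∀ N : ℕ, 1 ≤ N → ∃ xN : Γ, ∀ x ∈ ball hSf N, xN * x ∈ ball hSf (l * N) ∧
      (N : ℝ) ≤ c3 * ρ (xN * x) := by
    intro N hN
    have hN1 : (1 : ℝ) ≤ N := by exact_mod_cast hN
    obtain ⟨xN, hxN⟩ := hf.onto (g0 ^ (q * N))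
    have hqN : 1 ≤ q * N := Nat.mul_pos (by omega) hN
    have hxNS : xN ∈ S ^ (L * (q * N)) := by
      have h1 : (f 1)⁻¹ * f xN ∈ K ^ (j0 + a * (q * N) + B) := by
        have h2 : (f 1)⁻¹ * f xN = (f 1)⁻¹ * g0 ^ (q * N) * ((f xN)⁻¹ * g0 ^ (q * N))⁻¹ := by
          group
        rw [h2]
        refine mul_mem_pow (mul_mem_pow hj0 ?_) (inv_mem_pow hKi hxN)
        rw [pow_mul]
        exact Set.pow_mem_pow ha
      have h3 := hf.lo 1 xN _ h1
      rw [inv_one, one_mul] at h3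
      refine mem_pow_mono h1S ?_ h3
      rw [hL]
      have h4 : j0 + a * (q * N) + B ≤ (j0 + a + B) * (q * N) := by nlinarith
      have h5 : A * (j0 + a * (q * N) + B) ≤ A * ((j0 + a + B) * (q * N)) :=
        Nat.mul_le_mul_left _ h4
      nlinarith
    refine ⟨xN, fun x hx => ?_⟩
    rw [mem_ball] at hx
    constructor
    · rw [mem_ball]
      refine mem_pow_mono h1S ?_ (mul_mem_pow hxNS hx)
      rw [hl]; nlinarith
    · -- the functional is large at xN * x
      have h1 : (f xN)⁻¹ * f (xN * x) ∈ K ^ (A * N + B) := by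
        apply hf.up
        rw [inv_mul_cancel_left]; exact hx
      have h2 : lam (E.co 1 (f (xN * x))) = (q * N : ℕ) -
          lam (E.co 1 ((f xN)⁻¹ * g0 ^ (q * N))) +
          lam (E.co 1 ((f xN)⁻¹ * f (xN * x))) := by
        have h3 : E.co 1 (g0 ^ (q * N)) = ((q * N : ℕ) : ℝ) • v0 := by
          rw [← E.pw_nat, E.co_pw, hcog0]
        have h4 : E.co 1 ((f xN)⁻¹ * g0 ^ (q * N)) = - E.co 1 (f xN) +
            ((q * N : ℕ) : ℝ) • v0 := by
          rw [E.co_mul (E.lv_one _) (E.lv_one _) (by omega), E.co_inv, h3]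
        have h5 : E.co 1 ((f xN)⁻¹ * f (xN * x)) = - E.co 1 (f xN) + E.co 1 (f (xN * x)) := by
          rw [E.co_mul (E.lv_one _) (E.lv_one _) (by omega), E.co_inv]
        rw [h4, h5, map_add, map_add, map_neg, map_smul, hlv0, smul_eq_mul, mul_one]
        ring
      have h3 := hlamK _ _ hxN
      have h4 := hlamK _ _ h1
      have h5 : |lam (E.co 1 (f (xN * x)))| ≤ Lam * D * ρ (xN * x) := by
        have h6 : lam (E.co 1 (f (xN * x))) = lam (E.co 1 (f (xN * x)) - ψ (xN * x)) := by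
          rw [map_sub, hlψ, sub_zero]
        rw [h6]
        refine (hlb _).trans ?_
        rw [mul_assoc]
        exact mul_le_mul_of_nonneg_left (hψ _) (Nat.cast_nonneg _)
      have h6 := abs_le.mp h3
      have h7 := abs_le.mp h4
      have h8 := (abs_le.mp h5).2
      have hL0r : (0 : ℝ) ≤ L0 := Nat.cast_nonneg _
      have hAr : (0 : ℝ) ≤ A := Nat.cast_nonneg _
      have hBr : (0 : ℝ) ≤ B := Nat.cast_nonneg _
      have h9 : ((q * N : ℕ) : ℝ) = (2 * L0 * (A + 2 * B) + 1) * N := by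
        rw [hq]; push_cast; ring
      rw [h2, h9] at h8
      push_cast at h7
      have h10 : (L0 : ℝ) * (A * N + B) + L0 * B ≤ L0 * (A + 2 * B) * N := by
        have h11 : (B : ℝ) ≤ B * N := le_mul_of_one_le_right hBr hN1
        have h12 : (A : ℝ) * N + B + B ≤ (A + 2 * B) * N := by linarith
        have h13 := mul_le_mul_of_nonneg_left h12 hL0r
        linarith
      have h14 : (N : ℝ) ≤ Lam * D * ρ (xN * x) := by
        have h15 : (0 : ℝ) ≤ L0 * (A + 2 * B) * N := by positivity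
        nlinarith [h6.1, h6.2, h7.1, h7.2]
      have h15 : (0 : ℝ) ≤ Lam * D * ρ (xN * x) := by positivity
      have h16 : (0 : ℝ) ≤ ρ (xN * x) := Nat.cast_nonneg _
      rw [hc3]; push_cast
      nlinarith
  -- doubling
  have hgrow : PolyBdd (fun n => (ball hSf n).card) :=
    growth_of_qi E.toExpCoords hSf hgen hK hK1 hKi hf
  obtain ⟨Dd, hDd⟩ := hgrow.doubling (fun n => (ball_nonempty hSf h1S n).card_pos) l (by omega)
  set ε : ℝ := 1 / ((c3 : ℝ) ^ p * l * (Dd + 1)) with hε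
  have hc3pos : (0 : ℝ) < c3 := by
    have : 0 < c3 := by omega
    exact_mod_cast this
  have hlpos : (0 : ℝ) < l := by
    have : 0 < l := by omega
    exact_mod_cast this
  have hε0 : 0 < ε := by positivity
  obtain ⟨N0, hN0⟩ := eventually_atTop.mp (hsub.eventually (gt_mem_nhds hε0))
  obtain ⟨N, hN, hNd⟩ := hDd (N0 + c3 + 1)
  have hN1 : 1 ≤ N := by omega
  have hNr : (0 : ℝ) < N := by exact_mod_cast hN1
  obtain ⟨xN, hxN⟩ := hmany N hN1
  have hlow : ((ball hSf N).card : ℝ) * (N / (c3 : ℝ) ^ p) ≤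
      tot hSf (fun x => (ρ x : ℝ) ^ p) (l * N) := by
    have h1 : ∑ x ∈ (ball hSf N).image (fun x => xN * x), (ρ x : ℝ) ^ p ≤
        tot hSf (fun x => (ρ x : ℝ) ^ p) (l * N) := by
      apply Finset.sum_le_sum_of_subset_of_nonneg
      · intro z hz
        obtain ⟨x, hx, rfl⟩ := Finset.mem_image.mp hz
        exact (hxN x hx).1
      · intro x _ _; positivity
    refine le_trans ?_ h1
    rw [Finset.sum_image (fun x _ y _ hxy => mul_left_cancel hxy)]
    have h2 : ∀ x ∈ ball hSf N, (N : ℝ) / (c3 : ℝ) ^ p ≤ (ρ (xN * x) : ℝ) ^ p := by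
      intro x hx
      have h3 := (hxN x hx).2
      have h4 : (N : ℝ) ^ p ≤ (c3 * ρ (xN * x)) ^ p := pow_le_pow_left₀ hNr.le h3 _
      rw [div_le_iff₀ (by positivity), mul_comm, ← mul_pow]
      refine le_trans ?_ h4
      exact le_self_pow₀ (by exact_mod_cast hN1) (by omega)
    calc ((ball hSf N).card : ℝ) * (N / (c3 : ℝ) ^ p) =
        ∑ x ∈ ball hSf N, (N : ℝ) / (c3 : ℝ) ^ p := by
          rw [Finset.sum_const, nsmul_eq_mul]
      _ ≤ _ := Finset.sum_le_sum h2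
  have hup := hN0 (l * N) (le_trans (show N0 ≤ N by omega) (Nat.le_mul_of_pos_left N (by omega)))
  have hcardl : (0 : ℝ) < (ball hSf (l * N)).card := by
    have := (ball_nonempty hSf h1S (l * N)).card_pos
    positivity
  have hlN : (0 : ℝ) < ((l * N : ℕ) : ℝ) := by push_cast; positivity
  rw [div_lt_iff₀ (by positivity)] at hup
  have hb : (0 : ℝ) < (ball hSf N).card := by
    have := (ball_nonempty hSf h1S N).card_pos
    positivity
  have h6 : ((ball hSf (l * N)).card : ℝ) ≤ Dd * (ball hSf N).card := by exact_mod_cast hNd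
  have h7 : ((ball hSf N).card : ℝ) * (N / (c3 : ℝ) ^ p) <
      ε * (((l * N : ℕ) : ℝ) * (Dd * (ball hSf N).card)) := by
    refine (hlow.trans_lt hup).trans_le ?_
    apply mul_le_mul_of_nonneg_left _ hε0.le
    exact mul_le_mul_of_nonneg_left h6 hlN.le
  have h8 : ε * (((l * N : ℕ) : ℝ) * (Dd * (ball hSf N).card)) =
      ((ball hSf N).card : ℝ) * (N / (c3 : ℝ) ^ p) * (Dd / (Dd + 1)) := by
    rw [hε]; push_cast
    have hDd0 : (0 : ℝ) ≤ Dd := Nat.cast_nonneg _
    field_simp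
  rw [h8] at h7
  have h9 : (Dd : ℝ) / (Dd + 1) ≤ 1 := by
    have hDd0 : (0 : ℝ) ≤ Dd := Nat.cast_nonneg _
    rw [div_le_one (by positivity)]
    linarith
  have h10 : ((ball hSf N).card : ℝ) * (N / (c3 : ℝ) ^ p) * (Dd / (Dd + 1)) ≤
      ((ball hSf N).card : ℝ) * (N / (c3 : ℝ) ^ p) :=
    mul_le_of_le_one_right (by positivity) h9
  linarith

/-! ### Conjugation on the abelian term -/

/-- the `i0`-th term, in coordinates -/
def sub (i0 : ℕ) : Submodule ℝ (Fin m → ℝ) where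
  carrier := {v | ∀ j, E.w j < i0 → v j = 0}
  zero_mem' := by intro j _; rfl
  add_mem' := by
    intro v w hv hw j hj
    simp [hv j hj, hw j hj]
  smul_mem' := by
    intro c v hv j hj
    simp [hv j hj]

lemma mem_sub {i0 : ℕ} {v : Fin m → ℝ} : v ∈ E.sub i0 ↔ ∀ j, E.w j < i0 → v j = 0 := Iff.rfl

lemma e_mem_sub {i0 : ℕ} {g : G} (hg : E.Lv i0 g) : E.e g ∈ E.sub i0 := hg

lemma lv_symm {i0 : ℕ} (v : E.sub i0) : E.Lv i0 (E.e.symm v.1) := by
  intro j hj
  rw [Homeomorph.apply_symm_apply]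
  exact v.2 j hj

variable {i0 : ℕ} (hi0 : 1 ≤ i0) (hab : ∀ a b : G, E.Lv i0 a → E.Lv i0 b → a * b = b * a)

include hab in
lemma e_mul_ab {a b : G} (ha : E.Lv i0 a) (hb : E.Lv i0 b) : E.e (a * b) = E.e a + E.e b :=
  E.e_mul_of_commute (hab a b ha hb)

include hab in
lemma symm_add_ab (v w : E.sub i0) :
    E.e.symm (v.1 + w.1) = E.e.symm v.1 * E.e.symm w.1 := by
  apply E.e.injective
  rw [E.e_mul_ab hab (E.lv_symm v) (E.lv_symm w)]
  simp

lemma lv_conj' (hi0 : 1 ≤ i0) {a : G} (ha : E.Lv i0 a) (g : G) : E.Lv i0 (g⁻¹ * a * g) := by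
  have := E.lv_conj hi0 ha g⁻¹
  rwa [inv_inv] at this

/-- conjugation, as a linear map of the coordinates -/
noncomputable def conjL (hi0 : 1 ≤ i0)
    (hab : ∀ a b : G, E.Lv i0 a → E.Lv i0 b → a * b = b * a) (g : G) :
    E.sub i0 →ₗ[ℝ] E.sub i0 where
  toFun v := ⟨E.e (g⁻¹ * E.e.symm v.1 * g), E.e_mem_sub (E.lv_conj' hi0 (E.lv_symm v) g)⟩
  map_add' v w := by
    apply Subtype.ext
    simp only [Submodule.coe_add]
    rw [E.symm_add_ab hab]
    have h1 : g⁻¹ * (E.e.symm v.1 * E.e.symm w.1) * g =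
        (g⁻¹ * E.e.symm v.1 * g) * (g⁻¹ * E.e.symm w.1 * g) := by group
    rw [h1, E.e_mul_ab hab (E.lv_conj' hi0 (E.lv_symm v) g) (E.lv_conj' hi0 (E.lv_symm w) g)]
  map_smul' c v := by
    apply Subtype.ext
    simp only [Submodule.coe_smul, RingHom.id_apply]
    rw [E.e_symm_pw]
    have h1 : E.PolyCurve (fun t => g⁻¹ * E.pw (E.e.symm v.1) t * g) :=
      ((E.polyCurve_const g⁻¹).mul (E.polyCurve_pw _)).mul (E.polyCurve_const g)
    have h2 : E.PolyCurve (fun t => E.pw (g⁻¹ * E.e.symm v.1 * g) t) := E.polyCurve_pw _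
    have h3 := h1.eq_of_nat h2 (fun n => by
      rw [E.pw_nat, E.pw_nat]
      have := conj_pow (i := n) (a := g⁻¹) (b := E.e.symm v.1)
      rw [inv_inv] at this
      exact this.symm) c
    rw [h3, E.e_pw]

lemma conjL_apply (g : G) (v : E.sub i0) :
    ((E.conjL hi0 hab g v : E.sub i0) : Fin m → ℝ) = E.e (g⁻¹ * E.e.symm v.1 * g) := rfl

end NilCoords

end BE6F
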