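import Pool.Agent.BE6F.Coord

/-!
# Polynomial growth of groups quasi-isometric to a group with exponential coordinates
-/

set_option autoImplicit false

open Filter Topology
open scoped Pointwise

namespace BE6F

/-- polynomially bounded sequences of natural numbers -/
def PolyBdd (u : ℕ → ℕ) : Prop := ∃ C d : ℕ, ∀ n, u n ≤ C * (n + 1) ^ d

lemma PolyBdd.const (c : ℕ) : PolyBdd (fun _ => c) := ⟨c, 0, fun n => by simp⟩

lemma PolyBdd.id : PolyBdd (fun n => n) := ⟨1, 1, fun n => by simp⟩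

lemma PolyBdd.mono {u v : ℕ → ℕ} (h : PolyBdd v) (huv : ∀ n, u n ≤ v n) : PolyBdd u := by
  obtain ⟨C, d, hC⟩ := h
  exact ⟨C, d, fun n => (huv n).trans (hC n)⟩

lemma PolyBdd.add {u v : ℕ → ℕ} (hu : PolyBdd u) (hv : PolyBdd v) :
    PolyBdd (fun n => u n + v n) := by
  obtain ⟨C, d, hC⟩ := hu
  obtain ⟨C', d', hC'⟩ := hv
  refine ⟨C + C', d + d', fun n => ?_⟩
  have h1 : (n + 1) ^ d ≤ (n + 1) ^ (d + d') := Nat.pow_le_pow_right (by omega) (by omega)
  have h2 : (n + 1) ^ d' ≤ (n + 1) ^ (d + d') := Nat.pow_le_pow_right (by omega) (by omega)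
  calc u n + v n ≤ C * (n + 1) ^ d + C' * (n + 1) ^ d' := Nat.add_le_add (hC n) (hC' n)
    _ ≤ C * (n + 1) ^ (d + d') + C' * (n + 1) ^ (d + d') :=
        Nat.add_le_add (Nat.mul_le_mul_left _ h1) (Nat.mul_le_mul_left _ h2)
    _ = (C + C') * (n + 1) ^ (d + d') := by ring

lemma PolyBdd.mul {u v : ℕ → ℕ} (hu : PolyBdd u) (hv : PolyBdd v) :
    PolyBdd (fun n => u n * v n) := by
  obtain ⟨C, d, hC⟩ := hu
  obtain ⟨C', d', hC'⟩ := hv
  refine ⟨C * C', d + d', fun n => ?_⟩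
  calc u n * v n ≤ (C * (n + 1) ^ d) * (C' * (n + 1) ^ d') := Nat.mul_le_mul (hC n) (hC' n)
    _ = C * C' * (n + 1) ^ (d + d') := by rw [pow_add]; ring

lemma PolyBdd.pow {u : ℕ → ℕ} (hu : PolyBdd u) (k : ℕ) : PolyBdd (fun n => u n ^ k) := by
  induction k with
  | zero => simpa using PolyBdd.const 1
  | succ k ih => simpa [pow_succ] using ih.mul hu

lemma PolyBdd.comp {u v : ℕ → ℕ} (hv : PolyBdd v) (hu : PolyBdd u) :
    PolyBdd (fun n => v (u n)) := by
  obtain ⟨C, d, hC⟩ := hv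
  exact ((PolyBdd.const C).mul ((hu.add (PolyBdd.const 1)).pow d)).mono (fun n => hC (u n))

lemma PolyBdd.sum {ι : Type} (s : Finset ι) (u : ι → ℕ → ℕ) (hu : ∀ i, PolyBdd (u i)) :
    PolyBdd (fun n => ∑ i ∈ s, u i n) := by
  classical
  induction s using Finset.induction_on with
  | empty => simpa using PolyBdd.const 0
  | insert a s ha ih =>
    simp only [Finset.sum_insert ha]
    exact (hu a).add ih

lemma PolyBdd.sum_range {u : ℕ → ℕ} (hu : PolyBdd u) :
    PolyBdd (fun n => ∑ l ∈ Finset.range n, u l) := by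
  obtain ⟨C, d, hC⟩ := hu
  refine PolyBdd.mono (v := fun n => n * (C * (n + 1) ^ d)) ?_ (fun n => ?_)
  · exact PolyBdd.id.mul ((PolyBdd.const C).mul ((PolyBdd.id.add (PolyBdd.const 1)).pow d))
  · calc ∑ l ∈ Finset.range n, u l ≤ ∑ l ∈ Finset.range n, C * (n + 1) ^ d := by
          apply Finset.sum_le_sum
          intro l hl
          refine (hC l).trans (Nat.mul_le_mul_left _ (Nat.pow_le_pow_left ?_ _))
          have := Finset.mem_range.mp hl
          omega
      _ = n * (C * (n + 1) ^ d) := by simp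

/-- size and Lipschitz bounds for polynomials -/
lemma mvpoly_bound {σ : Type} (P : MvPolynomial σ ℝ) :
    ∃ C d : ℕ, ∀ (N : ℕ) (x : σ → ℝ), (∀ j, |x j| ≤ N) →
      |MvPolynomial.eval x P| ≤ C * ((N : ℝ) + 1) ^ d := by
  induction P using MvPolynomial.induction_on with
  | C a =>
    obtain ⟨c, hc⟩ := exists_nat_ge |a|
    exact ⟨c, 0, fun N x _ => by simpa using hc⟩
  | add p q hp hq =>
    obtain ⟨C, d, hC⟩ := hp
    obtain ⟨C', d', hC'⟩ := hq
    refine ⟨C + C', d + d', fun N x hx => ?_⟩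
    have hN : (1 : ℝ) ≤ (N : ℝ) + 1 := by
      have : (0 : ℝ) ≤ N := Nat.cast_nonneg N
      linarith
    have h1 : ((N : ℝ) + 1) ^ d ≤ ((N : ℝ) + 1) ^ (d + d') := pow_le_pow_right₀ hN (by omega)
    have h2 : ((N : ℝ) + 1) ^ d' ≤ ((N : ℝ) + 1) ^ (d + d') := pow_le_pow_right₀ hN (by omega)
    rw [map_add]
    refine (abs_add_le _ _).trans ?_
    have h3 := hC N x hx
    have h4 := hC' N x hx
    push_cast
    have h5 : (C : ℝ) * ((N : ℝ) + 1) ^ d ≤ C * ((N : ℝ) + 1) ^ (d + d') :=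
      mul_le_mul_of_nonneg_left h1 (Nat.cast_nonneg C)
    have h6 : (C' : ℝ) * ((N : ℝ) + 1) ^ d' ≤ C' * ((N : ℝ) + 1) ^ (d + d') :=
      mul_le_mul_of_nonneg_left h2 (Nat.cast_nonneg C')
    linarith
  | mul_X p j hp =>
    obtain ⟨C, d, hC⟩ := hp
    refine ⟨C, d + 1, fun N x hx => ?_⟩
    rw [map_mul, MvPolynomial.eval_X, abs_mul, pow_succ]
    have h1 := hC N x hx
    have h2 := hx j
    have hN : (0 : ℝ) ≤ N := Nat.cast_nonneg N
    calc |MvPolynomial.eval x p| * |x j| ≤ (C * ((N : ℝ) + 1) ^ d) * ((N : ℝ) + 1) := by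
          apply mul_le_mul h1 (by linarith) (abs_nonneg _) (by positivity)
      _ = C * (((N : ℝ) + 1) ^ d * ((N : ℝ) + 1)) := by ring

lemma mvpoly_lip {σ : Type} (P : MvPolynomial σ ℝ) :
    ∃ C d : ℕ, ∀ (N : ℕ) (x y : σ → ℝ) (δ : ℝ), 0 ≤ δ → (∀ j, |x j| ≤ N) → (∀ j, |y j| ≤ N) →
      (∀ j, |x j - y j| ≤ δ) →
      |MvPolynomial.eval x P - MvPolynomial.eval y P| ≤ C * ((N : ℝ) + 1) ^ d * δ := by
  induction P using MvPolynomial.induction_on with
  | C a =>
    exact ⟨0, 0, fun N x y δ hδ _ _ _ => by simp⟩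
  | add p q hp hq =>
    obtain ⟨C, d, hC⟩ := hp
    obtain ⟨C', d', hC'⟩ := hq
    refine ⟨C + C', d + d', fun N x y δ hδ hx hy hxy => ?_⟩
    have hN : (1 : ℝ) ≤ (N : ℝ) + 1 := by
      have : (0 : ℝ) ≤ N := Nat.cast_nonneg N
      linarith
    have h1 : ((N : ℝ) + 1) ^ d ≤ ((N : ℝ) + 1) ^ (d + d') := pow_le_pow_right₀ hN (by omega)
    have h2 : ((N : ℝ) + 1) ^ d' ≤ ((N : ℝ) + 1) ^ (d + d') := pow_le_pow_right₀ hN (by omega)
    have h3 := hC N x y δ hδ hx hy hxy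
    have h4 := hC' N x y δ hδ hx hy hxy
    have h5 : (C : ℝ) * ((N : ℝ) + 1) ^ d * δ ≤ C * ((N : ℝ) + 1) ^ (d + d') * δ := by
      gcongr
    have h6 : (C' : ℝ) * ((N : ℝ) + 1) ^ d' * δ ≤ C' * ((N : ℝ) + 1) ^ (d + d') * δ := by
      gcongr
    rw [map_add, map_add]
    have h7 : MvPolynomial.eval x p + MvPolynomial.eval x q -
        (MvPolynomial.eval y p + MvPolynomial.eval y q) =
        (MvPolynomial.eval x p - MvPolynomial.eval y p) +
        (MvPolynomial.eval x q - MvPolynomial.eval y q) := by ring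
    rw [h7]
    refine (abs_add_le _ _).trans ?_
    push_cast
    have h8 : ((C : ℝ) + C') * ((N : ℝ) + 1) ^ (d + d') * δ =
      C * ((N : ℝ) + 1) ^ (d + d') * δ + C' * ((N : ℝ) + 1) ^ (d + d') * δ := by ring
    rw [h8]
    linarith
  | mul_X p j hp =>
    obtain ⟨C, d, hC⟩ := hp
    obtain ⟨C', d', hC'⟩ := mvpoly_bound p
    refine ⟨C + C', d + d' + 1, fun N x y δ hδ hx hy hxy => ?_⟩
    have hN0 : (0 : ℝ) ≤ N := Nat.cast_nonneg N
    have hN : (1 : ℝ) ≤ (N : ℝ) + 1 := by linarith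
    have h1 := hC N x y δ hδ hx hy hxy
    have h2 := hC' N y hy
    rw [map_mul, map_mul, MvPolynomial.eval_X, MvPolynomial.eval_X]
    have h3 : MvPolynomial.eval x p * x j - MvPolynomial.eval y p * y j =
      (MvPolynomial.eval x p - MvPolynomial.eval y p) * x j +
        MvPolynomial.eval y p * (x j - y j) := by ring
    rw [h3]
    refine (abs_add_le _ _).trans ?_
    rw [abs_mul, abs_mul]
    have h4 : |MvPolynomial.eval x p - MvPolynomial.eval y p| * |x j| ≤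
        (C * ((N : ℝ) + 1) ^ d * δ) * ((N : ℝ) + 1) :=
      mul_le_mul h1 ((hx j).trans (by linarith)) (abs_nonneg _) (by positivity)
    have h5 : |MvPolynomial.eval y p| * |x j - y j| ≤ (C' * ((N : ℝ) + 1) ^ d') * δ :=
      mul_le_mul h2 (hxy j) (abs_nonneg _) (by positivity)
    have h6 : ((N : ℝ) + 1) ^ (d + 1) ≤ ((N : ℝ) + 1) ^ (d + d' + 1) :=
      pow_le_pow_right₀ hN (by omega)
    have h7 : ((N : ℝ) + 1) ^ d' ≤ ((N : ℝ) + 1) ^ (d + d' + 1) :=
      pow_le_pow_right₀ hN (by omega)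
    have h8 : (C * ((N : ℝ) + 1) ^ d * δ) * ((N : ℝ) + 1) ≤
        C * ((N : ℝ) + 1) ^ (d + d' + 1) * δ := by
      calc (C * ((N : ℝ) + 1) ^ d * δ) * ((N : ℝ) + 1) = C * ((N : ℝ) + 1) ^ (d + 1) * δ := by
            rw [pow_succ]; ring
        _ ≤ _ := by gcongr
    have h9 : (C' * ((N : ℝ) + 1) ^ d') * δ ≤ C' * ((N : ℝ) + 1) ^ (d + d' + 1) * δ := by
      gcongr
    push_cast
    have h10 : ((C : ℝ) + C') * ((N : ℝ) + 1) ^ (d + d' + 1) * δ =
      C * ((N : ℝ) + 1) ^ (d + d' + 1) * δ + C' * ((N : ℝ) + 1) ^ (d + d' + 1) * δ := by ring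
    rw [h10]
    linarith

namespace ExpCoords

variable {m : ℕ} {G : Type} [Group G] [TopologicalSpace G] (E : ExpCoords m G)

lemma exists_bound {K : Set G} (hK : IsCompact K) : ∃ c : ℕ, ∀ g ∈ K, ∀ i, |E.e g i| ≤ c := by
  have h1 : IsCompact (E.e '' K) := hK.image E.e.continuous
  obtain ⟨C, hC⟩ := h1.isBounded.exists_norm_le
  obtain ⟨c, hc⟩ := exists_nat_ge C
  refine ⟨c, fun g hg i => ?_⟩
  have := hC _ ⟨g, hg, rfl⟩
  exact ((norm_le_pi_norm (E.e g) i).trans this).trans hc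

/-- **Coordinates grow polynomially**: on `K ^ n` every coordinate is bounded by a polynomial
in `n`. -/
theorem coord_growth {K : Set G} (hK : IsCompact K) (i : Fin m) :
    ∃ u : ℕ → ℕ, PolyBdd u ∧ ∀ n, ∀ g ∈ K ^ n, |E.e g i| ≤ u n := by
  induction i using WellFoundedLT.induction with
  | ind i ih =>
  obtain ⟨c, hc⟩ := E.exists_bound hK
  have ih' : ∀ j : {j : Fin m // j < i}, ∃ u : ℕ → ℕ, PolyBdd u ∧
      ∀ n, ∀ g ∈ K ^ n, |E.e g j.1| ≤ u n := fun j => ih j.1 j.2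
  choose u hu hb using ih'
  obtain ⟨C, d, hC⟩ := mvpoly_bound (E.P i)
  set N : ℕ → ℕ := fun n => (∑ j, u j n) + c with hN
  have hNp : PolyBdd N := (PolyBdd.sum Finset.univ u hu).add (PolyBdd.const c)
  set w : ℕ → ℕ := fun n => c + C * (N n + 1) ^ d with hw
  have hwp : PolyBdd w := (PolyBdd.const c).add
    ((PolyBdd.const C).mul ((hNp.add (PolyBdd.const 1)).pow d))
  refine ⟨fun n => ∑ l ∈ Finset.range n, w l, hwp.sum_range, fun n => ?_⟩
  induction n with
  | zero =>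
    intro g hg
    rw [pow_zero, Set.mem_one] at hg
    simp [hg, E.e_one]
  | succ n ihn =>
    intro g hg
    rw [pow_succ] at hg
    obtain ⟨g', hg', k, hk, rfl⟩ := hg
    simp only
    rw [E.mul_apply, Finset.sum_range_succ]
    have h1 := ihn g' hg'
    have h2 := hc k hk i
    have h3 := hC (N n) (Sum.elim (fun j => E.e g' j.1) (fun j => E.e k j.1)) (by
      rintro (j | j)
      · simp only [Sum.elim_inl, hN]
        refine (hb j n g' hg').trans ?_
        have h4 : u j n ≤ ∑ j, u j n :=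
          Finset.single_le_sum (f := fun j => u j n) (fun _ _ => Nat.zero_le _)
            (Finset.mem_univ j)
        exact_mod_cast h4.trans (Nat.le_add_right _ _)
      · simp only [Sum.elim_inr, hN]
        refine (hc k hk j.1).trans ?_
        exact_mod_cast Nat.le_add_left _ _)
    have h4 : |E.e g' i + E.e k i + MvPolynomial.eval
        (Sum.elim (fun j => E.e g' j.1) (fun j => E.e k j.1)) (E.P i)| ≤
        |E.e g' i| + |E.e k i| + |MvPolynomial.eval
        (Sum.elim (fun j => E.e g' j.1) (fun j => E.e k j.1)) (E.P i)| :=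
      (abs_add_le _ _).trans (by gcongr; exact abs_add_le _ _)
    refine h4.trans ?_
    have hwn : (w n : ℝ) = c + C * ((N n : ℝ) + 1) ^ d := by simp only [hw]; push_cast; ring
    push_cast at h1 ⊢
    rw [hwn]
    linarith

/-- **Separation**: points whose coordinates are polynomially close differ by a small element. -/
theorem coord_sep (i : Fin m) : ∃ C d : ℕ, ∀ (N : ℕ) (g h : G) (δ : ℝ), 0 ≤ δ →
    (∀ j, |E.e g j| ≤ N) → (∀ j, |E.e h j| ≤ N) → (∀ j, |E.e g j - E.e h j| ≤ δ) →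
    |E.e (g⁻¹ * h) i| ≤ C * ((N : ℝ) + 1) ^ d * δ := by
  obtain ⟨C, d, hC⟩ := mvpoly_lip (E.P i)
  refine ⟨C + 1, d, fun N g h δ hδ hg hh hgh => ?_⟩
  have hN0 : (0 : ℝ) ≤ N := Nat.cast_nonneg N
  have hN : (1 : ℝ) ≤ (N : ℝ) + 1 := by linarith
  have h1 := E.mul_apply g⁻¹ h i
  have h2 := E.mul_apply g⁻¹ g i
  rw [inv_mul_cancel, E.e_one] at h2
  simp only [Pi.zero_apply] at h2
  rw [E.e_inv] at h1 h2
  simp only [Pi.neg_apply] at h1 h2
  have h3 := hC N (Sum.elim (fun j => - E.e g j.1) (fun j => E.e h j.1))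
    (Sum.elim (fun j => - E.e g j.1) (fun j => E.e g j.1)) δ hδ
    (by
      rintro (j | j)
      · simpa using hg j.1
      · simpa using hh j.1)
    (by
      rintro (j | j)
      · simpa using hg j.1
      · simpa using hg j.1)
    (by
      rintro (j | j)
      · simpa using hδ
      · simp only [Sum.elim_inr]
        rw [abs_sub_comm]
        exact hgh j.1)
  have h4 : E.e (g⁻¹ * h) i = (E.e h i - E.e g i) +
      (MvPolynomial.eval (Sum.elim (fun j => - E.e g j.1) (fun j => E.e h j.1)) (E.P i) -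
       MvPolynomial.eval (Sum.elim (fun j => - E.e g j.1) (fun j => E.e g j.1)) (E.P i)) := by
    linarith
  rw [h4]
  refine (abs_add_le _ _).trans ?_
  have h5 : |E.e h i - E.e g i| ≤ δ := by rw [abs_sub_comm]; exact hgh i
  have h6 : (1 : ℝ) ≤ ((N : ℝ) + 1) ^ d := one_le_pow₀ hN
  have h7 : δ ≤ ((N : ℝ) + 1) ^ d * δ := le_mul_of_one_le_left hδ h6
  push_cast
  have h8 : ((C : ℝ) + 1) * ((N : ℝ) + 1) ^ d * δ =
    C * ((N : ℝ) + 1) ^ d * δ + ((N : ℝ) + 1) ^ d * δ := by ring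
  rw [h8]
  linarith

end ExpCoords

end BE6F
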