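import Pool.Agent.BE6F.Weights

/-!
# Linear control of the image of a homomorphism
-/

set_option autoImplicit false

open Filter Topology
open scoped Pointwise commutatorElement

namespace BE6F

namespace NilCoords

variable {m : ℕ} {G : Type} [Group G] [TopologicalSpace G] (E : NilCoords m G)

/-- **Sharp growth of coordinates.** -/
theorem growth_sharp {K : Set G} (hK : IsCompact K) :
    ∃ D : ℕ, 1 ≤ D ∧ ∀ n : ℕ, 1 ≤ n → ∀ g ∈ K ^ n, ∀ i, |E.e g i| ≤ ((D : ℝ) * n) ^ E.w i := by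
  obtain ⟨c, hc⟩ := E.exists_bound hK
  have key : ∀ i, ∃ D : ℕ, 1 ≤ D ∧ ∀ n : ℕ, 1 ≤ n → ∀ g ∈ K ^ n,
      |E.e g i| ≤ ((D : ℝ) * n) ^ E.w i := by
    intro i
    induction i using WellFoundedLT.induction with
    | ind i ih =>
    have ih' : ∀ j : {j : Fin m // j < i}, ∃ D : ℕ, 1 ≤ D ∧ ∀ n : ℕ, 1 ≤ n → ∀ g ∈ K ^ n,
        |E.e g j.1| ≤ ((D : ℝ) * n) ^ E.w j.1 := fun j => ih j.1 j.2
    choose Dj hDj1 hDj using ih'
    set D0 : ℕ := ∑ j, Dj j + c + 1 with hD0
    obtain ⟨C, hC⟩ := E.mixed_bound i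
    set C' : ℕ := c + C * (D0 ^ (E.w i - 1) * D0 ^ (E.w i - 1)) with hC'
    have hD01 : (1 : ℝ) ≤ D0 := by
      have : 1 ≤ D0 := by omega
      exact_mod_cast this
    have hstep : ∀ n : ℕ, 1 ≤ n → ∀ g ∈ K ^ n, |E.e g i| ≤ ((c + C' : ℕ) : ℝ) * (n : ℝ) ^ E.w i := by
      intro n hn
      induction n, hn using Nat.le_induction with
      | base =>
        intro g hg
        rw [pow_one] at hg
        have := hc g hg i
        simp only [Nat.cast_one, one_pow, mul_one]
        push_cast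
        have h2 : (0 : ℝ) ≤ (C' : ℝ) := Nat.cast_nonneg _
        linarith
      | succ n hn ihn =>
        intro g hg
        rw [pow_succ] at hg
        obtain ⟨g', hg', k, hk, rfl⟩ := hg
        simp only
        rw [E.mul_apply]
        have hn1 : (1 : ℝ) ≤ n := by exact_mod_cast hn
        have h1 := ihn g' hg'
        have h2 := hc k hk i
        have h3 := hC ((D0 : ℝ) * n) D0 (by nlinarith) hD01
          (fun j => E.e g' j.1) (fun j => E.e k j.1)
          (by
            intro j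
            refine (hDj j n hn g' hg').trans ?_
            apply pow_le_pow_left₀ (by positivity)
            apply mul_le_mul_of_nonneg_right _ (by positivity)
            have h4 : Dj j ≤ ∑ j, Dj j :=
              Finset.single_le_sum (f := fun j => Dj j) (fun _ _ => Nat.zero_le _)
                (Finset.mem_univ j)
            have h5 : Dj j ≤ D0 := by omega
            exact_mod_cast h5)
          (by
            intro j
            refine (hc k hk j.1).trans ?_
            have h5 : (c : ℝ) ≤ D0 := by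
              have : c ≤ D0 := by omega
              exact_mod_cast this
            refine h5.trans ?_
            exact le_self_pow₀ hD01 (by have := E.w_pos j.1; omega))
        have h4 : |E.e g' i + E.e k i + MvPolynomial.eval
            (Sum.elim (fun j => E.e g' j.1) (fun j => E.e k j.1)) (E.P i)| ≤
            |E.e g' i| + |E.e k i| + |MvPolynomial.eval
            (Sum.elim (fun j => E.e g' j.1) (fun j => E.e k j.1)) (E.P i)| :=
          (abs_add_le _ _).trans (by gcongr; exact abs_add_le _ _)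
        refine h4.trans ?_
        have hpow : (1 : ℝ) ≤ (n : ℝ) ^ (E.w i - 1) := one_le_pow₀ hn1
        have h5 : |E.e k i| + |MvPolynomial.eval
            (Sum.elim (fun j => E.e g' j.1) (fun j => E.e k j.1)) (E.P i)| ≤
            (C' : ℝ) * (n : ℝ) ^ (E.w i - 1) := by
          have h6 : |E.e k i| ≤ c * (n : ℝ) ^ (E.w i - 1) := by
            refine h2.trans ?_
            have : (0 : ℝ) ≤ c := Nat.cast_nonneg _
            nlinarith
          have h7 : (C : ℝ) * (((D0 : ℝ) * n) ^ (E.w i - 1) * (D0 : ℝ) ^ (E.w i - 1)) =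
              (C * (D0 ^ (E.w i - 1) * D0 ^ (E.w i - 1))) * (n : ℝ) ^ (E.w i - 1) := by
            rw [mul_pow]; ring
          rw [h7] at h3
          have h8 : (C' : ℝ) = c + C * ((D0 : ℝ) ^ (E.w i - 1) * (D0 : ℝ) ^ (E.w i - 1)) := by
            simp only [hC']; push_cast; ring
          rw [h8]
          calc _ ≤ c * (n : ℝ) ^ (E.w i - 1) +
                (C * (D0 ^ (E.w i - 1) * D0 ^ (E.w i - 1))) * (n : ℝ) ^ (E.w i - 1) :=
                add_le_add h6 h3
            _ = _ := by ring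
        have h9 : (n : ℝ) ^ E.w i + (n : ℝ) ^ (E.w i - 1) ≤ ((n : ℝ) + 1) ^ E.w i := by
          have h10 : (n : ℝ) ^ E.w i = (n : ℝ) ^ (E.w i - 1) * n := by
            rw [← pow_succ, Nat.sub_add_cancel (E.w_pos _)]
          have h11 : ((n : ℝ) + 1) ^ E.w i = ((n : ℝ) + 1) ^ (E.w i - 1) * (n + 1) := by
            rw [← pow_succ, Nat.sub_add_cancel (E.w_pos _)]
          have h12 : (n : ℝ) ^ (E.w i - 1) ≤ ((n : ℝ) + 1) ^ (E.w i - 1) :=
            pow_le_pow_left₀ (by positivity) (by linarith) _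
          rw [h10, h11]
          nlinarith
        have hcc : (0 : ℝ) ≤ c := Nat.cast_nonneg _
        have hCC : (0 : ℝ) ≤ (C' : ℝ) := Nat.cast_nonneg _
        push_cast at h1 ⊢
        calc _ ≤ ((c : ℝ) + C') * (n : ℝ) ^ E.w i + (C' : ℝ) * (n : ℝ) ^ (E.w i - 1) := by linarith
          _ ≤ ((c : ℝ) + C') * ((n : ℝ) ^ E.w i + (n : ℝ) ^ (E.w i - 1)) := by nlinarith
          _ ≤ ((c : ℝ) + C') * ((n : ℝ) + 1) ^ E.w i :=
              mul_le_mul_of_nonneg_left h9 (by linarith)
    refine ⟨c + C' + 1, by omega, fun n hn g hg => ?_⟩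
    refine (hstep n hn g hg).trans ?_
    rw [mul_pow]
    apply mul_le_mul_of_nonneg_right _ (by positivity)
    have h1 : ((c + C' : ℕ) : ℝ) ≤ ((c + C' + 1 : ℕ) : ℝ) := by push_cast; linarith
    refine h1.trans (le_self_pow₀ ?_ ?_)
    · push_cast
      have : (0 : ℝ) ≤ (c : ℝ) + C' := by positivity
      linarith
    · have := E.w_pos i; omega
  choose D hD1 hD using key
  refine ⟨∑ i, D i + 1, by omega, fun n hn g hg i => (hD i n hn g hg).trans ?_⟩
  apply pow_le_pow_left₀ (by positivity)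
  apply mul_le_mul_of_nonneg_right _ (by positivity)
  have h4 : D i ≤ ∑ j, D j :=
    Finset.single_le_sum (f := fun j => D j) (fun _ _ => Nat.zero_le _) (Finset.mem_univ i)
  have h5 : D i ≤ ∑ i, D i + 1 := by omega
  exact_mod_cast h5

/-! ### The commutator pairing -/

/-- projection to the coordinates of weight `a` -/
noncomputable def pr (a : ℕ) : (Fin m → ℝ) →ₗ[ℝ] (Fin m → ℝ) where
  toFun v i := if E.w i = a then v i else 0
  map_add' v w := by
    funext i
    by_cases h : E.w i = a <;> simp [h]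
  map_smul' c v := by
    funext i
    by_cases h : E.w i = a <;> simp [h]

lemma pr_apply (a : ℕ) (v : Fin m → ℝ) (i : Fin m) :
    E.pr a v i = if E.w i = a then v i else 0 := rfl

lemma pr_pr (a : ℕ) (v : Fin m → ℝ) : E.pr a (E.pr a v) = E.pr a v := by
  funext i
  simp only [pr_apply]
  split_ifs <;> rfl

lemma norm_pr_le (a : ℕ) (v : Fin m → ℝ) : ‖E.pr a v‖ ≤ ‖v‖ := by
  rw [pi_norm_le_iff_of_nonneg (norm_nonneg _)]
  intro i
  rw [pr_apply]
  split_ifs
  · exact norm_le_pi_norm v i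
  · simp

/-- the weight `a` part of the coordinates -/
noncomputable def co (a : ℕ) (g : G) : Fin m → ℝ := E.pr a (E.e g)

lemma co_apply (a : ℕ) (g : G) (i : Fin m) :
    E.co a g i = if E.w i = a then E.e g i else 0 := rfl

lemma co_mul {a b b' : ℕ} {g h : G} (hg : E.Lv b g) (hh : E.Lv b' h) (hab : a < b + b') :
    E.co a (g * h) = E.co a g + E.co a h := by
  funext i
  simp only [co_apply, Pi.add_apply]
  split_ifs with h1
  · exact E.e_mul_add hg hh (by omega)
  · simp

lemma co_one (a : ℕ) : E.co a (1 : G) = 0 := by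
  funext i
  rw [co_apply, E.e_one]; simp

lemma co_inv (a : ℕ) (g : G) : E.co a g⁻¹ = - E.co a g := by
  rw [co, E.e_inv, map_neg]; rfl

lemma co_pw (a : ℕ) (g : G) (t : ℝ) : E.co a (E.pw g t) = t • E.co a g := by
  rw [co, E.e_pw, map_smul]; rfl

lemma lv_pw {a : ℕ} {g : G} (hg : E.Lv a g) (t : ℝ) : E.Lv a (E.pw g t) := by
  intro i hi
  rw [E.e_pw]; simp [hg i hi]

lemma e_conj {a : ℕ} (ha : 1 ≤ a) {z : G} (hz : E.Lv a z) (g : G) {i : Fin m}
    (hi : E.w i ≤ a) : E.e (g * z * g⁻¹) i = E.e z i := by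
  have h1 : g * z = (g * z * g⁻¹) * g := by group
  have h2 : E.e (g * z) i = E.e g i + E.e z i := E.e_mul_add (E.lv_one g) hz (by omega)
  have h3 : E.e ((g * z * g⁻¹) * g) i = E.e (g * z * g⁻¹) i + E.e g i :=
    E.e_mul_add (E.lv_conj ha hz g) (E.lv_one g) (by omega)
  rw [← h1, h2] at h3
  linarith

lemma co_conj {a b : ℕ} (hb : b ≤ a) (ha : 1 ≤ a) {z : G} (hz : E.Lv a z) (g : G) :
    E.co b (g * z * g⁻¹) = E.co b z := by
  funext i
  simp only [co_apply]
  split_ifs with h1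
  · exact E.e_conj ha hz g (by omega)
  · rfl

/-- the commutator pairing is additive in the first variable -/
lemma pair_mul_left {a : ℕ} (ha : 1 ≤ a) {g g' : G} (_hg : E.Lv a g) (hg' : E.Lv a g') (h : G)
    (hgc : E.Lv a g) :
    E.co (a + 1) ⁅g * g', h⁆ = E.co (a + 1) ⁅g, h⁆ + E.co (a + 1) ⁅g', h⁆ := by
  have h1 : ⁅g * g', h⁆ = (g * ⁅g', h⁆ * g⁻¹) * ⁅g, h⁆ := by
    simp only [commutatorElement_def]; group
  have hz' := E.lv_comm ha hg' h
  have hz := E.lv_comm ha hgc h
  rw [h1, E.co_mul (E.lv_conj (by omega) hz' g) hz (by omega), E.co_conj le_rfl (by omega) hz',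
    add_comm]

/-- the commutator pairing is additive in the second variable -/
lemma pair_mul_right {a : ℕ} (ha : 1 ≤ a) {g : G} (hg : E.Lv a g) (h h' : G) :
    E.co (a + 1) ⁅g, h * h'⁆ = E.co (a + 1) ⁅g, h⁆ + E.co (a + 1) ⁅g, h'⁆ := by
  have h1 : ⁅g, h * h'⁆ = ⁅g, h⁆ * (h * ⁅g, h'⁆ * h⁻¹) := by
    simp only [commutatorElement_def]; group
  have hz' := E.lv_comm ha hg h'
  have hz := E.lv_comm ha hg h
  rw [h1, E.co_mul hz (E.lv_conj (by omega) hz' h) (by omega), E.co_conj le_rfl (by omega) hz']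

lemma pair_deep_left {a : ℕ} {g : G} (hg : E.Lv (a + 1) g) (h : G) :
    E.co (a + 1) ⁅g, h⁆ = 0 := by
  have := E.lv_comm (by omega) hg h
  funext i
  rw [co_apply]
  split_ifs with h1
  · exact this i (by omega)
  · rfl

lemma pair_deep_right {a : ℕ} (ha : 1 ≤ a) {g : G} (hg : E.Lv a g) {h : G} (hh : E.Lv 2 h) :
    E.co (a + 1) ⁅g, h⁆ = 0 := by
  have := E.lv_comm_two ha hg hh
  funext i
  rw [co_apply]
  split_ifs with h1
  · exact this i (by omega)
  · rfl

/-- a polynomial which is linear on the naturals is linear -/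
lemma _root_.BE6F.poly_linear (p : Polynomial ℝ) (c : ℝ) (h : ∀ n : ℕ, p.eval (n : ℝ) = n * c)
    (t : ℝ) : p.eval t = t * c := by
  have hpq : p = Polynomial.X * Polynomial.C c := by
    apply Polynomial.eq_of_infinite_eval_eq
    apply Set.Infinite.mono (s := Set.range (fun n : ℕ => (n : ℝ)))
    · rintro x ⟨n, rfl⟩
      simp only [Set.mem_ofPred_eq]
      rw [h n]
      simp only [Polynomial.eval_mul, Polynomial.eval_X, Polynomial.eval_C]
    · exact Set.infinite_range_of_injective Nat.cast_injective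
  rw [hpq]
  simp only [Polynomial.eval_mul, Polynomial.eval_X, Polynomial.eval_C]

lemma pair_pw_left {a : ℕ} (ha : 1 ≤ a) {g : G} (hg : E.Lv a g) (h : G) (t : ℝ) :
    E.co (a + 1) ⁅E.pw g t, h⁆ = t • E.co (a + 1) ⁅g, h⁆ := by
  have hnat : ∀ n : ℕ, E.co (a + 1) ⁅E.pw g n, h⁆ = (n : ℝ) • E.co (a + 1) ⁅g, h⁆ := by
    intro n
    induction n with
    | zero => simp [E.pw_zero, E.co_one]
    | succ n ih =>
      rw [Nat.cast_succ, E.pw_add, E.pw_one,
        E.pair_mul_left ha (E.lv_pw hg _) hg h (E.lv_pw hg _), ih, add_smul, one_smul]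
  funext i
  by_cases hi : E.w i = a + 1
  · have hcurve : E.PolyCurve (fun s => ⁅E.pw g s, h⁆) := by
      simp only [commutatorElement_def]
      exact (((E.polyCurve_pw g).mul (E.polyCurve_const h)).mul (E.polyCurve_pw_inv g)).mul
        (E.polyCurve_const h⁻¹)
    obtain ⟨p, hp⟩ := hcurve i
    have h1 := poly_linear p (E.co (a + 1) ⁅g, h⁆ i) (fun n => by
      rw [← hp]
      have := congrFun (hnat n) i
      rw [co_apply, if_pos hi] at this
      simpa using this) t
    rw [← hp] at h1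
    rw [co_apply, if_pos hi, h1]; simp
  · simp [co_apply, hi]

lemma pair_pw_right {a : ℕ} (ha : 1 ≤ a) {g : G} (hg : E.Lv a g) (h : G) (t : ℝ) :
    E.co (a + 1) ⁅g, E.pw h t⁆ = t • E.co (a + 1) ⁅g, h⁆ := by
  have hnat : ∀ n : ℕ, E.co (a + 1) ⁅g, E.pw h n⁆ = (n : ℝ) • E.co (a + 1) ⁅g, h⁆ := by
    intro n
    induction n with
    | zero => simp [E.pw_zero, E.co_one]
    | succ n ih =>
      rw [Nat.cast_succ, E.pw_add, E.pw_one, E.pair_mul_right ha hg, ih, add_smul, one_smul]
  funext i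
  by_cases hi : E.w i = a + 1
  · have hcurve : E.PolyCurve (fun s => ⁅g, E.pw h s⁆) := by
      simp only [commutatorElement_def]
      exact (((E.polyCurve_const g).mul (E.polyCurve_pw h)).mul (E.polyCurve_const g⁻¹)).mul
        (E.polyCurve_pw_inv h)
    obtain ⟨p, hp⟩ := hcurve i
    have h1 := poly_linear p (E.co (a + 1) ⁅g, h⁆ i) (fun n => by
      rw [← hp]
      have := congrFun (hnat n) i
      rw [co_apply, if_pos hi] at this
      simpa using this) t
    rw [← hp] at h1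
    rw [co_apply, if_pos hi, h1]; simp
  · simp [co_apply, hi]

/-- the element with prescribed coordinates -/
lemma e_symm_pw (v : Fin m → ℝ) (t : ℝ) : E.e.symm (t • v) = E.pw (E.e.symm v) t := by
  simp [ExpCoords.pw]

lemma lv_symm_pr (a : ℕ) (v : Fin m → ℝ) : E.Lv a (E.e.symm (E.pr a v)) := by
  intro i hi
  rw [Homeomorph.apply_symm_apply, pr_apply, if_neg (by omega)]

variable [IsTopologicalGroup G]

/-- **Boundedness of the commutator pairing.** -/
theorem pair_bound {a : ℕ} (ha : 1 ≤ a) : ∃ C : ℕ, ∀ g h : G, E.Lv a g →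
    ‖E.co (a + 1) ⁅g, h⁆‖ ≤ C * (‖E.co a g‖ * ‖E.co 1 h‖) := by
  have hcont : Continuous (fun p : (Fin m → ℝ) × (Fin m → ℝ) =>
      E.e ⁅E.e.symm p.1, E.e.symm p.2⁆) := by
    apply E.e.continuous.comp
    simp only [commutatorElement_def]
    have h1 : Continuous (fun p : (Fin m → ℝ) × (Fin m → ℝ) => E.e.symm p.1) :=
      E.e.symm.continuous.comp continuous_fst
    have h2 : Continuous (fun p : (Fin m → ℝ) × (Fin m → ℝ) => E.e.symm p.2) :=
      E.e.symm.continuous.comp continuous_snd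
    exact ((h1.mul h2).mul h1.inv).mul h2.inv
  have hcomp : IsCompact ((Metric.closedBall (0 : Fin m → ℝ) 1) ×ˢ
      (Metric.closedBall (0 : Fin m → ℝ) 1)) :=
    (isCompact_closedBall _ _).prod (isCompact_closedBall _ _)
  obtain ⟨C0, hC0⟩ := (hcomp.image hcont).isBounded.exists_norm_le
  obtain ⟨C, hC⟩ := exists_nat_ge C0
  refine ⟨C, fun g h hg => ?_⟩
  -- replace g by its weight a part
  set u := E.co a g with hu
  set v := E.co 1 h with hv
  have hσu : E.Lv a (E.e.symm u) := E.lv_symm_pr a _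
  have hg' : E.Lv (a + 1) ((E.e.symm u)⁻¹ * g) := by
    rw [E.lv_inv_mul_iff]
    intro i hi
    rw [Homeomorph.apply_symm_apply, hu, co_apply]
    split_ifs with h1
    · rfl
    · exact (hg i (by omega)).symm
  have hh' : E.Lv 2 ((E.e.symm v)⁻¹ * h) := by
    rw [E.lv_inv_mul_iff]
    intro i hi
    rw [Homeomorph.apply_symm_apply, hv, co_apply, if_pos (by have := E.w_pos i; omega)]
  have e1 : E.co (a + 1) ⁅g, h⁆ = E.co (a + 1) ⁅E.e.symm u, E.e.symm v⁆ := by
    have h1 : g = E.e.symm u * ((E.e.symm u)⁻¹ * g) := by group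
    have h2 : h = E.e.symm v * ((E.e.symm v)⁻¹ * h) := by group
    have h3 : E.co (a + 1) ⁅g, h⁆ = E.co (a + 1) ⁅E.e.symm u, h⁆ := by
      conv_lhs => rw [h1]
      rw [E.pair_mul_left ha hσu (E.lv_mono (Nat.le_succ _) hg') h hσu,
        E.pair_deep_left hg', add_zero]
    rw [h3]
    conv_lhs => rw [h2]
    rw [E.pair_mul_right ha hσu, E.pair_deep_right ha hσu hh', add_zero]
  by_cases hu0 : u = 0
  · rw [e1, hu0, E.symm_zero]
    simp [commutatorElement_def, E.co_one]
  by_cases hv0 : v = 0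
  · rw [e1, hv0, E.symm_zero]
    simp [commutatorElement_def, E.co_one]
  have hun : 0 < ‖u‖ := norm_pos_iff.mpr hu0
  have hvn : 0 < ‖v‖ := norm_pos_iff.mpr hv0
  have e2 : E.e.symm u = E.pw (E.e.symm (‖u‖⁻¹ • u)) ‖u‖ := by
    rw [← E.e_symm_pw, smul_smul, mul_inv_cancel₀ hun.ne', one_smul]
  have e3 : E.e.symm v = E.pw (E.e.symm (‖v‖⁻¹ • v)) ‖v‖ := by
    rw [← E.e_symm_pw, smul_smul, mul_inv_cancel₀ hvn.ne', one_smul]
  have hσu' : E.Lv a (E.e.symm (‖u‖⁻¹ • u)) := by
    rw [E.e_symm_pw]; exact E.lv_pw hσu _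
  have e4 : E.co (a + 1) ⁅E.e.symm u, E.e.symm v⁆ =
      (‖u‖ * ‖v‖) • E.co (a + 1) ⁅E.e.symm (‖u‖⁻¹ • u), E.e.symm (‖v‖⁻¹ • v)⁆ := by
    rw [e2, e3, E.pair_pw_left ha hσu', E.pair_pw_right ha hσu', smul_smul]
  rw [e1, e4, norm_smul, norm_mul, norm_norm, norm_norm, mul_comm]
  apply mul_le_mul_of_nonneg_right _ (by positivity)
  refine (E.norm_pr_le _ _).trans ?_
  refine (hC0 _ ⟨(‖u‖⁻¹ • u, ‖v‖⁻¹ • v), ⟨?_, ?_⟩, rfl⟩).trans hC
  · rw [mem_closedBall_zero_iff, norm_smul, norm_inv, norm_norm, inv_mul_cancel₀ hun.ne']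
  · rw [mem_closedBall_zero_iff, norm_smul, norm_inv, norm_norm, inv_mul_cancel₀ hvn.ne']

end NilCoords

end BE6F
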