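import Pool.Agent.BE6F.Core

/-!
# Quasi-isometries to lattice-free groups are uniformly far from multiplicative
-/

set_option autoImplicit false

open Filter Topology
open scoped Pointwise

namespace BE6F

variable {m : ℕ} {G : Type} [Group G] [TopologicalSpace G] [IsTopologicalGroup G]

/-- the uniform statement -/
theorem far_from_multiplicative (E : ExpCoords m G)
    (hG : ∀ H : Subgroup G, DiscreteTopology H → ¬ CompactSpace (G ⧸ H))
    (K : Set G) (hK : IsCompact K) (hK1 : K ∈ 𝓝 (1 : G)) (hKi : K⁻¹ = K) (A B C k : ℕ) :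
    ∃ R : ℕ, ∀ (Γ : Type) [Group Γ] (S : Set Γ) (f : Γ → G),
      S.Finite → S.ncard ≤ k → (1 : Γ) ∈ S → S⁻¹ = S → (∀ x : Γ, ∃ n : ℕ, x ∈ S ^ n) →
      IsQI S K A B f →
      ∀ x : Γ, ∃ y ∈ S ^ R, ∃ z ∈ S ^ R,
        (f (x * y * z))⁻¹ * f (x * y) * (f x)⁻¹ * f (x * z) ∉ K ^ C := by
  classical
  by_contra hcon
  push Not at hcon
  choose Γ inst S f hfin hcard h1 hinv hgen hqi x hx using hcon
  have : T2Space G := E.e.symm.t2Space
  have h1K : (1 : G) ∈ K := mem_of_mem_nhds hK1
  have hex : ∀ h : G, ∃ n, h ∈ K ^ n := (hqi 0).exhaust (hgen 0) hKi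
  -- enumerate the generators
  set s : ∀ R, Fin k → Γ R := fun R j => ((hfin R).toFinset.toList).getD j 1 with hs
  have hsmem : ∀ R j, s R j ∈ S R := by
    intro R j
    simp only [hs]
    by_cases hj : (j : ℕ) < ((hfin R).toFinset.toList).length
    · rw [List.getD_eq_getElem _ _ hj]
      have := List.getElem_mem hj
      rw [Finset.mem_toList, Set.Finite.mem_toFinset] at this
      exact this
    · rw [List.getD_eq_default _ _ (not_lt.mp hj)]
      exact h1 R
  have hssurj : ∀ R, ∀ y ∈ S R, ∃ j, s R j = y := by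
    intro R y hy
    have hy' : y ∈ (hfin R).toFinset.toList := by
      rw [Finset.mem_toList, Set.Finite.mem_toFinset]; exact hy
    obtain ⟨i, hi, hiy⟩ := List.getElem_of_mem hy'
    have hlen : ((hfin R).toFinset.toList).length ≤ k := by
      rw [Finset.length_toList, ← Set.ncard_eq_toFinset_card (S R) (hfin R)]
      exact hcard R
    refine ⟨⟨i, lt_of_lt_of_le hi hlen⟩, ?_⟩
    simp only [hs]
    rw [List.getD_eq_getElem _ _ hi]
    exact hiy
  set π : ∀ R, FreeGroup (Fin k) →* Γ R := fun R => FreeGroup.lift (s R) with hπ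
  set L : Set (FreeGroup (Fin k)) := Set.range FreeGroup.of with hL
  have hLfin : L.Finite := Set.finite_range _
  have hπL : ∀ R, π R '' L = S R := by
    intro R
    ext y
    constructor
    · rintro ⟨_, ⟨j, rfl⟩, rfl⟩
      simp only [hπ, FreeGroup.lift_apply_of]
      exact hsmem R j
    · intro hy
      obtain ⟨j, hj⟩ := hssurj R y hy
      exact ⟨FreeGroup.of j, ⟨j, rfl⟩, by simp only [hπ, FreeGroup.lift_apply_of]; exact hj⟩
  have hπLn : ∀ R n, π R '' (L ^ n) = S R ^ n := by
    intro R n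
    rw [Set.image_pow, hπL]
  -- lengths
  have hlen : ∀ w : FreeGroup (Fin k), ∃ l : ℕ, ∀ R, π R w ∈ S R ^ l := by
    intro w
    induction w using FreeGroup.induction_on with
    | C1 => exact ⟨0, fun R => by simp⟩
    | of j => exact ⟨1, fun R => by
        simp only [hπ, FreeGroup.lift_apply_of, pow_one]; exact hsmem R j⟩
    | inv_of j _ => exact ⟨1, fun R => by
        rw [map_inv, pow_one, ← hinv R]
        simp only [hπ, FreeGroup.lift_apply_of]
        exact Set.inv_mem_inv.mpr (hsmem R j)⟩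
    | mul u v hu hv =>
      obtain ⟨a, ha⟩ := hu
      obtain ⟨b, hb⟩ := hv
      exact ⟨a + b, fun R => by rw [map_mul]; exact mul_mem_pow (ha R) (hb R)⟩
  set F : ∀ _ : ℕ, FreeGroup (Fin k) → G :=
    fun R w => (f R (x R))⁻¹ * f R (x R * π R w) with hF
  have hFdiff : ∀ R v w, (F R v)⁻¹ * F R w = (f R (x R * π R v))⁻¹ * f R (x R * π R w) := by
    intro R v w
    simp only [hF]; group
  set 𝒰 : Ultrafilter ℕ := hyperfilter ℕ with h𝒰
  have hatTop : (𝒰 : Filter ℕ) ≤ atTop := by
    rw [← Nat.cofinite_eq_atTop]; exact hyperfilter_le_cofinite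
  have hlim : ∀ w, ∃ v, Tendsto (fun R => F R w) 𝒰 (𝓝 v) := by
    intro w
    obtain ⟨l, hl⟩ := hlen w
    obtain ⟨v, _, hv⟩ := exists_lim (isCompact_pow hK (A * l + B)) (fun R => F R w) (by
      intro R
      simp only [hF]
      apply (hqi R).up
      rw [inv_mul_cancel_left]
      exact hl R) 𝒰
    exact ⟨v, hv⟩
  choose gt hgt using hlim
  -- the limit group
  set N : Subgroup (FreeGroup (Fin k)) :=
    { carrier := {w | ∀ᶠ R in (𝒰 : Filter ℕ), π R w = 1}
      one_mem' := by simp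
      mul_mem' := by
        intro v w hv hw
        simp only [Set.mem_ofPred_eq] at hv hw ⊢
        filter_upwards [hv, hw] with R h2 h3
        rw [map_mul, h2, h3, one_mul]
      inv_mem' := by
        intro v hv
        simp only [Set.mem_ofPred_eq] at hv ⊢
        filter_upwards [hv] with R h2
        rw [map_inv, h2, inv_one] } with hN
  have hNmem : ∀ w, w ∈ N ↔ ∀ᶠ R in (𝒰 : Filter ℕ), π R w = 1 := fun w => Iff.rfl
  have hNn : N.Normal := by
    constructor
    intro w hw v
    rw [hNmem] at hw ⊢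
    filter_upwards [hw] with R h2
    rw [map_mul, map_mul, h2, map_inv]; simp
  have hmk : ∀ v w : FreeGroup (Fin k), (QuotientGroup.mk v : FreeGroup (Fin k) ⧸ N) =
      QuotientGroup.mk w ↔ ∀ᶠ R in (𝒰 : Filter ℕ), π R v = π R w := by
    intro v w
    rw [QuotientGroup.eq, hNmem]
    constructor
    · intro h
      filter_upwards [h] with R h2
      rw [map_mul, map_inv, inv_mul_eq_one] at h2
      exact h2
    · intro h
      filter_upwards [h] with R h2
      rw [map_mul, map_inv, inv_mul_eq_one]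
      exact h2
  set Q := FreeGroup (Fin k) ⧸ N with hQ
  set mk : FreeGroup (Fin k) →* Q := QuotientGroup.mk' N with hmkdef
  have hmk' : ∀ v w, mk v = mk w ↔ ∀ᶠ R in (𝒰 : Filter ℕ), π R v = π R w := hmk
  have hmksurj : Function.Surjective mk := QuotientGroup.mk'_surjective N
  choose out hout using hmksurj
  set g : Q → G := fun q => gt (out q) with hgdef
  have hg : ∀ w, Tendsto (fun R => F R w) 𝒰 (𝓝 (g (mk w))) := by
    intro w
    have h2 := (hmk' (out (mk w)) w).mp (hout (mk w))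
    apply (hgt (out (mk w))).congr'
    filter_upwards [h2] with R h3
    simp only [hF, h3]
  set SQ : Set Q := mk '' L with hSQ
  have hSQn : ∀ n, mk '' (L ^ n) = SQ ^ n := fun n => by rw [Set.image_pow]
  -- ultrafilter pigeonhole on words
  have hpig : ∀ (n : ℕ) (y : ∀ R, Γ R), (∀ᶠ R in (𝒰 : Filter ℕ), y R ∈ S R ^ n) →
      ∃ v ∈ L ^ n, ∀ᶠ R in (𝒰 : Filter ℕ), π R v = y R := by
    intro n y hy
    have h2 : (⋃ v ∈ L ^ n, {R | π R v = y R}) ∈ 𝒰 := by
      have : {R | y R ∈ S R ^ n} ∈ 𝒰 := hy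
      refine Filter.mem_of_superset this ?_
      intro R hR
      simp only [Set.mem_ofPred_eq] at hR
      rw [← hπLn] at hR
      obtain ⟨v, hv, hvy⟩ := hR
      exact Set.mem_iUnion₂.mpr ⟨v, hv, hvy⟩
    rw [Ultrafilter.finite_biUnion_mem_iff (finite_pow hLfin n)] at h2
    obtain ⟨v, hv, hv2⟩ := h2
    exact ⟨v, hv, hv2⟩
  have hin : ∀ w n, (∀ᶠ R in (𝒰 : Filter ℕ), π R w ∈ S R ^ n) → mk w ∈ SQ ^ n := by
    intro w n hw
    obtain ⟨v, hv, hv2⟩ := hpig n (fun R => π R w) hw
    rw [← hSQn]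
    exact ⟨v, hv, (hmk' v w).mpr hv2⟩
  have hout2 : ∀ w n, mk w ∈ SQ ^ n → ∀ᶠ R in (𝒰 : Filter ℕ), π R w ∈ S R ^ n := by
    intro w n hw
    rw [← hSQn] at hw
    obtain ⟨v, hv, hvw⟩ := hw
    filter_upwards [(hmk' v w).mp hvw] with R h2
    rw [← h2, ← hπLn]
    exact ⟨v, hv, rfl⟩
  have hSQfin : SQ.Finite := hLfin.image _
  have hSQ1 : (1 : Q) ∈ SQ := by
    have := hin 1 1 (Eventually.of_forall (fun R => by rw [map_one, pow_one]; exact h1 R))
    rwa [map_one, pow_one] at this
  have hSQgen : ∀ q : Q, ∃ n : ℕ, q ∈ SQ ^ n := by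
    intro q
    obtain ⟨l, hl⟩ := hlen (out q)
    refine ⟨l, ?_⟩
    have := hin (out q) l (Eventually.of_forall hl)
    rwa [hout] at this
  have hclosed : ∀ n, IsClosed (K ^ n) := fun n => (isCompact_pow hK n).isClosed
  have hgqi : IsQI SQ K A (A + B) g := by
    constructor
    · intro q q' n hqq
      obtain ⟨v, rfl⟩ : ∃ v, mk v = q := ⟨out q, hout q⟩
      obtain ⟨w, rfl⟩ : ∃ w, mk w = q' := ⟨out q', hout q'⟩
      rw [← map_inv, ← map_mul] at hqq
      have h2 := hout2 _ _ hqq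
      apply mem_pow_mono h1K (show A * n + B ≤ A * n + (A + B) by omega)
      apply (hclosed _).mem_of_tendsto (((hg v).inv).mul (hg w))
      filter_upwards [h2] with R h3
      rw [hFdiff]
      apply (hqi R).up
      rw [map_mul, map_inv] at h3
      have : (x R * π R v)⁻¹ * (x R * π R w) = (π R v)⁻¹ * π R w := by group
      rw [this]; exact h3
    · intro q q' n hqq
      obtain ⟨v, rfl⟩ : ∃ v, mk v = q := ⟨out q, hout q⟩
      obtain ⟨w, rfl⟩ : ∃ w, mk w = q' := ⟨out q', hout q'⟩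
      have h2 : ∀ᶠ R in (𝒰 : Filter ℕ), (F R v)⁻¹ * F R w ∈ K ^ (n + 1) := by
        apply (((hg v).inv).mul (hg w)).eventually
        exact mem_interior_iff_mem_nhds.mp (pow_subset_interior hK1 n hqq)
      rw [← map_inv, ← map_mul]
      apply hin
      filter_upwards [h2] with R h3
      rw [hFdiff] at h3
      have h4 := (hqi R).lo _ _ _ h3
      have h5 : (x R * π R v)⁻¹ * (x R * π R w) = (π R v)⁻¹ * π R w := by group
      rw [h5] at h4
      rw [map_mul, map_inv]
      have h6 : A * (n + 1) + B = A * n + (A + B) := by ring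
      rwa [h6] at h4
    · intro h
      obtain ⟨j, hj⟩ := hex h
      have h2 : ∀ R, ∃ γ, (f R γ)⁻¹ * (f R (x R) * h) ∈ K ^ B := fun R =>
        (hqi R).onto (f R (x R) * h)
      choose γ hγ using h2
      have h3 : ∀ R, (x R)⁻¹ * γ R ∈ S R ^ (A * (j + B) + B) := by
        intro R
        apply (hqi R).lo
        have h4 : (f R (x R))⁻¹ * f R (γ R) =
            h * ((f R (γ R))⁻¹ * (f R (x R) * h))⁻¹ := by group
        rw [h4]
        exact mul_mem_pow hj (inv_mem_pow hKi (hγ R))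
      obtain ⟨v, _, hv2⟩ := hpig _ (fun R => (x R)⁻¹ * γ R) (Eventually.of_forall h3)
      refine ⟨mk v, mem_pow_mono h1K (show B ≤ A + B by omega) ?_⟩
      apply (hclosed _).mem_of_tendsto (((hg v).inv).mul tendsto_const_nhds)
      filter_upwards [hv2] with R h4
      have h5 : (F R v)⁻¹ * h = (f R (γ R))⁻¹ * (f R (x R) * h) := by
        simp only [hF]
        rw [h4, mul_inv_cancel_left]; group
      rw [h5]
      exact hγ R
  have hdef : ∀ q q' : Q, (g (q * q'))⁻¹ * g q * g q' ∈ K ^ C := by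
    intro q q'
    obtain ⟨v, rfl⟩ : ∃ v, mk v = q := ⟨out q, hout q⟩
    obtain ⟨w, rfl⟩ : ∃ w, mk w = q' := ⟨out q', hout q'⟩
    rw [← map_mul]
    obtain ⟨a, ha⟩ := hlen v
    obtain ⟨b, hb⟩ := hlen w
    apply (hclosed _).mem_of_tendsto ((((hg (v * w)).inv).mul (hg v)).mul (hg w))
    have h2 : ∀ᶠ R in (𝒰 : Filter ℕ), max a b ≤ R := hatTop (eventually_ge_atTop _)
    filter_upwards [h2] with R hR
    have h3 := hx R (π R v) (mem_pow_mono (h1 R) ((le_max_left a b).trans hR) (ha R))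
      (π R w) (mem_pow_mono (h1 R) ((le_max_right a b).trans hR) (hb R))
    have h4 : (F R (v * w))⁻¹ * F R v * F R w = (f R (x R * π R v * π R w))⁻¹ *
        f R (x R * π R v) * (f R (x R))⁻¹ * f R (x R * π R w) := by
      simp only [hF]
      rw [map_mul, mul_assoc (x R)]
      group
    rw [h4]
    exact h3
  obtain ⟨H, hH1, hH2⟩ := exists_lattice E hSQfin hSQ1 hSQgen hK hK1 hKi hgqi hdef
  exact hG H hH1 hH2

end BE6F
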