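import Pool.Agent.BE6F.Final

/-!
# The main theorem on maps which are homomorphisms modulo an abelian term
-/

set_option autoImplicit false

open Filter Topology
open scoped Pointwise commutatorElement

namespace BE6F

lemma sublinear_weight {Γ : Type} [Group Γ] {S : Set Γ} (hS : S.Finite) (h1 : (1 : Γ) ∈ S)
    (p : ℕ) (ρ : Γ → ℕ)
    (hsub : Tendsto (fun n : ℕ => tot hS (fun x => (ρ x : ℝ) ^ p) n /
      (n * (ball hS n).card)) atTop (𝓝 0)) :
    Tendsto (fun n : ℕ => tot hS (fun x => ((1 : ℝ) + ρ x) ^ p) n /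
      (n * (ball hS n).card)) atTop (𝓝 0) := by
  have hpt : ∀ x, ((1 : ℝ) + ρ x) ^ p ≤ 2 ^ p * (1 + (ρ x : ℝ) ^ p) := by
    intro x
    rcases Nat.eq_zero_or_pos (ρ x) with h0 | h0
    · rw [h0]
      have h2 : (1 : ℝ) ≤ 2 ^ p := one_le_pow₀ (by norm_num)
      have h3 : (0 : ℝ) ≤ ((0 : ℕ) : ℝ) ^ p := by positivity
      simp only [Nat.cast_zero, add_zero, one_pow]
      simp only [Nat.cast_zero] at h3
      nlinarith
    · have h1 : (1 : ℝ) ≤ ρ x := by exact_mod_cast h0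
      have h2 : ((1 : ℝ) + ρ x) ^ p ≤ (2 * ρ x) ^ p := pow_le_pow_left₀ (by linarith) (by linarith) _
      rw [mul_pow] at h2
      have h3 : (0 : ℝ) < 2 ^ p := by positivity
      nlinarith
  have htot : ∀ n, tot hS (fun x => ((1 : ℝ) + ρ x) ^ p) n ≤
      2 ^ p * ((ball hS n).card + tot hS (fun x => (ρ x : ℝ) ^ p) n) := by
    intro n
    calc tot hS (fun x => ((1 : ℝ) + ρ x) ^ p) n
        ≤ ∑ x ∈ ball hS n, 2 ^ p * (1 + (ρ x : ℝ) ^ p) := Finset.sum_le_sum (fun x _ => hpt x)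
      _ = _ := by
          rw [← Finset.mul_sum, Finset.sum_add_distrib, Finset.sum_const, nsmul_eq_mul, mul_one]
          rfl
  have hlim : Tendsto (fun n : ℕ => (2 : ℝ) ^ p * (1 / (n : ℝ) +
      tot hS (fun x => (ρ x : ℝ) ^ p) n / (n * (ball hS n).card))) atTop (𝓝 0) := by
    have h2 := (tendsto_one_div_atTop_nhds_zero_nat (𝕜 := ℝ)).add hsub
    have h3 := h2.const_mul ((2 : ℝ) ^ p)
    simpa using h3
  refine squeeze_zero' (Eventually.of_forall (fun n => ?_)) ?_ hlim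
  · exact div_nonneg (Finset.sum_nonneg (fun x _ => by positivity)) (by positivity)
  · filter_upwards [eventually_ge_atTop 1] with n hn
    have hn0 : (0 : ℝ) < n := by exact_mod_cast hn
    have hc0 : (0 : ℝ) < (ball hS n).card := by
      have := (ball_nonempty hS h1 n).card_pos
      positivity
    rw [div_le_iff₀ (by positivity)]
    refine (htot n).trans (le_of_eq ?_)
    field_simp

namespace NilCoords

variable {m : ℕ} {G : Type} [Group G] [TopologicalSpace G] [IsTopologicalGroup G]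
  (E : NilCoords m G)

/-- **Main theorem.**  Let `f : Γ → G` be a quasi-isometry and `F0 : Γ → G` a map which is a
homomorphism modulo an abelian term (of depth `i0 ≥ 2`) of the lower central series.  If all the
weights are at most `p + 1` and the `p`-th moment of the distance from `f` to `F0` over balls is
`o(n)`, then `G` has a lattice. -/
theorem lattice_of_near_hom {Γ : Type} [Group Γ] {S : Set Γ} {K : Set G} {A B : ℕ} {f : Γ → G}
    (hSf : S.Finite) (h1S : (1 : Γ) ∈ S) (hSi : S⁻¹ = S) (hgen : ∀ x : Γ, ∃ n : ℕ, x ∈ S ^ n)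
    (hK : IsCompact K) (hK1 : K ∈ 𝓝 (1 : G)) (hKi : K⁻¹ = K) (hf : IsQI S K A B f)
    (p : ℕ) (hp : 1 ≤ p) (hwp : ∀ j, E.w j ≤ p + 1)
    {i0 : ℕ} (hi0 : 2 ≤ i0) (hab : ∀ a b : G, E.Lv i0 a → E.Lv i0 b → a * b = b * a)
    (F0 : Γ → G) (hF0 : ∀ x y, E.Lv i0 ((F0 (x * y))⁻¹ * F0 x * F0 y))
    (ρ : Γ → ℕ) (hρ : ∀ x, (f x)⁻¹ * F0 x ∈ K ^ ρ x)
    (hsub : Tendsto (fun n : ℕ => tot hSf (fun x => (ρ x : ℝ) ^ p) n /
      (n * (ball hSf n).card)) atTop (𝓝 0)) :
    ∃ H : Subgroup G, DiscreteTopology H ∧ CompactSpace (G ⧸ H) := by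
  classical
  have hi1 : 1 ≤ i0 := by omega
  obtain ⟨F, hF0F, hFhom, hFbd⟩ := E.exists_normalized hgen hSi hK hK1 hKi hf hi1 F0 hF0 ρ hρ
  have hgrow : PolyBdd (fun n => (ball hSf n).card) :=
    growth_of_qi E.toExpCoords hSf hgen hK hK1 hKi hf
  set W : Γ → ℝ := fun x => ((1 : ℝ) + ρ x) ^ p with hWdef
  have hW : ∀ x, 0 ≤ W x := fun x => by simp only [hWdef]; positivity
  have hsubW := sublinear_weight hSf h1S p ρ hsub
  -- the defect
  set ω : Γ → Γ → G := fun x y => (F (x * y))⁻¹ * F x * F y with hω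
  set θ : Γ → Γ → E.sub i0 := fun x y => ⟨E.e (ω x y), E.e_mem_sub (hFhom x y)⟩ with hθ
  have hassoc : ∀ x y z, (F z)⁻¹ * ω x y * F z = (ω (x * y) z)⁻¹ * ω x (y * z) * ω y z := by
    intro x y z
    simp only [hω]
    rw [mul_assoc x y z]
    group
  have hcoc : ∀ x y z, E.conjL hi1 hab (F z) (θ x y) =
      - θ (x * y) z + θ x (y * z) + θ y z := by
    intro x y z
    apply Subtype.ext
    rw [E.conjL_apply]
    simp only [hθ, Submodule.coe_add, Submodule.coe_neg, Homeomorph.symm_apply_apply]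
    rw [hassoc, E.e_mul_ab hab (E.lv_mul (E.lv_inv (hFhom _ _)) (hFhom _ _)) (hFhom _ _),
      E.e_mul_ab hab (E.lv_inv (hFhom _ _)) (hFhom _ _), E.e_inv]
  have hbd : ∀ y, ∃ C : ℝ, ∀ x, ‖θ x y‖ ≤ C * W x := by
    intro y
    obtain ⟨C, hC⟩ := hFbd y
    refine ⟨C, fun x => ?_⟩
    have h1 : ‖θ x y‖ = ‖E.e (ω x y)‖ := rfl
    rw [h1, pi_norm_le_iff_of_nonneg (by have := hW x; positivity)]
    intro j
    refine (hC x j).trans ?_
    apply mul_le_mul_of_nonneg_left _ (Nat.cast_nonneg _)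
    apply pow_le_pow_right₀
    · have : (0 : ℝ) ≤ ρ x := Nat.cast_nonneg _
      linarith
    · have := hwp j
      omega
  obtain ⟨b, hb⟩ := average_cocycle hSf h1S hSi hgen hgrow hW hsubW
    (fun z => E.conjL hi1 hab (F z)) θ hcoc hbd
  set β : Γ → G := fun y => E.e.symm (b y).1 with hβ
  have hβl : ∀ y, E.Lv i0 (β y) := fun y => E.lv_symm (b y)
  have heβ : ∀ y, E.e (β y) = (b y).1 := fun y => by simp [hβ]
  -- the relation in the group
  have hrel : ∀ y z, (F z)⁻¹ * β y * F z * β z * (β (y * z))⁻¹ = ω y z := by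
    intro y z
    apply E.e.injective
    have h1 := congrArg Subtype.val (hb y z)
    simp only [Submodule.coe_add, Submodule.coe_sub, hθ] at h1
    rw [E.conjL_apply] at h1
    rw [E.e_mul_ab hab (E.lv_mul (E.lv_conj' hi1 (hβl y) (F z)) (hβl z))
      (E.lv_inv (hβl (y * z))), E.e_mul_ab hab (E.lv_conj' hi1 (hβl y) (F z)) (hβl z),
      E.e_inv, heβ, heβ, ← sub_eq_add_neg]
    exact h1
  set φ : Γ →* G := MonoidHom.mk' (fun y => F y * (β y)⁻¹) (by
    intro y z
    have h1 := hrel y z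
    have h2 : F y * F z = F (y * z) * ω y z := by simp only [hω]; group
    -- F y β(y)⁻¹ F z β(z)⁻¹ = F y F z (β(y)^{F z})⁻¹ β(z)⁻¹
    have h3 : F y * (β y)⁻¹ * (F z * (β z)⁻¹) =
        F y * F z * ((F z)⁻¹ * β y * F z)⁻¹ * (β z)⁻¹ := by group
    have h4 : (F z)⁻¹ * β y * F z * β z = ω y z * β (y * z) := by
      rw [← h1]; group
    have h5 : ω y z * β (y * z) = β (y * z) * ω y z :=
      hab _ _ (hFhom y z) (hβl (y * z))
    have h6 : β z * ((F z)⁻¹ * β y * F z) = (F z)⁻¹ * β y * F z * β z :=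
      hab _ _ (hβl z) (E.lv_conj' hi1 (hβl y) (F z))
    have h7 : ((F z)⁻¹ * β y * F z)⁻¹ * (β z)⁻¹ = (β (y * z) * ω y z)⁻¹ := by
      rw [← h5, ← h4, ← h6]
      exact (mul_inv_rev _ _).symm
    rw [h3, mul_assoc (F y * F z), h7, h2]
    group) with hφ
  have hφval : ∀ y, φ y = F y * (β y)⁻¹ := fun y => rfl
  -- the abelianization of φ
  have hcoφ : ∀ y, E.co 1 (φ y) = E.co 1 (F0 y) := by
    intro y
    have h1 : E.co 1 (β y) = 0 := by
      funext j
      rw [co_apply]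
      split_ifs with h2
      · exact hβl y j (by omega)
      · rfl
    have h2 : E.co 1 (F y) = E.co 1 (F0 y) := by
      funext j
      rw [co_apply, co_apply]
      split_ifs with h3
      · exact (((E.lv_inv_mul_iff i0 (F0 y) (F y)).mp (hF0F y)) j (by omega)).symm
      · rfl
    rw [hφval, E.co_mul (E.lv_one _) (E.lv_one _) (by omega), E.co_inv, h1, neg_zero, add_zero, h2]
  -- bound of co 1 on powers of K
  obtain ⟨c0, hc0⟩ := E.exists_bound hK
  have hco : ∀ n : ℕ, ∀ k ∈ K ^ n, ‖E.co 1 k‖ ≤ c0 * n := by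
    intro n
    induction n with
    | zero =>
      intro k hk
      rw [pow_zero, Set.mem_one] at hk
      rw [hk, E.co_one]; simp
    | succ n ih =>
      intro k hk
      rw [pow_succ] at hk
      obtain ⟨k', hk', k'', hk'', rfl⟩ := hk
      simp only
      rw [E.co_mul (E.lv_one _) (E.lv_one _) (by omega)]
      have h2 : ‖E.co 1 k''‖ ≤ c0 := by
        refine (E.norm_pr_le _ _).trans ?_
        exact (pi_norm_le_iff_of_nonneg (Nat.cast_nonneg _)).mpr (hc0 k'' hk'')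
      have h3 := ih k' hk'
      push_cast
      calc _ ≤ ‖E.co 1 k'‖ + ‖E.co 1 k''‖ := norm_add_le _ _
        _ ≤ _ := by linarith
  have hψ : ∀ x, ‖E.co 1 (f x) - E.co 1 (φ x)‖ ≤ c0 * ρ x := by
    intro x
    rw [hcoφ, norm_sub_rev]
    have h1 : E.co 1 ((f x)⁻¹ * F0 x) = E.co 1 (F0 x) - E.co 1 (f x) := by
      rw [E.co_mul (E.lv_one _) (E.lv_one _) (by omega), E.co_inv]; abel
    rw [← h1]
    exact hco _ _ (hρ x)
  have hspan := E.span_of_sublinear hSf h1S hgen hK hK1 hKi hf p hp ρ hsub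
    (fun x => E.co 1 (φ x)) c0 hψ
  exact E.lattice_of_hom hSf h1S hSi hgen hK hK1 hKi hf φ hspan

end NilCoords

end BE6F
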