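import Pool.Agent.BE6F.Average

/-!
# The defect of a map which is a homomorphism modulo a term of the lower central series
-/

set_option autoImplicit false

open Filter Topology
open scoped Pointwise commutatorElement

namespace BE6F

namespace NilCoords

variable {m : ℕ} {G : Type} [Group G] [TopologicalSpace G] (E : NilCoords m G)

/-- one constant for the size of all the correction terms -/
lemma mixed_bound_all : ∃ C : ℕ, ∀ i, ∀ (X Y : ℝ), 1 ≤ X → 1 ≤ Y →
    ∀ (x y : {j : Fin m // j < i} → ℝ), (∀ v, |x v| ≤ X ^ E.w v.1) →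
      (∀ v, |y v| ≤ Y ^ E.w v.1) →
      |MvPolynomial.eval (Sum.elim x y) (E.P i)| ≤ C * (X ^ (E.w i - 1) * Y ^ (E.w i - 1)) := by
  choose C hC using E.mixed_bound
  refine ⟨∑ i, C i, fun i X Y hX hY x y hx hy => (hC i X Y hX hY x y hx hy).trans ?_⟩
  apply mul_le_mul_of_nonneg_right _ (by positivity)
  exact_mod_cast Finset.single_le_sum (f := fun i => C i) (fun _ _ => Nat.zero_le _)
    (Finset.mem_univ i)

lemma mixed_diff_all : ∃ C : ℕ, ∀ i, ∀ (X D : ℝ), 1 ≤ X → 0 ≤ D →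
    ∀ (x y y' : {j : Fin m // j < i} → ℝ), (∀ v, |x v| ≤ X ^ E.w v.1) →
      (∀ v, |y v| ≤ X ^ E.w v.1) → (∀ v, |y' v| ≤ X ^ E.w v.1) →
      (∀ v, |y v - y' v| ≤ D * X ^ (E.w v.1 - 1)) →
      |MvPolynomial.eval (Sum.elim x y) (E.P i) - MvPolynomial.eval (Sum.elim x y') (E.P i)| ≤
        C * D * X ^ (E.w i - 1) := by
  choose C hC using E.mixed_diff
  refine ⟨∑ i, C i, fun i X D hX hD x y y' hx hy hy' hyy =>
    (hC i X D hX hD x y y' hx hy hy' hyy).trans ?_⟩
  apply mul_le_mul_of_nonneg_right _ (by positivity)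
  apply mul_le_mul_of_nonneg_right _ hD
  exact_mod_cast Finset.single_le_sum (f := fun i => C i) (fun _ _ => Nat.zero_le _)
    (Finset.mem_univ i)

/-- `c ^ (w - 1) * c ^ (w - 1)` is bounded uniformly in the weights -/
lemma exists_pow_bound (c : ℝ) (hc : 1 ≤ c) : ∃ M : ℕ, ∀ i,
    c ^ (E.w i - 1) * c ^ (E.w i - 1) ≤ M := by
  obtain ⟨M, hM⟩ := exists_nat_ge (∑ i, c ^ (E.w i - 1) * c ^ (E.w i - 1))
  refine ⟨M, fun i => le_trans ?_ hM⟩
  exact Finset.single_le_sum (f := fun i => c ^ (E.w i - 1) * c ^ (E.w i - 1))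
    (fun _ _ => by positivity) (Finset.mem_univ i)

/-- multiplication by a bounded element on the right changes the coordinates by a term of lower
order -/
lemma near_mul_right (c : ℕ) (hc : 1 ≤ c) : ∃ C : ℕ, ∀ X : ℝ, 1 ≤ X → ∀ g k : G,
    (∀ j, |E.e g j| ≤ ((c : ℝ) * X) ^ E.w j) → (∀ j, |E.e k j| ≤ c) →
    ∀ j, |E.e (g * k) j - E.e g j| ≤ C * X ^ (E.w j - 1) := by
  obtain ⟨C, hC⟩ := E.mixed_bound_all
  have hc' : (1 : ℝ) ≤ c := by exact_mod_cast hc
  obtain ⟨M, hM⟩ := E.exists_pow_bound c hc'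
  refine ⟨c + C * M, fun X hX g k hg hk j => ?_⟩
  have hcX : (1 : ℝ) ≤ c * X := by nlinarith
  have h1 := hC j (c * X) c hcX hc' (fun v => E.e g v.1) (fun v => E.e k v.1)
    (fun v => hg v.1) (fun v => (hk v.1).trans
      (le_self_pow₀ hc' (by have := E.w_pos v.1; omega)))
  rw [E.mul_apply]
  have h2 : E.e g j + E.e k j + MvPolynomial.eval
      (Sum.elim (fun v => E.e g v.1) (fun v => E.e k v.1)) (E.P j) - E.e g j =
      E.e k j + MvPolynomial.eval
      (Sum.elim (fun v => E.e g v.1) (fun v => E.e k v.1)) (E.P j) := by ring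
  rw [h2]
  refine (abs_add_le _ _).trans ?_
  have hX1 : (1 : ℝ) ≤ X ^ (E.w j - 1) := one_le_pow₀ hX
  have h3 : (C : ℝ) * ((c * X) ^ (E.w j - 1) * (c : ℝ) ^ (E.w j - 1)) ≤
      C * M * X ^ (E.w j - 1) := by
    rw [mul_pow]
    have := hM j
    calc (C : ℝ) * ((c : ℝ) ^ (E.w j - 1) * X ^ (E.w j - 1) * (c : ℝ) ^ (E.w j - 1)) =
        C * ((c : ℝ) ^ (E.w j - 1) * (c : ℝ) ^ (E.w j - 1)) * X ^ (E.w j - 1) := by ring
      _ ≤ C * M * X ^ (E.w j - 1) := by gcongr
  have h4 : |E.e k j| ≤ c * X ^ (E.w j - 1) := (hk j).trans (le_mul_of_one_le_right (by positivity) hX1)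
  push_cast
  rw [add_mul]
  linarith

/-- multiplication by a bounded element on the left changes the coordinates by a term of lower
order -/
lemma near_mul_left (c : ℕ) (hc : 1 ≤ c) : ∃ C : ℕ, ∀ X : ℝ, 1 ≤ X → ∀ g k : G,
    (∀ j, |E.e g j| ≤ ((c : ℝ) * X) ^ E.w j) → (∀ j, |E.e k j| ≤ c) →
    ∀ j, |E.e (k * g) j - E.e g j| ≤ C * X ^ (E.w j - 1) := by
  obtain ⟨C, hC⟩ := E.mixed_bound_all
  have hc' : (1 : ℝ) ≤ c := by exact_mod_cast hc
  obtain ⟨M, hM⟩ := E.exists_pow_bound c hc'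
  refine ⟨c + C * M, fun X hX g k hg hk j => ?_⟩
  have hcX : (1 : ℝ) ≤ c * X := by nlinarith
  have h1 := hC j c (c * X) hc' hcX (fun v => E.e k v.1) (fun v => E.e g v.1)
    (fun v => (hk v.1).trans (le_self_pow₀ hc' (by have := E.w_pos v.1; omega)))
    (fun v => hg v.1)
  rw [E.mul_apply]
  have h2 : E.e k j + E.e g j + MvPolynomial.eval
      (Sum.elim (fun v => E.e k v.1) (fun v => E.e g v.1)) (E.P j) - E.e g j =
      E.e k j + MvPolynomial.eval
      (Sum.elim (fun v => E.e k v.1) (fun v => E.e g v.1)) (E.P j) := by ring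
  rw [h2]
  refine (abs_add_le _ _).trans ?_
  have hX1 : (1 : ℝ) ≤ X ^ (E.w j - 1) := one_le_pow₀ hX
  have h3 : (C : ℝ) * ((c : ℝ) ^ (E.w j - 1) * (c * X) ^ (E.w j - 1)) ≤
      C * M * X ^ (E.w j - 1) := by
    rw [mul_pow]
    have := hM j
    calc (C : ℝ) * ((c : ℝ) ^ (E.w j - 1) * ((c : ℝ) ^ (E.w j - 1) * X ^ (E.w j - 1))) =
        C * ((c : ℝ) ^ (E.w j - 1) * (c : ℝ) ^ (E.w j - 1)) * X ^ (E.w j - 1) := by ring
      _ ≤ C * M * X ^ (E.w j - 1) := by gcongr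
  have h4 : |E.e k j| ≤ c * X ^ (E.w j - 1) := (hk j).trans (le_mul_of_one_le_right (by positivity) hX1)
  push_cast
  rw [add_mul]
  linarith

/-- from the difference of coordinates to the quotient -/
lemma near_quot (c : ℕ) (hc : 1 ≤ c) : ∃ C : ℕ, ∀ X : ℝ, 1 ≤ X → ∀ s g : G,
    (∀ j, |E.e s j| ≤ ((c : ℝ) * X) ^ E.w j) →
    (∀ j, |E.e g j - E.e s j| ≤ c * X ^ (E.w j - 1)) →
    ∀ j, |E.e (s⁻¹ * g) j| ≤ C * X ^ (E.w j - 1) := by
  obtain ⟨C, hC⟩ := E.mixed_diff_all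
  have hc' : (1 : ℝ) ≤ c := by exact_mod_cast hc
  obtain ⟨M, hM⟩ := E.exists_pow_bound (2 * c) (by linarith)
  refine ⟨c + C * c * M, fun X hX s g hs hg j => ?_⟩
  have hX0 : (0 : ℝ) < X := by linarith
  have hcX : (1 : ℝ) ≤ 2 * c * X := by nlinarith
  have hle : ∀ v, ((c : ℝ) * X) ^ E.w v ≤ (2 * c * X) ^ E.w v := fun v =>
    pow_le_pow_left₀ (by positivity) (by nlinarith) _
  have hgs : ∀ v, |E.e g v| ≤ (2 * (c : ℝ) * X) ^ E.w v := by
    intro v
    have h1 : |E.e g v| ≤ |E.e g v - E.e s v| + |E.e s v| := by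
      have := abs_add_le (E.e g v - E.e s v) (E.e s v)
      simpa using this
    have h2 := hs v
    have h3 := hg v
    have h4 : (c : ℝ) * X ^ (E.w v - 1) ≤ ((c : ℝ) * X) ^ E.w v := by
      have h5 : ((c : ℝ) * X) ^ E.w v = ((c : ℝ) * X) ^ (E.w v - 1) * (c * X) := by
        rw [← pow_succ, Nat.sub_add_cancel (E.w_pos _)]
      rw [h5, mul_pow]
      have h6 : (1 : ℝ) ≤ (c : ℝ) ^ (E.w v - 1) := one_le_pow₀ hc'
      have h7 : (0 : ℝ) < X ^ (E.w v - 1) := by positivity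
      calc (c : ℝ) * X ^ (E.w v - 1) ≤ c * X ^ (E.w v - 1) * (c ^ (E.w v - 1) * X) := by
            apply le_mul_of_one_le_right (by positivity)
            nlinarith
        _ = _ := by ring
    have h8 : 2 * ((c : ℝ) * X) ^ E.w v ≤ (2 * c * X) ^ E.w v := by
      rw [mul_assoc, mul_pow 2]
      apply mul_le_mul_of_nonneg_right _ (by positivity)
      exact le_self_pow₀ (by norm_num) (by have := E.w_pos v; omega)
    linarith
  have h1 := hC j (2 * c * X) c hcX (by positivity) (fun v => E.e s⁻¹ v.1) (fun v => E.e g v.1)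
    (fun v => E.e s v.1)
    (fun v => by
      rw [E.e_inv]; simp only [Pi.neg_apply, abs_neg]; exact (hs v.1).trans (hle v.1))
    (fun v => hgs v.1) (fun v => (hs v.1).trans (hle v.1))
    (fun v => by
      refine (hg v.1).trans ?_
      apply mul_le_mul_of_nonneg_left _ (by positivity)
      exact pow_le_pow_left₀ hX0.le (by nlinarith) _)
  have h2 := E.mul_apply s⁻¹ g j
  have h3 := E.mul_apply s⁻¹ s j
  rw [inv_mul_cancel, E.e_one] at h3
  rw [E.e_inv] at h1 h2 h3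
  simp only [Pi.zero_apply, Pi.neg_apply] at h1 h2 h3
  have h4 : E.e (s⁻¹ * g) j = (E.e g j - E.e s j) +
      (MvPolynomial.eval (Sum.elim (fun v => - E.e s v.1) (fun v => E.e g v.1)) (E.P j) -
       MvPolynomial.eval (Sum.elim (fun v => - E.e s v.1) (fun v => E.e s v.1)) (E.P j)) := by
    linarith
  rw [h4]
  refine (abs_add_le _ _).trans ?_
  have h5 : (C : ℝ) * c * (2 * c * X) ^ (E.w j - 1) ≤ C * c * M * X ^ (E.w j - 1) := by
    rw [mul_pow]
    have h6 := hM j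
    have h7 : (1 : ℝ) ≤ (2 * (c : ℝ)) ^ (E.w j - 1) := one_le_pow₀ (by linarith)
    have h8 : (2 * (c : ℝ)) ^ (E.w j - 1) ≤ M := by nlinarith
    calc (C : ℝ) * c * ((2 * (c : ℝ)) ^ (E.w j - 1) * X ^ (E.w j - 1)) ≤
        C * c * (M * X ^ (E.w j - 1)) := by gcongr
      _ = _ := by ring
  push_cast
  rw [add_mul]
  have := hg j
  linarith

/-- truncation of the coordinates: weights `< i0` are kept -/
noncomputable def tr (i0 : ℕ) (g : G) : G := E.e.symm (fun j => if E.w j < i0 then E.e g j else 0)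

lemma e_tr (i0 : ℕ) (g : G) (j : Fin m) :
    E.e (E.tr i0 g) j = if E.w j < i0 then E.e g j else 0 := by
  simp [tr]

lemma lv_tr (i0 : ℕ) (g : G) : E.Lv i0 (g⁻¹ * E.tr i0 g) := by
  rw [E.lv_inv_mul_iff]
  intro i hi
  rw [E.e_tr, if_pos hi]

/-- conjugation invariance and products modulo the `i0`-th term -/
lemma lv_hom_mod {i0 : ℕ} (hi0 : 1 ≤ i0) {g h k g' h' k' : G} (hk : E.Lv i0 (k⁻¹ * g * h))
    (hg' : E.Lv i0 (g⁻¹ * g')) (hh' : E.Lv i0 (h⁻¹ * h')) (hk' : E.Lv i0 (k⁻¹ * k')) :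
    E.Lv i0 (k'⁻¹ * g' * h') := by
  -- k'⁻¹ g' h' = (k⁻¹k')⁻¹ (k⁻¹ g h) (h⁻¹ (g⁻¹ g') h) (h⁻¹ h')
  have h1 : k'⁻¹ * g' * h' = (k⁻¹ * k')⁻¹ * (k⁻¹ * g * h) * (h⁻¹ * (g⁻¹ * g') * h⁻¹⁻¹) *
      (h⁻¹ * h') := by group
  rw [h1]
  exact E.lv_mul (E.lv_mul (E.lv_mul (E.lv_inv hk') hk) (E.lv_conj hi0 hg' _)) hh'

variable [IsTopologicalGroup G]

/-- **Normalization and size of the defect.**  A map `F0` which is a homomorphism modulo the
`i0`-th term can be replaced by a map `F` with the same classes whose defect at `x` has weight `j`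
coordinates of size `O(ρ ^ (j - 1))`, where `ρ x` bounds the distance from `F0 x` to `f x`. -/
theorem exists_normalized {Γ : Type} [Group Γ] {S : Set Γ} {K : Set G} {A B : ℕ} {f : Γ → G}
    (hgen : ∀ x : Γ, ∃ n : ℕ, x ∈ S ^ n) (hSi : S⁻¹ = S)
    (hK : IsCompact K) (hK1 : K ∈ 𝓝 (1 : G)) (hKi : K⁻¹ = K) (hf : IsQI S K A B f)
    {i0 : ℕ} (hi0 : 1 ≤ i0) (F0 : Γ → G) (hF0 : ∀ x y, E.Lv i0 ((F0 (x * y))⁻¹ * F0 x * F0 y))
    (ρ : Γ → ℕ) (hρ : ∀ x, (f x)⁻¹ * F0 x ∈ K ^ ρ x) :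
    ∃ F : Γ → G, (∀ x, E.Lv i0 ((F0 x)⁻¹ * F x)) ∧
      (∀ x y, E.Lv i0 ((F (x * y))⁻¹ * F x * F y)) ∧
      (∀ y, ∃ C : ℕ, ∀ x j, |E.e ((F (x * y))⁻¹ * F x * F y) j| ≤
        C * ((1 : ℝ) + ρ x) ^ (E.w j - 1)) := by
  obtain ⟨D, hD1, hD⟩ := E.growth_sharp hK
  set s : Γ → G := fun x => E.tr i0 ((f x)⁻¹ * F0 x) with hs
  set F : Γ → G := fun x => f x * s x with hF
  have hF0F : ∀ x, E.Lv i0 ((F0 x)⁻¹ * F x) := by
    intro x
    have h1 : (F0 x)⁻¹ * F x = ((f x)⁻¹ * F0 x)⁻¹ * s x := by simp only [hF]; group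
    rw [h1]
    exact E.lv_tr i0 _
  have hFhom : ∀ x y, E.Lv i0 ((F (x * y))⁻¹ * F x * F y) := fun x y =>
    E.lv_hom_mod hi0 (hF0 x y) (hF0F x) (hF0F y) (hF0F (x * y))
  refine ⟨F, hF0F, hFhom, fun y => ?_⟩
  -- size of s
  have hsize : ∀ x j, |E.e (s x) j| ≤ ((D : ℝ) * (1 + ρ x)) ^ E.w j := by
    intro x j
    simp only [hs]
    rw [E.e_tr]
    have hpos : (0 : ℝ) ≤ ((D : ℝ) * (1 + ρ x)) ^ E.w j := by positivity
    split_ifs with h1
    · rcases Nat.eq_zero_or_pos (ρ x) with h0 | h0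
      · have h2 := hρ x
        rw [h0, pow_zero, Set.mem_one] at h2
        rw [h2, E.e_one]; simpa using hpos
      · refine (hD (ρ x) h0 _ (hρ x) j).trans ?_
        apply pow_le_pow_left₀ (by positivity)
        apply mul_le_mul_of_nonneg_left _ (by positivity)
        linarith
    · simpa using hpos
  -- the bounded factors
  obtain ⟨r, hr⟩ := hgen y
  have hκ : ∀ x, (f (x * y))⁻¹ * f x ∈ K ^ (A * r + B) := by
    intro x
    apply hf.up
    have h1 : (x * y)⁻¹ * x = y⁻¹ := by group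
    rw [h1]
    exact inv_mem_pow hSi hr
  obtain ⟨c0, hc0⟩ := E.exists_bound (isCompact_pow hK (A * r + B))
  obtain ⟨c1, hc1⟩ := E.exists_bound (isCompact_singleton (x := F y))
  set c : ℕ := D + c0 + c1 + 1 with hcdef
  have hc : 1 ≤ c := by omega
  have hcD : (D : ℝ) ≤ c := by
    have : D ≤ c := by omega
    exact_mod_cast this
  obtain ⟨C1, hC1⟩ := E.near_mul_right c hc
  -- after right multiplication the element still has size (c + C1) X
  obtain ⟨C2, hC2⟩ := E.near_mul_left (c + C1) (by omega)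
  obtain ⟨C3, hC3⟩ := E.near_quot (c + C1 + C2) (by omega)
  refine ⟨C3, fun x => ?_⟩
  set X : ℝ := 1 + ρ x with hX
  have hX1 : (1 : ℝ) ≤ X := by
    have : (0 : ℝ) ≤ ρ x := Nat.cast_nonneg _
    linarith
  have hX0 : (0 : ℝ) < X := by linarith
  have hcr : (1 : ℝ) ≤ c := by exact_mod_cast hc
  -- general enlargement lemma
  have henl : ∀ (a b : ℝ) (j : Fin m), 1 ≤ a → 0 ≤ b →
      (a * X) ^ E.w j + b * X ^ (E.w j - 1) ≤ ((a + b) * X) ^ E.w j := by
    intro a b j ha hb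
    obtain ⟨k, hk⟩ : ∃ k, E.w j = k + 1 := ⟨E.w j - 1, by have := E.w_pos j; omega⟩
    rw [hk, Nat.add_sub_cancel]
    have h1 : (1 : ℝ) ≤ (a + b) ^ k := one_le_pow₀ (by linarith)
    have h2 : a ^ k ≤ (a + b) ^ k := pow_le_pow_left₀ (by linarith) (by linarith) _
    have hXk : (0 : ℝ) < X ^ k := by positivity
    rw [mul_pow, mul_pow, pow_succ a, pow_succ X, pow_succ (a + b)]
    have h3 : a ^ k * a * (X ^ k * X) ≤ (a + b) ^ k * a * (X ^ k * X) := by gcongr
    have h4 : b * X ^ k ≤ (a + b) ^ k * b * (X ^ k * X) := by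
      have h5 : b * X ^ k * 1 ≤ b * X ^ k * ((a + b) ^ k * X) := by
        apply mul_le_mul_of_nonneg_left _ (by positivity)
        nlinarith
      calc b * X ^ k = b * X ^ k * 1 := by ring
        _ ≤ b * X ^ k * ((a + b) ^ k * X) := h5
        _ = _ := by ring
    calc a ^ k * a * (X ^ k * X) + b * X ^ k ≤
        (a + b) ^ k * a * (X ^ k * X) + (a + b) ^ k * b * (X ^ k * X) := add_le_add h3 h4
      _ = _ := by ring
  -- s x * F y
  have e1 := hC1 X hX1 (s x) (F y)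
    (fun j => (hsize x j).trans (pow_le_pow_left₀ (by positivity)
      (mul_le_mul_of_nonneg_right hcD hX0.le) _))
    (fun j => (hc1 _ (Set.mem_singleton _) j).trans (by
      have : c1 ≤ c := by omega
      exact_mod_cast this))
  have hs1 : ∀ j, |E.e (s x * F y) j| ≤ (((c + C1 : ℕ) : ℝ) * X) ^ E.w j := by
    intro j
    have h1 : |E.e (s x * F y) j| ≤ |E.e (s x) j| + |E.e (s x * F y) j - E.e (s x) j| := by
      have := abs_add_le (E.e (s x) j) (E.e (s x * F y) j - E.e (s x) j)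
      simpa using this
    have h2 : |E.e (s x) j| ≤ ((c : ℝ) * X) ^ E.w j := (hsize x j).trans
      (pow_le_pow_left₀ (by positivity) (mul_le_mul_of_nonneg_right hcD hX0.le) _)
    have h3 := henl c C1 j hcr (Nat.cast_nonneg _)
    have h4 := e1 j
    push_cast
    linarith
  -- κ * (s x * F y)
  set κ := (f (x * y))⁻¹ * f x with hκdef
  set gg := κ * (s x * F y) with hgg
  have e2 := hC2 X hX1 (s x * F y) κ hs1
    (fun j => (hc0 _ (hκ x) j).trans (by
      have : c0 ≤ c + C1 := by omega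
      exact_mod_cast this))
  have hdiff : ∀ j, |E.e gg j - E.e (s x) j| ≤ ((C1 : ℝ) + C2) * X ^ (E.w j - 1) := by
    intro j
    have h1 : E.e gg j - E.e (s x) j = (E.e gg j - E.e (s x * F y) j) +
      (E.e (s x * F y) j - E.e (s x) j) := by ring
    rw [h1, add_mul]
    have h2 := e1 j
    have h3 := e2 j
    refine (abs_add_le _ _).trans ?_
    linarith
  have hω : (F (x * y))⁻¹ * F x * F y = (s (x * y))⁻¹ * gg := by
    simp only [hF, hgg, hκdef]
    group
  -- the coordinates of s (x y) of weight < i0 are those of gg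
  have hagree : ∀ j, E.w j < i0 → E.e (s (x * y)) j = E.e gg j := by
    have h1 := hFhom x y
    rw [hω, E.lv_inv_mul_iff] at h1
    exact h1
  have hzero : ∀ z j, ¬ E.w j < i0 → E.e (s z) j = 0 := by
    intro z j hj
    simp only [hs]
    rw [E.e_tr, if_neg hj]
  have hggsize : ∀ j, |E.e gg j| ≤ (((c + C1 + C2 : ℕ) : ℝ) * X) ^ E.w j := by
    intro j
    have h1 : |E.e gg j| ≤ |E.e (s x * F y) j| + |E.e gg j - E.e (s x * F y) j| := by
      have := abs_add_le (E.e (s x * F y) j) (E.e gg j - E.e (s x * F y) j)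
      simpa using this
    have h2 := hs1 j
    have h3 := henl (c + C1 : ℕ) C2 j (by push_cast; linarith [Nat.cast_nonneg (α := ℝ) C1])
      (Nat.cast_nonneg _)
    have h4 := e2 j
    push_cast at h2 h3 ⊢
    linarith
  rw [hω]
  apply hC3 X hX1
  · intro j
    by_cases hj : E.w j < i0
    · rw [hagree j hj]; exact hggsize j
    · rw [hzero _ j hj, abs_zero]; positivity
  · intro j
    by_cases hj : E.w j < i0
    · rw [hagree j hj, sub_self, abs_zero]; positivity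
    · rw [hzero (x * y) j hj, sub_zero]
      have h1 := hdiff j
      rw [hzero x j hj, sub_zero] at h1
      refine h1.trans ?_
      apply mul_le_mul_of_nonneg_right _ (by positivity)
      push_cast
      linarith

end NilCoords

end BE6F
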