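import Pool.Agent.BE6F.Growth

/-!
# Quasi-isometries to groups with exponential coordinates: growth of the source
-/

set_option autoImplicit false

open Filter Topology
open scoped Pointwise

namespace BE6F

/-- `f : Γ → G` is a quasi-isometry with constants `A`, `B` for the word metrics of the generating
sets `S ⊆ Γ` and `K ⊆ G`, exactly as in the frozen statement of the problem: `x⁻¹ y ∈ S ^ n` means
that the word distance of `x` and `y` is at most `n`. -/
structure IsQI {Γ G : Type} [Group Γ] [Group G] (S : Set Γ) (K : Set G) (A B : ℕ)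
    (f : Γ → G) : Prop where
  up : ∀ x y : Γ, ∀ n : ℕ, x⁻¹ * y ∈ S ^ n → (f x)⁻¹ * f y ∈ K ^ (A * n + B)
  lo : ∀ x y : Γ, ∀ n : ℕ, (f x)⁻¹ * f y ∈ K ^ n → x⁻¹ * y ∈ S ^ (A * n + B)
  onto : ∀ g : G, ∃ x : Γ, (f x)⁻¹ * g ∈ K ^ B

section Basic

variable {G : Type} [Group G]

lemma inv_pow_set {K : Set G} (hKi : K⁻¹ = K) (n : ℕ) : (K ^ n)⁻¹ = K ^ n := by
  rw [← inv_pow, hKi]

lemma inv_mem_pow {K : Set G} (hKi : K⁻¹ = K) {n : ℕ} {g : G} (hg : g ∈ K ^ n) :
    g⁻¹ ∈ K ^ n := by
  rw [← inv_pow_set hKi n]; simpa using hg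

lemma mul_mem_pow {K : Set G} {a b : ℕ} {g h : G} (hg : g ∈ K ^ a) (hh : h ∈ K ^ b) :
    g * h ∈ K ^ (a + b) := by
  rw [pow_add]; exact Set.mul_mem_mul hg hh

lemma mem_pow_mono {K : Set G} (h1 : (1 : G) ∈ K) {a b : ℕ} (hab : a ≤ b) {g : G}
    (hg : g ∈ K ^ a) : g ∈ K ^ b := Set.pow_subset_pow_right h1 hab hg

lemma finite_pow {S : Set G} (hS : S.Finite) (n : ℕ) : (S ^ n).Finite := by
  induction n with
  | zero => simp
  | succ n ih => rw [pow_succ]; exact ih.mul hS

variable [TopologicalSpace G] [IsTopologicalGroup G]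

lemma isCompact_pow {K : Set G} (hK : IsCompact K) (n : ℕ) : IsCompact (K ^ n) := by
  induction n with
  | zero => rw [pow_zero]; exact isCompact_singleton
  | succ n ih => rw [pow_succ]; exact ih.mul hK

lemma pow_subset_interior {K : Set G} (hK1 : K ∈ 𝓝 (1 : G)) (n : ℕ) :
    K ^ n ⊆ interior (K ^ (n + 1)) := by
  intro g hg
  have h1 : (1 : G) ∈ interior K := mem_interior_iff_mem_nhds.mpr hK1
  have h2 : K ^ n * interior K ⊆ interior (K ^ (n + 1)) := by
    apply interior_maximal
    · rw [pow_succ]; exact Set.mul_subset_mul_left interior_subset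
    · exact isOpen_interior.mul_left
  exact h2 ⟨g, hg, 1, h1, mul_one g⟩

/-- every compact set lies in some power of `K`, if the powers of `K` exhaust the group -/
lemma compact_subset_pow {K : Set G} (hK1 : K ∈ 𝓝 (1 : G)) (hex : ∀ g : G, ∃ n, g ∈ K ^ n)
    {Q : Set G} (hQ : IsCompact Q) : ∃ n, Q ⊆ K ^ n := by
  have h1 : (1 : G) ∈ K := mem_of_mem_nhds hK1
  obtain ⟨n, hn⟩ := hQ.elim_directed_cover (fun n : ℕ => interior (K ^ n))
    (fun n => isOpen_interior) (by
      intro g _
      obtain ⟨n, hn⟩ := hex g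
      exact Set.mem_iUnion.mpr ⟨n + 1, pow_subset_interior hK1 n hn⟩)
    (directed_of_isDirected_le (fun a b hab => interior_mono (Set.pow_subset_pow_right h1 hab)))
  exact ⟨n, hn.trans interior_subset⟩

end Basic

section QI

variable {Γ G : Type} [Group Γ] [Group G] {S : Set Γ} {K : Set G} {A B : ℕ} {f : Γ → G}

lemma IsQI.exhaust (hf : IsQI S K A B f) (hgen : ∀ x : Γ, ∃ n : ℕ, x ∈ S ^ n)
    (hKi : K⁻¹ = K) (g : G) : ∃ n, g ∈ K ^ n := by
  have key : ∀ h : G, ∃ n, (f 1)⁻¹ * h ∈ K ^ n := by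
    intro h
    obtain ⟨x, hx⟩ := hf.onto h
    obtain ⟨n, hn⟩ := hgen x
    have h1 := hf.up 1 x n (by simpa using hn)
    have h2 := mul_mem_pow h1 hx
    have h3 : (f 1)⁻¹ * f x * ((f x)⁻¹ * h) = (f 1)⁻¹ * h := by group
    rw [h3] at h2
    exact ⟨_, h2⟩
  obtain ⟨a, ha⟩ := key 1
  obtain ⟨b, hb⟩ := key g
  have h1 : f 1 ∈ K ^ a := by
    have := inv_mem_pow hKi ha
    simpa using this
  have h2 := mul_mem_pow h1 hb
  exact ⟨_, by simpa using h2⟩

/-- enlarging the constants -/
lemma IsQI.mono (hf : IsQI S K A B f) (hS1 : (1 : Γ) ∈ S) (hK1 : (1 : G) ∈ K) {B' : ℕ}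
    (hB : B ≤ B') : IsQI S K A B' f where
  up x y n h := mem_pow_mono hK1 (by omega) (hf.up x y n h)
  lo x y n h := mem_pow_mono hS1 (by omega) (hf.lo x y n h)
  onto g := by
    obtain ⟨x, hx⟩ := hf.onto g
    exact ⟨x, mem_pow_mono hK1 hB hx⟩

end QI

section Count

variable {m : ℕ} {G : Type} [Group G] [TopologicalSpace G] (E : ExpCoords m G)

lemma exists_inv_bound {K : Set G} (hK1 : K ∈ 𝓝 (1 : G)) :
    ∃ r : ℕ, 0 < r ∧ ∀ g : G, (∀ i, |E.e g i| ≤ 1 / (r : ℝ)) → g ∈ K := by
  have h1 : E.e.symm ⁻¹' K ∈ 𝓝 (0 : Fin m → ℝ) := by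
    apply E.e.symm.continuous.continuousAt.preimage_mem_nhds
    rw [E.symm_zero]; exact hK1
  obtain ⟨ε, hε, hb⟩ := Metric.mem_nhds_iff.mp h1
  obtain ⟨r, hr⟩ := exists_nat_gt (1 / ε)
  have hr0 : (0 : ℝ) < r := lt_trans (by positivity) hr
  refine ⟨r, by exact_mod_cast hr0, fun g hg => ?_⟩
  have h2 : E.e g ∈ Metric.ball (0 : Fin m → ℝ) ε := by
    rw [mem_ball_zero_iff]
    refine lt_of_le_of_lt ((pi_norm_le_iff_of_nonneg (by positivity)).mpr (fun i => hg i)) ?_
    rw [div_lt_iff₀ hr0]
    rw [div_lt_iff₀ hε] at hr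
    linarith
  have := hb h2
  simpa using this

include E in
/-- **A group quasi-isometric to `G` has polynomial growth.** -/
theorem growth_of_qi {Γ : Type} [Group Γ] {S : Set Γ} {K : Set G} {A B : ℕ} {f : Γ → G}
    (hS : S.Finite) (hgen : ∀ x : Γ, ∃ n : ℕ, x ∈ S ^ n)
    (hK : IsCompact K) (hK1 : K ∈ 𝓝 (1 : G)) (hKi : K⁻¹ = K)
    (hf : IsQI S K A B f) :
    PolyBdd (fun n => (finite_pow hS n).toFinset.card) := by
  classical
  have h1K : (1 : G) ∈ K := mem_of_mem_nhds hK1
  obtain ⟨j0, hj0⟩ := hf.exhaust hgen hKi (f 1)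
  obtain ⟨r, hr, hrK⟩ := exists_inv_bound E hK1
  have hgr := fun i => E.coord_growth hK i
  choose u hu hub using hgr
  have hsep := fun i => E.coord_sep i
  choose C d hCd using hsep
  -- size of the coordinates of the image of the ball of radius n
  set N : ℕ → ℕ := fun n => ∑ i, u i (j0 + (A * n + B)) with hN
  have hNp : PolyBdd N := by
    apply PolyBdd.sum Finset.univ (fun i n => u i (j0 + (A * n + B)))
    intro i
    exact (hu i).comp ((PolyBdd.const j0).add (((PolyBdd.const A).mul PolyBdd.id).add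
      (PolyBdd.const B)))
  -- the mesh
  set q : ℕ → ℕ := fun n => r * (∑ i, C i * (N n + 1) ^ d i) + 1 with hq
  have hqp : PolyBdd q := by
    apply PolyBdd.add _ (PolyBdd.const 1)
    apply (PolyBdd.const r).mul
    apply PolyBdd.sum Finset.univ (fun i n => C i * (N n + 1) ^ d i)
    intro i
    exact (PolyBdd.const _).mul ((hNp.add (PolyBdd.const 1)).pow _)
  have hbound : ∀ n, (finite_pow hS n).toFinset.card ≤
      (finite_pow hS (A * 1 + B)).toFinset.card * (2 * (q n * N n) + 3) ^ m := by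
    intro n
    -- coordinates of f x for x in the ball
    have hco : ∀ x ∈ S ^ n, ∀ i, |E.e (f x) i| ≤ N n := by
      intro x hx i
      have h1 := hf.up 1 x n (by simpa using hx)
      have h2 := mul_mem_pow hj0 h1
      rw [mul_inv_cancel_left] at h2
      refine (hub i _ _ h2).trans ?_
      have h3 : u i (j0 + (A * n + B)) ≤ N n :=
        Finset.single_le_sum (f := fun i => u i (j0 + (A * n + B))) (fun _ _ => Nat.zero_le _)
          (Finset.mem_univ i)
      exact_mod_cast h3
    have hqpos : (0 : ℝ) < q n := by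
      have : 0 < q n := by simp [hq]
      exact_mod_cast this
    set F : Γ → (Fin m → ℤ) := fun x i => ⌊(q n : ℝ) * E.e (f x) i⌋ with hF
    set I : Finset (Fin m → ℤ) := Fintype.piFinset
      (fun _ => Finset.Icc (-(q n * N n : ℤ) - 1) ((q n * N n : ℤ) + 1)) with hI
    have hIcard : I.card = (2 * (q n * N n) + 3) ^ m := by
      rw [hI, Fintype.card_piFinset]
      simp only [Int.card_Icc, Finset.prod_const, Finset.card_univ, Fintype.card_fin]
      congr 1
      have : ((q n * N n : ℤ) + 1 + 1 - (-(q n * N n : ℤ) - 1)) = ((2 * (q n * N n) + 3 : ℕ) : ℤ) := by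
        push_cast; ring
      rw [this, Int.toNat_natCast]
    have himg : (finite_pow hS n).toFinset.image F ⊆ I := by
      intro v hv
      obtain ⟨x, hx, rfl⟩ := Finset.mem_image.mp hv
      have hx' : x ∈ S ^ n := by simpa using hx
      rw [hI, Fintype.mem_piFinset]
      intro i
      rw [Finset.mem_Icc]
      have h1 := abs_le.mp (hco x hx' i)
      have h2 : (q n : ℝ) * E.e (f x) i ≤ q n * N n := mul_le_mul_of_nonneg_left h1.2 hqpos.le
      have h3 : -((q n : ℝ) * N n) ≤ q n * E.e (f x) i := by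
        have := mul_le_mul_of_nonneg_left h1.1 hqpos.le
        linarith
      constructor
      · have h4 : (-(q n * N n : ℤ)) ≤ ⌊(q n : ℝ) * E.e (f x) i⌋ := by
          rw [Int.le_floor]; push_cast; linarith
        simp only [hF]
        linarith
      · have h4 : ⌊(q n : ℝ) * E.e (f x) i⌋ ≤ (q n * N n : ℤ) := by
          have h5 := Int.floor_le ((q n : ℝ) * E.e (f x) i)
          have h6 : ((⌊(q n : ℝ) * E.e (f x) i⌋ : ℤ) : ℝ) ≤ ((q n * N n : ℤ) : ℝ) := by
            push_cast; linarith
          exact_mod_cast h6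
        simp only [hF]
        linarith
    have hfib : ∀ b ∈ (finite_pow hS n).toFinset.image F,
        ((finite_pow hS n).toFinset.filter (fun x => F x = b)).card ≤
          (finite_pow hS (A * 1 + B)).toFinset.card := by
      intro b hb
      obtain ⟨x0, hx0, hFx0⟩ := Finset.mem_image.mp hb
      have hx0' : x0 ∈ S ^ n := by simpa using hx0
      apply Finset.card_le_card_of_injOn (fun x => x0⁻¹ * x)
      · intro x hx
        simp only [Finset.coe_filter, Set.mem_ofPred_eq, Set.Finite.mem_toFinset] at hx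
        simp only [Finset.mem_coe, Set.Finite.mem_toFinset]
        apply hf.lo
        rw [pow_one]
        apply hrK
        intro i
        have hclose : ∀ j, |E.e (f x0) j - E.e (f x) j| ≤ 1 / (q n : ℝ) := by
          intro j
          have h1 : F x0 j = F x j := by rw [hFx0, hx.2]
          simp only [hF] at h1
          have h2 := Int.abs_sub_lt_one_of_floor_eq_floor h1
          rw [← mul_sub, abs_mul, abs_of_pos hqpos] at h2
          rw [le_div_iff₀ hqpos]
          linarith
        have h3 := hCd i (N n) (f x0) (f x) (1 / (q n : ℝ)) (by positivity) (hco x0 hx0')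
          (hco x hx.1) hclose
        refine h3.trans ?_
        have hr0 : (0 : ℝ) < r := by exact_mod_cast hr
        rw [mul_one_div, div_le_div_iff₀ hqpos hr0]
        have h4 : C i * (N n + 1) ^ d i ≤ ∑ i, C i * (N n + 1) ^ d i :=
          Finset.single_le_sum (f := fun i => C i * (N n + 1) ^ d i) (fun _ _ => Nat.zero_le _)
            (Finset.mem_univ i)
        have h5 : r * (C i * (N n + 1) ^ d i) ≤ q n := by
          simp only [hq]
          exact (Nat.mul_le_mul_left r h4).trans (Nat.le_succ _)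
        have h6 : ((r * (C i * (N n + 1) ^ d i) : ℕ) : ℝ) ≤ q n := by exact_mod_cast h5
        push_cast at h6
        linarith
      · intro x _ y _ hxy
        exact mul_left_cancel hxy
    calc (finite_pow hS n).toFinset.card
        ≤ (finite_pow hS (A * 1 + B)).toFinset.card *
          ((finite_pow hS n).toFinset.image F).card :=
          Finset.card_le_mul_card_image _ _ hfib
      _ ≤ (finite_pow hS (A * 1 + B)).toFinset.card * I.card :=
          Nat.mul_le_mul_left _ (Finset.card_le_card himg)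
      _ = _ := by rw [hIcard]
  exact ((PolyBdd.const _).mul ((((PolyBdd.const 2).mul (hqp.mul hNp)).add
    (PolyBdd.const 3)).pow m)).mono hbound

end Count

end BE6F
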