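import Pool.Agent.BE6F.Linear

/-!
# A homomorphism which is cocompact modulo commutators has linear control
-/

set_option autoImplicit false

open Filter Topology
open scoped Pointwise commutatorElement

namespace BE6F

namespace NilCoords

variable {m : ℕ} {G : Type} [Group G] [TopologicalSpace G] (E : NilCoords m G)

section

variable {Γ : Type} [Group Γ] (S : Set Γ) (φ : Γ →* G)

/-- the multiples of `v0` are reached, with an error of lower order -/
def Reach (a : ℕ) (v0 : Fin m → ℝ) : Prop := ∃ L C : ℕ, ∀ n : ℕ, 1 ≤ n → ∀ t : ℝ,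
  |t| ≤ (n : ℝ) ^ a → ∃ y ∈ S ^ (L * n), E.Lv a (φ y) ∧
    ‖E.co a (φ y) - t • v0‖ ≤ C * (n : ℝ) ^ (a - 1)

lemma lv_map_one (a : ℕ) : E.Lv a (φ 1) := by
  intro i _
  rw [map_one, E.e_one]; rfl

lemma reach_zero (a : ℕ) : E.Reach S φ a 0 := by
  refine ⟨0, 0, fun n _ t _ => ⟨1, by simp, E.lv_map_one φ a, ?_⟩⟩
  rw [map_one, E.co_one]; simp

lemma reach_add {a : ℕ} (ha : 1 ≤ a) {v w : Fin m → ℝ} (hv : E.Reach S φ a v)
    (hw : E.Reach S φ a w) : E.Reach S φ a (v + w) := by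
  obtain ⟨L, C, h⟩ := hv
  obtain ⟨L', C', h'⟩ := hw
  refine ⟨L + L', C + C', fun n hn t ht => ?_⟩
  obtain ⟨y, hy, hyl, hyc⟩ := h n hn t ht
  obtain ⟨y', hy', hyl', hyc'⟩ := h' n hn t ht
  refine ⟨y * y', by rw [add_mul]; exact mul_mem_pow hy hy', ?_, ?_⟩
  · rw [map_mul]; exact E.lv_mul hyl hyl'
  · rw [map_mul, E.co_mul hyl hyl' (by omega)]
    have h1 : E.co a (φ y) + E.co a (φ y') - t • (v + w) =
        (E.co a (φ y) - t • v) + (E.co a (φ y') - t • w) := by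
      rw [smul_add]; abel
    rw [h1]
    push_cast
    rw [add_mul]
    exact (norm_add_le _ _).trans (add_le_add hyc hyc')

lemma reach_smul {a : ℕ} {v : Fin m → ℝ} (c : ℝ) (ha : 1 ≤ a) (hv : E.Reach S φ a v) :
    E.Reach S φ a (c • v) := by
  obtain ⟨L, C, h⟩ := hv
  obtain ⟨N, hN⟩ := exists_nat_ge (max |c| 1)
  have hN1 : (1 : ℝ) ≤ N := (le_max_right _ _).trans hN
  have hNc : |c| ≤ N := (le_max_left _ _).trans hN
  have hN1' : 1 ≤ N := by exact_mod_cast hN1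
  refine ⟨L * N, C * N ^ (a - 1), fun n hn t ht => ?_⟩
  have h1 : |t * c| ≤ ((N * n : ℕ) : ℝ) ^ a := by
    rw [abs_mul]
    push_cast
    rw [mul_pow, mul_comm]
    apply mul_le_mul (hNc.trans (le_self_pow₀ hN1 (by omega))) ht (abs_nonneg _) (by positivity)
  obtain ⟨y, hy, hyl, hyc⟩ := h (N * n) (Nat.mul_pos hN1' hn) (t * c) h1
  refine ⟨y, by rw [mul_assoc]; exact hy, hyl, ?_⟩
  rw [smul_smul]
  push_cast at hyc ⊢
  calc _ ≤ C * ((N : ℝ) * n) ^ (a - 1) := hyc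
    _ = C * (N : ℝ) ^ (a - 1) * (n : ℝ) ^ (a - 1) := by rw [mul_pow]; ring

/-- the vectors whose multiples are reached form a subspace -/
lemma reach_span {a : ℕ} (ha : 1 ≤ a) {T : Set (Fin m → ℝ)} (hT : ∀ v ∈ T, E.Reach S φ a v)
    {v : Fin m → ℝ} (hv : v ∈ Submodule.span ℝ T) : E.Reach S φ a v := by
  induction hv using Submodule.span_induction with
  | mem x hx => exact hT x hx
  | zero => exact E.reach_zero S φ a
  | add x y _ _ hx hy => exact E.reach_add S φ ha hx hy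
  | smul c x _ hx => exact E.reach_smul S φ c ha hx

/-- uniform version with a lower order error -/
lemma reach_uniform {a : ℕ} (ha : 1 ≤ a) (h : ∀ v, E.Reach S φ a (E.pr a v)) :
    ∃ L C : ℕ, ∀ n : ℕ, 1 ≤ n → ∀ v : Fin m → ℝ, ‖v‖ ≤ (n : ℝ) ^ a →
      ∃ y ∈ S ^ (L * n), E.Lv a (φ y) ∧
        ‖E.co a (φ y) - E.pr a v‖ ≤ C * (n : ℝ) ^ (a - 1) := by
  classical
  have key : ∀ s : Finset (Fin m), ∃ L C : ℕ, ∀ n : ℕ, 1 ≤ n → ∀ v : Fin m → ℝ,
      ‖v‖ ≤ (n : ℝ) ^ a → ∃ y ∈ S ^ (L * n), E.Lv a (φ y) ∧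
        ‖E.co a (φ y) - ∑ i ∈ s, v i • E.pr a (Pi.single i 1)‖ ≤ C * (n : ℝ) ^ (a - 1) := by
    intro s
    induction s using Finset.induction_on with
    | empty =>
      refine ⟨0, 0, fun n _ v _ => ⟨1, by simp, E.lv_map_one φ a, ?_⟩⟩
      rw [map_one, E.co_one]; simp
    | insert i s hi ih =>
      obtain ⟨L, C, hL⟩ := ih
      obtain ⟨L', C', hL'⟩ := h (Pi.single i 1)
      refine ⟨L' + L, C' + C, fun n hn v hv => ?_⟩
      obtain ⟨y, hy, hyl, hyc⟩ := hL n hn v hv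
      obtain ⟨y', hy', hyl', hyc'⟩ := hL' n hn (v i) ((norm_le_pi_norm v i).trans hv)
      refine ⟨y' * y, by rw [add_mul]; exact mul_mem_pow hy' hy, ?_, ?_⟩
      · rw [map_mul]; exact E.lv_mul hyl' hyl
      · rw [map_mul, E.co_mul hyl' hyl (by omega), Finset.sum_insert hi]
        have h1 : E.co a (φ y') + E.co a (φ y) - (v i • E.pr a (Pi.single i 1) +
            ∑ i ∈ s, v i • E.pr a (Pi.single i 1)) =
            (E.co a (φ y') - v i • E.pr a (Pi.single i 1)) +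
            (E.co a (φ y) - ∑ i ∈ s, v i • E.pr a (Pi.single i 1)) := by abel
        rw [h1]
        push_cast
        rw [add_mul]
        exact (norm_add_le _ _).trans (add_le_add hyc' hyc)
  obtain ⟨L, C, hL⟩ := key Finset.univ
  refine ⟨L, C, fun n hn v hv => ?_⟩
  obtain ⟨y, hy, hyl, hyc⟩ := hL n hn v hv
  refine ⟨y, hy, hyl, ?_⟩
  have h1 : ∑ i, v i • E.pr a (Pi.single i 1) = E.pr a v := by
    have h2 : v = ∑ i, v i • (Pi.single i (1 : ℝ) : Fin m → ℝ) := by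
      funext j
      rw [Finset.sum_apply]
      simp [Pi.single_apply]
    conv_rhs => rw [h2, map_sum]
    simp only [map_smul]
  rw [h1] at hyc
  exact hyc

/-- uniform version with a bounded error -/
def ReachB (a : ℕ) : Prop := ∃ L C : ℕ, ∀ n : ℕ, 1 ≤ n → ∀ v : Fin m → ℝ, ‖v‖ ≤ (n : ℝ) ^ a →
  ∃ y ∈ S ^ (L * n), E.Lv a (φ y) ∧ ‖E.co a (φ y) - E.pr a v‖ ≤ C

lemma reach_bounded (h1S : (1 : Γ) ∈ S) {a : ℕ} (ha : 1 ≤ a)
    (h : ∀ v, E.Reach S φ a (E.pr a v)) : E.ReachB S φ a := by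
  obtain ⟨L0, C0, hL0⟩ := E.reach_uniform S φ ha h
  set M : ℕ := C0 * 3 ^ (a - 1) with hM
  set C : ℕ := C0 * (2 * M + 1) ^ (a - 1) with hC
  refine ⟨2 * L0, C, fun n => ?_⟩
  induction n using Nat.strong_induction_on with
  | _ n ih =>
  intro hn v hv
  obtain ⟨y, hy, hyl, hyc⟩ := hL0 n hn v hv
  by_cases hbig : M < n / 2
  · -- improve
    set n' := n / 2 with hn'
    have hn'1 : 1 ≤ n' := by omega
    have hn'n : 2 * n' ≤ n := by omega
    have hn3 : n ≤ 3 * n' := by omega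
    have hv1 : ‖E.pr a v - E.co a (φ y)‖ ≤ (n' : ℝ) ^ a := by
      rw [norm_sub_rev]
      refine hyc.trans ?_
      have h1 : (n : ℝ) ^ (a - 1) ≤ (3 * (n' : ℝ)) ^ (a - 1) :=
        pow_le_pow_left₀ (by positivity) (by exact_mod_cast hn3) _
      have h2 : (C0 : ℝ) * 3 ^ (a - 1) ≤ n' := by
        have : M ≤ n' := by omega
        rw [hM] at this
        exact_mod_cast this
      calc (C0 : ℝ) * (n : ℝ) ^ (a - 1) ≤ C0 * (3 * (n' : ℝ)) ^ (a - 1) :=
            mul_le_mul_of_nonneg_left h1 (by positivity)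
        _ = (C0 * 3 ^ (a - 1)) * (n' : ℝ) ^ (a - 1) := by rw [mul_pow]; ring
        _ ≤ n' * (n' : ℝ) ^ (a - 1) := mul_le_mul_of_nonneg_right h2 (by positivity)
        _ = (n' : ℝ) ^ a := by rw [← pow_succ', Nat.sub_add_cancel ha]
    obtain ⟨y', hy', hyl', hyc'⟩ := ih n' (by omega) hn'1 _ hv1
    refine ⟨y * y', ?_, ?_, ?_⟩
    · have h2 : L0 * n + 2 * L0 * n' ≤ 2 * L0 * n := by nlinarith
      exact mem_pow_mono h1S h2 (mul_mem_pow hy hy')
    · rw [map_mul]; exact E.lv_mul hyl hyl'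
    · rw [map_mul, E.co_mul hyl hyl' (by omega)]
      have h1 : E.pr a (E.pr a v - E.co a (φ y)) = E.pr a v - E.co a (φ y) := by
        rw [map_sub, E.pr_pr, co, E.pr_pr]
      rw [h1] at hyc'
      have h2 : E.co a (φ y) + E.co a (φ y') - E.pr a v =
          E.co a (φ y') - (E.pr a v - E.co a (φ y)) := by abel
      rw [h2]
      exact hyc'
  · -- small radius
    refine ⟨y, mem_pow_mono h1S (by nlinarith) hy, hyl, hyc.trans ?_⟩
    have hnM : n ≤ 2 * M + 1 := by omega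
    have h1 : (n : ℝ) ^ (a - 1) ≤ ((2 * M + 1 : ℕ) : ℝ) ^ (a - 1) :=
      pow_le_pow_left₀ (by positivity) (by exact_mod_cast hnM) _
    rw [hC]
    push_cast at h1 ⊢
    exact mul_le_mul_of_nonneg_left h1 (by positivity)

/-- the base case: multiples of the image of an element -/
lemma reach_base (h1S : (1 : Γ) ∈ S) (hSi : S⁻¹ = S) (hgen : ∀ x : Γ, ∃ n : ℕ, x ∈ S ^ n)
    (γ : Γ) : E.Reach S φ 1 (E.co 1 (φ γ)) := by
  obtain ⟨l, hl⟩ := hgen γ
  obtain ⟨c, hc⟩ := exists_nat_ge ‖E.co 1 (φ γ)‖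
  have hpow : ∀ k : ℕ, γ ^ k ∈ S ^ (l * k) := by
    intro k
    rw [pow_mul]
    exact Set.pow_mem_pow hl
  have hco : ∀ k : ℕ, E.co 1 (φ γ ^ k) = (k : ℝ) • E.co 1 (φ γ) := by
    intro k
    rw [← E.pw_nat, E.co_pw]
  refine ⟨l, c, fun n hn t ht => ?_⟩
  rw [pow_one] at ht
  rw [Nat.sub_self, pow_zero, mul_one]
  have hfl : |t - ⌊t⌋| ≤ 1 := by
    rw [abs_le]
    have h1 := Int.floor_le t
    have h2 := Int.lt_floor_add_one t
    constructor <;> linarith
  have habs : |(⌊t⌋ : ℤ)| ≤ (n : ℤ) := by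
    rw [abs_le] at ht ⊢
    constructor
    · rw [Int.le_floor]; push_cast; linarith
    · have h1 := Int.floor_le t
      have h2 : ((⌊t⌋ : ℤ) : ℝ) ≤ ((n : ℤ) : ℝ) := by push_cast; linarith
      exact_mod_cast h2
  have hfin : ∀ z : G, E.co 1 z = ((⌊t⌋ : ℤ) : ℝ) • E.co 1 (φ γ) →
      ‖E.co 1 z - t • E.co 1 (φ γ)‖ ≤ c := by
    intro z hz
    rw [hz, ← sub_smul, norm_smul, Real.norm_eq_abs, abs_sub_comm]
    calc |t - (⌊t⌋ : ℤ)| * ‖E.co 1 (φ γ)‖ ≤ 1 * c :=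
          mul_le_mul hfl hc (norm_nonneg _) (by norm_num)
      _ = c := one_mul _
  rcases le_or_gt 0 (⌊t⌋) with h0 | h0
  · obtain ⟨k, hk⟩ := Int.eq_ofNat_of_zero_le h0
    have hkn : k ≤ n := by
      rw [hk] at habs
      have h3 : |((k : ℕ) : ℤ)| = (k : ℤ) := abs_of_nonneg (by positivity)
      rw [h3] at habs
      exact_mod_cast habs
    refine ⟨γ ^ k, mem_pow_mono h1S (Nat.mul_le_mul_left l hkn) (hpow k), E.lv_one _, ?_⟩
    apply hfin
    rw [map_pow, hco, hk]; push_cast; rfl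
  · obtain ⟨k, hk⟩ := Int.eq_ofNat_of_zero_le (show 0 ≤ -⌊t⌋ by omega)
    have hkn : k ≤ n := by
      have h4 : ⌊t⌋ = -(k : ℤ) := by omega
      rw [h4, abs_neg] at habs
      have h3 : |((k : ℕ) : ℤ)| = (k : ℤ) := abs_of_nonneg (by positivity)
      rw [h3] at habs
      exact_mod_cast habs
    have h4 : ⌊t⌋ = -(k : ℤ) := by omega
    refine ⟨(γ ^ k)⁻¹, mem_pow_mono h1S (Nat.mul_le_mul_left l hkn)
      (inv_mem_pow hSi (hpow k)), E.lv_one _, ?_⟩
    apply hfin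
    rw [map_inv, map_pow, E.co_inv, hco, h4]; push_cast
    rw [neg_smul]

variable [IsTopologicalGroup G]

/-- the inductive step: commutators -/
lemma reach_step (hSi : S⁻¹ = S) (h1S : (1 : Γ) ∈ S) {a : ℕ} (ha : 1 ≤ a) (hA : E.ReachB S φ a)
    (h1 : E.ReachB S φ 1)
    {g : G} (hg : E.Lv a g) (h : G) : E.Reach S φ (a + 1) (E.co (a + 1) ⁅g, h⁆) := by
  obtain ⟨La, Ca, hLa⟩ := hA
  obtain ⟨L1, C1, hL1⟩ := h1
  obtain ⟨Cb, hCb⟩ := E.pair_bound ha
  obtain ⟨c, hc⟩ := exists_nat_ge (max ‖E.e g‖ (max ‖E.e h‖ 1))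
  have hcg : ‖E.e g‖ ≤ c := (le_max_left _ _).trans hc
  have hch : ‖E.e h‖ ≤ c := (le_max_left _ _).trans ((le_max_right _ _).trans hc)
  have hc1 : (1 : ℝ) ≤ c := (le_max_right _ _).trans ((le_max_right _ _).trans hc)
  have hc1' : 1 ≤ c := by exact_mod_cast hc1
  refine ⟨2 * (La * c + L1 * c), Cb * (Ca * (c + C1)) + Cb * (c * C1), fun n hn t ht => ?_⟩
  have hn1 : (1 : ℝ) ≤ n := by exact_mod_cast hn
  have hn0 : (0 : ℝ) < n := by linarith
  -- approximate the two factors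
  have hva : ‖(t / n) • E.e g‖ ≤ ((n * c : ℕ) : ℝ) ^ a := by
    rw [norm_smul, Real.norm_eq_abs, abs_div, abs_of_pos hn0]
    push_cast
    rw [mul_pow]
    apply mul_le_mul _ (hcg.trans (le_self_pow₀ hc1 (by omega))) (norm_nonneg _) (by positivity)
    rw [div_le_iff₀ hn0, ← pow_succ]
    exact ht
  obtain ⟨y1, hy1, hy1l, hy1c⟩ := hLa (n * c) (Nat.mul_pos hn hc1') _ hva
  have hv1 : ‖(n : ℝ) • E.e h‖ ≤ ((n * c : ℕ) : ℝ) ^ 1 := by
    rw [norm_smul, Real.norm_eq_abs, abs_of_pos hn0, pow_one]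
    push_cast
    exact mul_le_mul_of_nonneg_left hch hn0.le
  obtain ⟨x1, hx1, _, hx1c⟩ := hL1 (n * c) (Nat.mul_pos hn hc1') _ hv1
  refine ⟨⁅y1, x1⁆, ?_, ?_, ?_⟩
  · have h2 := mul_mem_pow (mul_mem_pow (mul_mem_pow hy1 hx1) (inv_mem_pow hSi hy1))
      (inv_mem_pow hSi hx1)
    rw [commutatorElement_def]
    refine mem_pow_mono h1S ?_ h2
    apply le_of_eq
    ring
  · rw [map_commutatorElement]
    exact E.lv_comm ha hy1l _
  · rw [map_commutatorElement]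
    set g1 := φ y1 with hg1
    set h1 := φ x1 with hh1
    set gt := E.pw g (t / n) with hgt
    set hn' := E.pw h n with hhn'
    have hgtl : E.Lv a gt := E.lv_pw hg _
    set r := gt⁻¹ * g1 with hr
    have hrl : E.Lv a r := E.lv_mul (E.lv_inv hgtl) hy1l
    set s := hn'⁻¹ * h1 with hs
    have hrc : ‖E.co a r‖ ≤ Ca := by
      have h2 : E.co a r = E.co a g1 - E.pr a ((t / n) • E.e g) := by
        rw [hr, E.co_mul (E.lv_inv hgtl) hy1l (by omega), E.co_inv, hgt, E.co_pw, map_smul, co]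
        abel
      rw [h2]; exact hy1c
    have hsc : ‖E.co 1 s‖ ≤ C1 := by
      have h2 : E.co 1 s = E.co 1 h1 - E.pr 1 ((n : ℝ) • E.e h) := by
        rw [hs, E.co_mul (E.lv_one _) (E.lv_one _) (by omega), E.co_inv, hhn', E.co_pw,
          map_smul, co]
        abel
      rw [h2]; exact hx1c
    have e1 : E.co (a + 1) ⁅g1, h1⁆ = E.co (a + 1) ⁅gt, h1⁆ + E.co (a + 1) ⁅r, h1⁆ := by
      have h2 : g1 = gt * r := by rw [hr]; group
      conv_lhs => rw [h2]
      exact E.pair_mul_left ha hgtl hrl h1 hgtl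
    have e2 : E.co (a + 1) ⁅gt, h1⁆ = E.co (a + 1) ⁅gt, hn'⁆ + E.co (a + 1) ⁅gt, s⁆ := by
      have h2 : h1 = hn' * s := by rw [hs]; group
      conv_lhs => rw [h2]
      exact E.pair_mul_right ha hgtl hn' s
    have e3 : E.co (a + 1) ⁅gt, hn'⁆ = t • E.co (a + 1) ⁅g, h⁆ := by
      rw [hhn', E.pair_pw_right ha hgtl, hgt, E.pair_pw_left ha hg, smul_smul]
      congr 1
      field_simp
    have hh1n : ‖E.co 1 h1‖ ≤ n * (c + C1) := by
      have h2 : E.co 1 h1 = E.co 1 hn' + E.co 1 s := by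
        have h3 : h1 = hn' * s := by rw [hs]; group
        rw [h3, E.co_mul (E.lv_one _) (E.lv_one _) (by omega)]
      have h4 : ‖E.co 1 hn'‖ ≤ n * c := by
        rw [hhn', E.co_pw, norm_smul, Real.norm_eq_abs, abs_of_pos hn0]
        exact mul_le_mul_of_nonneg_left ((E.norm_pr_le _ _).trans hch) hn0.le
      rw [h2]
      have h5 : (0 : ℝ) ≤ C1 := Nat.cast_nonneg _
      calc ‖E.co 1 hn' + E.co 1 s‖ ≤ n * c + C1 := (norm_add_le _ _).trans (add_le_add h4 hsc)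
        _ ≤ n * (c + C1) := by nlinarith
    have hgtn : ‖E.co a gt‖ ≤ (n : ℝ) ^ a * c := by
      rw [hgt, E.co_pw, norm_smul, Real.norm_eq_abs, abs_div, abs_of_pos hn0]
      apply mul_le_mul _ ((E.norm_pr_le _ _).trans hcg) (norm_nonneg _) (by positivity)
      rw [div_le_iff₀ hn0, ← pow_succ]
      exact ht
    have hna : (n : ℝ) ≤ (n : ℝ) ^ a := le_self_pow₀ hn1 (by omega)
    have e4 : ‖E.co (a + 1) ⁅r, h1⁆‖ ≤ Cb * (Ca * (c + C1)) * (n : ℝ) ^ a := by
      refine (hCb r h1 hrl).trans ?_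
      have h2 : ‖E.co a r‖ * ‖E.co 1 h1‖ ≤ Ca * (n * (c + C1)) :=
        mul_le_mul hrc hh1n (norm_nonneg _) (by positivity)
      calc (Cb : ℝ) * (‖E.co a r‖ * ‖E.co 1 h1‖) ≤ Cb * (Ca * (n * (c + C1))) :=
            mul_le_mul_of_nonneg_left h2 (by positivity)
        _ = Cb * (Ca * (c + C1)) * n := by ring
        _ ≤ _ := mul_le_mul_of_nonneg_left hna (by positivity)
    have e5 : ‖E.co (a + 1) ⁅gt, s⁆‖ ≤ Cb * (c * C1) * (n : ℝ) ^ a := by
      refine (hCb gt s hgtl).trans ?_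
      have h2 : ‖E.co a gt‖ * ‖E.co 1 s‖ ≤ (n : ℝ) ^ a * c * C1 :=
        mul_le_mul hgtn hsc (norm_nonneg _) (by positivity)
      calc (Cb : ℝ) * (‖E.co a gt‖ * ‖E.co 1 s‖) ≤ Cb * ((n : ℝ) ^ a * c * C1) :=
            mul_le_mul_of_nonneg_left h2 (by positivity)
        _ = _ := by ring
    rw [e1, e2, e3]
    have h6 : t • E.co (a + 1) ⁅g, h⁆ + E.co (a + 1) ⁅gt, s⁆ + E.co (a + 1) ⁅r, h1⁆ -
        t • E.co (a + 1) ⁅g, h⁆ = E.co (a + 1) ⁅r, h1⁆ + E.co (a + 1) ⁅gt, s⁆ := by abel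
    rw [h6, Nat.add_sub_cancel]
    push_cast
    rw [add_mul]
    exact (norm_add_le _ _).trans (add_le_add e4 e5)

/-- the weight `a + 1` vectors are spanned by commutators -/
lemma span_pair {a : ℕ} (ha : 1 ≤ a) (v : Fin m → ℝ) : E.pr (a + 1) v ∈
    Submodule.span ℝ {u | ∃ g h : G, E.Lv a g ∧ u = E.co (a + 1) ⁅g, h⁆} := by
  obtain ⟨k, rfl⟩ : ∃ k, a = k + 1 := ⟨a - 1, by omega⟩
  -- every element of the next term
  have key : ∀ z ∈ (⊤ : Subgroup G).lowerCentralSeries (k + 1), E.co (k + 1 + 1) z ∈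
      Submodule.span ℝ {u | ∃ g h : G, E.Lv (k + 1) g ∧ u = E.co (k + 1 + 1) ⁅g, h⁆} := by
    intro z hz
    have hlv : ∀ z ∈ (⊤ : Subgroup G).lowerCentralSeries (k + 1), E.Lv (k + 1 + 1) z :=
      fun z hz => (E.lv_succ_iff (k + 1) z).mpr hz
    rw [Subgroup.mem_lowerCentralSeries_succ_iff] at hz
    have hz' := hz
    refine Subgroup.closure_induction (p := fun z hz => E.co (k + 1 + 1) z ∈
      Submodule.span ℝ {u | ∃ g h : G, E.Lv (k + 1) g ∧ u = E.co (k + 1 + 1) ⁅g, h⁆})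
      ?_ ?_ ?_ ?_ hz
    · rintro x ⟨p, hp, q, _, rfl⟩
      exact Submodule.subset_span ⟨p, q, (E.lv_succ_iff k p).mpr hp, rfl⟩
    · rw [E.co_one]; exact Submodule.zero_mem _
    · intro x y hx hy hx' hy'
      rw [E.co_mul (hlv x hx) (hlv y hy) (by omega)]
      exact Submodule.add_mem _ hx' hy'
    · intro x hx hx'
      rw [E.co_inv]
      exact Submodule.neg_mem _ hx'
  have h1 := key (E.e.symm (E.pr (k + 1 + 1) v))
    ((E.lv_succ_iff (k + 1) _).mp (E.lv_symm_pr _ v))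
  rw [co, Homeomorph.apply_symm_apply, E.pr_pr] at h1
  exact h1

/-- **All weights are reached**, if the abelianization is spanned. -/
theorem reachB_all (h1S : (1 : Γ) ∈ S) (hSi : S⁻¹ = S) (hgen : ∀ x : Γ, ∃ n : ℕ, x ∈ S ^ n)
    (hspan : ∀ v, E.pr 1 v ∈ Submodule.span ℝ (Set.range (fun γ : Γ => E.co 1 (φ γ))))
    (a : ℕ) (ha : 1 ≤ a) : E.ReachB S φ a := by
  have hone : E.ReachB S φ 1 := by
    apply E.reach_bounded S φ h1S le_rfl
    intro v
    refine E.reach_span S φ le_rfl ?_ (hspan v)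
    rintro u ⟨γ, rfl⟩
    exact E.reach_base S φ h1S hSi hgen γ
  induction a, ha using Nat.le_induction with
  | base => exact hone
  | succ a ha ih =>
    apply E.reach_bounded S φ h1S (by omega)
    intro v
    refine E.reach_span S φ (by omega) ?_ (E.span_pair ha v)
    rintro u ⟨g, h, hg, rfl⟩
    exact E.reach_step S φ hSi h1S ha ih hone hg h

/-- **Linear control**: every element of `K ^ n` is at bounded distance from the image of the
ball of radius `L n`. -/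
theorem linear_control (h1S : (1 : Γ) ∈ S) (hSi : S⁻¹ = S) (hSf : S.Finite)
    (hgen : ∀ x : Γ, ∃ n : ℕ, x ∈ S ^ n)
    (hspan : ∀ v, E.pr 1 v ∈ Submodule.span ℝ (Set.range (fun γ : Γ => E.co 1 (φ γ))))
    {K : Set G} (hK : IsCompact K) (hK1 : K ∈ 𝓝 (1 : G)) (hKi : K⁻¹ = K)
    (hex : ∀ g : G, ∃ n, g ∈ K ^ n) :
    ∃ L C : ℕ, ∀ n : ℕ, 1 ≤ n → ∀ g ∈ K ^ n, ∃ y ∈ S ^ (L * n),
      ∀ i, |E.e ((φ y)⁻¹ * g) i| ≤ C := by
  have h1K : (1 : G) ∈ K := mem_of_mem_nhds hK1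
  obtain ⟨D, hD1, hD⟩ := E.growth_sharp hK
  -- φ is Lipschitz
  obtain ⟨c, hc⟩ := compact_subset_pow hK1 hex (Q := φ '' S) ((hSf.image φ).isCompact)
  have hlip : ∀ n : ℕ, ∀ y ∈ S ^ n, φ y ∈ K ^ (c * n) := by
    intro n
    induction n with
    | zero =>
      intro y hy
      rw [pow_zero, Set.mem_one] at hy
      simp [hy]
    | succ n ih =>
      intro y hy
      rw [pow_succ] at hy
      obtain ⟨y', hy', s, hs, rfl⟩ := hy
      simp only
      rw [map_mul, mul_add, mul_one]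
      exact mul_mem_pow (ih y' hy') (hc ⟨s, hs, rfl⟩)
  have key : ∀ a : ℕ, ∃ L C : ℕ, ∀ n : ℕ, 1 ≤ n → ∀ g ∈ K ^ n, ∃ y ∈ S ^ (L * n),
      ∀ i, E.w i ≤ a → |E.e ((φ y)⁻¹ * g) i| ≤ C := by
    intro a
    induction a with
    | zero =>
      exact ⟨0, 0, fun n _ g _ => ⟨1, by simp, fun i hi => absurd (E.w_pos i) (by omega)⟩⟩
    | succ a ih =>
      obtain ⟨L, C, hL⟩ := ih
      obtain ⟨L', C', hL'⟩ := E.reachB_all S φ h1S hSi hgen hspan (a + 1) (by omega)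
      refine ⟨L + L' * (D * (c * L + 1)), C + C', fun n hn g hg => ?_⟩
      obtain ⟨y0, hy0, hy0c⟩ := hL n hn g hg
      set g' := (φ y0)⁻¹ * g with hg'
      have hg'K : g' ∈ K ^ ((c * L + 1) * n) := by
        have h2 := mul_mem_pow (inv_mem_pow hKi (hlip _ y0 hy0)) hg
        have h3 : c * (L * n) + n = (c * L + 1) * n := by ring
        rwa [h3] at h2
      have hg'e := hD ((c * L + 1) * n) (Nat.mul_pos (by omega) hn) g' hg'K
      set N := D * (c * L + 1) * n with hN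
      have hN1 : 1 ≤ N := Nat.mul_pos (Nat.mul_pos hD1 (by omega)) hn
      have hv : ‖E.pr (a + 1) (E.e g')‖ ≤ (N : ℝ) ^ (a + 1) := by
        rw [pi_norm_le_iff_of_nonneg (by positivity)]
        intro i
        rw [pr_apply]
        split_ifs with h1
        · have h2 := hg'e i
          rw [h1] at h2
          refine h2.trans (le_of_eq ?_)
          rw [hN]; push_cast; ring
        · rw [norm_zero]; positivity
      obtain ⟨y1, hy1, hy1l, hy1c⟩ := hL' N hN1 _ hv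
      rw [E.pr_pr] at hy1c
      refine ⟨y0 * y1, ?_, ?_⟩
      · have h2 := mul_mem_pow hy0 hy1
        have h3 : L * n + L' * N = (L + L' * (D * (c * L + 1))) * n := by rw [hN]; ring
        rwa [h3] at h2
      · intro i hi
        have h2 : (φ (y0 * y1))⁻¹ * g = (φ y1)⁻¹ * g' := by
          rw [hg', map_mul]; group
        rw [h2, E.e_mul_add (E.lv_inv hy1l) (E.lv_one g') (by omega), E.e_inv, Pi.neg_apply]
        by_cases h3 : E.w i ≤ a
        · rw [hy1l i (by omega), neg_zero, zero_add]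
          refine (hy0c i h3).trans ?_
          push_cast
          have : (0 : ℝ) ≤ (C' : ℝ) := Nat.cast_nonneg _
          linarith
        · have h4 : E.w i = a + 1 := by omega
          have h5 := norm_le_pi_norm (E.co (a + 1) (φ y1) - E.pr (a + 1) (E.e g')) i
          rw [Pi.sub_apply, co_apply, pr_apply, if_pos h4, if_pos h4, Real.norm_eq_abs,
            abs_sub_comm] at h5
          have h6 : -E.e (φ y1) i + E.e g' i = E.e g' i - E.e (φ y1) i := by ring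
          rw [h6]
          refine (h5.trans hy1c).trans ?_
          push_cast
          have : (0 : ℝ) ≤ (C : ℝ) := Nat.cast_nonneg _
          linarith
  obtain ⟨L, C, hL⟩ := key (∑ i, E.w i)
  refine ⟨L, C, fun n hn g hg => ?_⟩
  obtain ⟨y, hy, hyc⟩ := hL n hn g hg
  exact ⟨y, hy, fun i => hyc i (Finset.single_le_sum (f := fun i => E.w i)
    (fun _ _ => Nat.zero_le _) (Finset.mem_univ i))⟩

end

end NilCoords

end BE6F
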