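import Pool.Agent.BE6F.QI

/-!
# Exponential coordinates adapted to the lower central series
-/

set_option autoImplicit false

open Filter Topology
open scoped Pointwise commutatorElement

namespace BE6F

/-- Exponential coordinates adapted to the lower central series: every coordinate `i` has a weight
`w i ≥ 1`, the correction polynomial `P i` of the multiplication law has weighted degree at most
`w i`, and the `n`-th term of the lower central series (Mathlib indexing, so that the term of
index `0` is the whole group and the term of index `1` is the commutator subgroup) is given by the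
vanishing of all the coordinates of weight at most `n`.

For a simply connected nilpotent Lie group these are the logarithm in a basis of the Lie algebra
adapted to its lower central series, the weight of a basis vector being its depth in the series. -/
structure NilCoords (m : ℕ) (G : Type) [Group G] [TopologicalSpace G] extends
    ExpCoords m G where
  /-- the weights -/
  w : Fin m → ℕ
  /-- weights are at least one -/
  w_pos : ∀ i, 1 ≤ w i
  /-- the correction polynomial `P i` has weighted degree at most `w i` -/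
  wdeg : ∀ i, (P i).weightedTotalDegree (Sum.elim (fun j => w j.1) (fun j => w j.1)) ≤ w i
  /-- the lower central series in coordinates -/
  lcs : ∀ (n : ℕ) (g : G), g ∈ (⊤ : Subgroup G).lowerCentralSeries n ↔
    ∀ i, w i ≤ n → e g i = 0

namespace NilCoords

variable {m : ℕ} {G : Type} [Group G] [TopologicalSpace G] (E : NilCoords m G)

/-- the weighted degree of an exponent -/
lemma weight_sum {i : Fin m} (d : ({j : Fin m // j < i} ⊕ {j : Fin m // j < i}) →₀ ℕ) :
    Finsupp.weight (Sum.elim (fun j : {j : Fin m // j < i} => E.w j.1)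
      (fun j : {j : Fin m // j < i} => E.w j.1)) d =
    ∑ v, d (Sum.inl v) * E.w v.1 + ∑ v, d (Sum.inr v) * E.w v.1 := by
  rw [Finsupp.weight_apply, Finsupp.sum_fintype _ _ (by simp), Fintype.sum_sum_type]
  simp

lemma weight_le {i : Fin m} {d : ({j : Fin m // j < i} ⊕ {j : Fin m // j < i}) →₀ ℕ}
    (hd : d ∈ (E.P i).support) :
    ∑ v, d (Sum.inl v) * E.w v.1 + ∑ v, d (Sum.inr v) * E.w v.1 ≤ E.w i := by
  rw [← E.weight_sum d]
  exact (MvPolynomial.le_weightedTotalDegree _ hd).trans (E.wdeg i)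

/-- the value of a monomial -/
noncomputable def term (i : Fin m) (x y : {j : Fin m // j < i} → ℝ)
    (d : ({j : Fin m // j < i} ⊕ {j : Fin m // j < i}) →₀ ℕ) : ℝ :=
  (E.P i).coeff d * ((∏ v, x v ^ d (Sum.inl v)) * ∏ v, y v ^ d (Sum.inr v))

lemma eval_eq_term (i : Fin m) (x y : {j : Fin m // j < i} → ℝ) :
    MvPolynomial.eval (Sum.elim x y) (E.P i) = ∑ d ∈ (E.P i).support, E.term i x y d := by
  rw [MvPolynomial.eval_eq']
  apply Finset.sum_congr rfl
  intro d _
  rw [term, Fintype.prod_sum_type]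
  rfl

/-- mixed exponents -/
def Mixed {i : Fin m} (d : ({j : Fin m // j < i} ⊕ {j : Fin m // j < i}) →₀ ℕ) : Prop :=
  (∃ v, d (Sum.inl v) ≠ 0) ∧ ∃ v, d (Sum.inr v) ≠ 0

lemma eval_zero_right (i : Fin m) (x : {j : Fin m // j < i} → ℝ) :
    MvPolynomial.eval (Sum.elim x (fun _ => (0 : ℝ))) (E.P i) = 0 := by
  have h := E.eval_P_right (E.e.symm (fun j => if h : j < i then x ⟨j, h⟩ else 0)) i
  have h2 : (fun j : {j : Fin m // j < i} =>
      E.e (E.e.symm (fun j => if h : j < i then x ⟨j, h⟩ else 0)) j.1) = x := by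
    funext j
    rw [Homeomorph.apply_symm_apply, dif_pos j.2]
  rw [h2] at h
  exact h

lemma eval_zero_left (i : Fin m) (y : {j : Fin m // j < i} → ℝ) :
    MvPolynomial.eval (Sum.elim (fun _ => (0 : ℝ)) y) (E.P i) = 0 := by
  have h := E.eval_P_left (E.e.symm (fun j => if h : j < i then y ⟨j, h⟩ else 0)) i
  have h2 : (fun j : {j : Fin m // j < i} =>
      E.e (E.e.symm (fun j => if h : j < i then y ⟨j, h⟩ else 0)) j.1) = y := by
    funext j
    rw [Homeomorph.apply_symm_apply, dif_pos j.2]
  rw [h2] at h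
  exact h

open Classical in
/-- **Only mixed monomials contribute to the multiplication law.** -/
lemma eval_eq_mixed (i : Fin m) (x y : {j : Fin m // j < i} → ℝ) :
    MvPolynomial.eval (Sum.elim x y) (E.P i) =
      ∑ d ∈ (E.P i).support, if Mixed d then E.term i x y d else 0 := by
  have key : ∀ d, E.term i x y d = (if Mixed d then E.term i x y d else 0) +
      E.term i x (fun _ => 0) d + E.term i (fun _ => 0) y d -
        E.term i (fun _ => 0) (fun _ => 0) d := by
    intro d
    by_cases hl : ∃ v, d (Sum.inl v) ≠ 0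
    · have h0l : ∏ v, (0 : ℝ) ^ d (Sum.inl v) = 0 := by
        obtain ⟨v, hv⟩ := hl
        exact Finset.prod_eq_zero (Finset.mem_univ v) (zero_pow hv)
      by_cases hr : ∃ v, d (Sum.inr v) ≠ 0
      · have h0r : ∏ v, (0 : ℝ) ^ d (Sum.inr v) = 0 := by
          obtain ⟨v, hv⟩ := hr
          exact Finset.prod_eq_zero (Finset.mem_univ v) (zero_pow hv)
        rw [if_pos ⟨hl, hr⟩]
        simp only [term, h0l, h0r]
        ring
      · rw [if_neg (fun h => hr h.2)]
        push Not at hr
        simp only [term, h0l, hr, pow_zero]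
        ring
    · rw [if_neg (fun h => hl h.1)]
      push Not at hl
      by_cases hr : ∃ v, d (Sum.inr v) ≠ 0
      · have h0r : ∏ v, (0 : ℝ) ^ d (Sum.inr v) = 0 := by
          obtain ⟨v, hv⟩ := hr
          exact Finset.prod_eq_zero (Finset.mem_univ v) (zero_pow hv)
        simp only [term, h0r, hl, pow_zero]
        ring
      · push Not at hr
        simp only [term, hl, hr, pow_zero]
        ring
  rw [E.eval_eq_term, Finset.sum_congr rfl (fun d _ => key d)]
  rw [Finset.sum_sub_distrib, Finset.sum_add_distrib, Finset.sum_add_distrib,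
    ← E.eval_eq_term, ← E.eval_eq_term, ← E.eval_eq_term, E.eval_zero_right, E.eval_zero_left,
    E.eval_zero_right]
  ring

lemma prod_bound {σ : Type} [Fintype σ] (x : σ → ℝ) (d w : σ → ℕ) (X : ℝ) (_hX : 0 ≤ X)
    (h : ∀ v, |x v| ≤ X ^ w v) : |∏ v, x v ^ d v| ≤ X ^ (∑ v, d v * w v) := by
  rw [Finset.abs_prod, ← Finset.prod_pow_eq_pow_sum]
  apply Finset.prod_le_prod (fun v _ => abs_nonneg _)
  intro v _
  rw [abs_pow, mul_comm (d v), pow_mul]
  exact pow_le_pow_left₀ (abs_nonneg _) (h v) _

/-- **Size of the correction term.** -/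
lemma mixed_bound (i : Fin m) : ∃ C : ℕ, ∀ (X Y : ℝ), 1 ≤ X → 1 ≤ Y →
    ∀ (x y : {j : Fin m // j < i} → ℝ), (∀ v, |x v| ≤ X ^ E.w v.1) →
      (∀ v, |y v| ≤ Y ^ E.w v.1) →
      |MvPolynomial.eval (Sum.elim x y) (E.P i)| ≤ C * (X ^ (E.w i - 1) * Y ^ (E.w i - 1)) := by
  classical
  obtain ⟨C, hC⟩ := exists_nat_ge (∑ d ∈ (E.P i).support, |(E.P i).coeff d|)
  refine ⟨C, fun X Y hX hY x y hx hy => ?_⟩
  rw [E.eval_eq_mixed]
  have hXY : (0 : ℝ) ≤ X ^ (E.w i - 1) * Y ^ (E.w i - 1) := by positivity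
  calc |∑ d ∈ (E.P i).support, if Mixed d then E.term i x y d else 0|
      ≤ ∑ d ∈ (E.P i).support, |if Mixed d then E.term i x y d else 0| :=
        Finset.abs_sum_le_sum_abs _ _
    _ ≤ ∑ d ∈ (E.P i).support, |(E.P i).coeff d| * (X ^ (E.w i - 1) * Y ^ (E.w i - 1)) := by
        apply Finset.sum_le_sum
        intro d hd
        split_ifs with hm
        · rw [term, abs_mul]
          apply mul_le_mul_of_nonneg_left _ (abs_nonneg _)
          rw [abs_mul]
          have h1 := prod_bound x (fun v => d (Sum.inl v)) (fun v => E.w v.1) X (by linarith) hx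
          have h2 := prod_bound y (fun v => d (Sum.inr v)) (fun v => E.w v.1) Y (by linarith) hy
          have hw := E.weight_le hd
          obtain ⟨⟨v1, hv1⟩, ⟨v2, hv2⟩⟩ := hm
          have h3 : 1 ≤ ∑ v, d (Sum.inl v) * E.w v.1 := by
            have h4 : d (Sum.inl v1) * E.w v1.1 ≤ ∑ v, d (Sum.inl v) * E.w v.1 :=
              Finset.single_le_sum (f := fun v => d (Sum.inl v) * E.w v.1)
                (fun _ _ => Nat.zero_le _) (Finset.mem_univ v1)
            have h5 : 1 ≤ d (Sum.inl v1) * E.w v1.1 :=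
              Nat.mul_pos (Nat.pos_of_ne_zero hv1) (E.w_pos _)
            omega
          have h3' : 1 ≤ ∑ v, d (Sum.inr v) * E.w v.1 := by
            have h4 : d (Sum.inr v2) * E.w v2.1 ≤ ∑ v, d (Sum.inr v) * E.w v.1 :=
              Finset.single_le_sum (f := fun v => d (Sum.inr v) * E.w v.1)
                (fun _ _ => Nat.zero_le _) (Finset.mem_univ v2)
            have h5 : 1 ≤ d (Sum.inr v2) * E.w v2.1 :=
              Nat.mul_pos (Nat.pos_of_ne_zero hv2) (E.w_pos _)
            omega
          apply mul_le_mul (h1.trans (pow_le_pow_right₀ hX (by omega)))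
            (h2.trans (pow_le_pow_right₀ hY (by omega))) (abs_nonneg _) (by positivity)
        · rw [abs_zero]; positivity
    _ = (∑ d ∈ (E.P i).support, |(E.P i).coeff d|) * (X ^ (E.w i - 1) * Y ^ (E.w i - 1)) := by
        rw [Finset.sum_mul]
    _ ≤ C * (X ^ (E.w i - 1) * Y ^ (E.w i - 1)) := mul_le_mul_of_nonneg_right hC hXY

/-- **Vanishing of the correction term for deep elements.** -/
lemma mixed_zero (i : Fin m) (a b : ℕ) (hab : E.w i < a + b) (x y : {j : Fin m // j < i} → ℝ)
    (hx : ∀ v, E.w v.1 < a → x v = 0) (hy : ∀ v, E.w v.1 < b → y v = 0) :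
    MvPolynomial.eval (Sum.elim x y) (E.P i) = 0 := by
  classical
  rw [E.eval_eq_mixed]
  apply Finset.sum_eq_zero
  intro d hd
  split_ifs with hm
  · obtain ⟨⟨v1, hv1⟩, ⟨v2, hv2⟩⟩ := hm
    have hw := E.weight_le hd
    have h4 : d (Sum.inl v1) * E.w v1.1 ≤ ∑ v, d (Sum.inl v) * E.w v.1 :=
      Finset.single_le_sum (f := fun v => d (Sum.inl v) * E.w v.1)
        (fun _ _ => Nat.zero_le _) (Finset.mem_univ v1)
    have h4' : d (Sum.inr v2) * E.w v2.1 ≤ ∑ v, d (Sum.inr v) * E.w v.1 :=
      Finset.single_le_sum (f := fun v => d (Sum.inr v) * E.w v.1)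
        (fun _ _ => Nat.zero_le _) (Finset.mem_univ v2)
    have h5 : E.w v1.1 ≤ d (Sum.inl v1) * E.w v1.1 :=
      Nat.le_mul_of_pos_left _ (Nat.pos_of_ne_zero hv1)
    have h5' : E.w v2.1 ≤ d (Sum.inr v2) * E.w v2.1 :=
      Nat.le_mul_of_pos_left _ (Nat.pos_of_ne_zero hv2)
    by_cases h1 : E.w v1.1 < a
    · have : ∏ v, x v ^ d (Sum.inl v) = 0 :=
        Finset.prod_eq_zero (Finset.mem_univ v1) (by rw [hx v1 h1, zero_pow hv1])
      rw [term, this]; ring
    · by_cases h2 : E.w v2.1 < b
      · have : ∏ v, y v ^ d (Sum.inr v) = 0 :=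
          Finset.prod_eq_zero (Finset.mem_univ v2) (by rw [hy v2 h2, zero_pow hv2])
        rw [term, this]; ring
      · omega
  · rfl

/-- **Variation of the correction term.** -/
lemma mixed_diff (i : Fin m) : ∃ C : ℕ, ∀ (X D : ℝ), 1 ≤ X → 0 ≤ D →
    ∀ (x y y' : {j : Fin m // j < i} → ℝ), (∀ v, |x v| ≤ X ^ E.w v.1) →
      (∀ v, |y v| ≤ X ^ E.w v.1) → (∀ v, |y' v| ≤ X ^ E.w v.1) →
      (∀ v, |y v - y' v| ≤ D * X ^ (E.w v.1 - 1)) →
      |MvPolynomial.eval (Sum.elim x y) (E.P i) - MvPolynomial.eval (Sum.elim x y') (E.P i)| ≤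
        C * D * X ^ (E.w i - 1) := by
  classical
  -- Lipschitz constants of the monomials on the unit cube
  have hlip : ∀ d, ∃ C : ℕ, ∀ (z z' : {j : Fin m // j < i} ⊕ {j : Fin m // j < i} → ℝ) (δ : ℝ),
      0 ≤ δ → (∀ v, |z v| ≤ 1) → (∀ v, |z' v| ≤ 1) → (∀ v, |z v - z' v| ≤ δ) →
      |MvPolynomial.eval z (MvPolynomial.monomial d ((E.P i).coeff d)) -
        MvPolynomial.eval z' (MvPolynomial.monomial d ((E.P i).coeff d))| ≤ C * δ := by
    intro d
    obtain ⟨C, e, hC⟩ := mvpoly_lip (MvPolynomial.monomial d ((E.P i).coeff d))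
    refine ⟨C * 2 ^ e, fun z z' δ hδ hz hz' hzz => ?_⟩
    have := hC 1 z z' δ hδ (by simpa using hz) (by simpa using hz') hzz
    push_cast at this ⊢
    norm_num at this
    exact this
  choose Cd hCd using hlip
  refine ⟨∑ d ∈ (E.P i).support, Cd d, fun X D hX hD x y y' hx hy hy' hyy => ?_⟩
  have hX0 : (0 : ℝ) < X := by linarith
  rw [E.eval_eq_term, E.eval_eq_term, ← Finset.sum_sub_distrib]
  -- scaling
  have hscale : ∀ (y : {j : Fin m // j < i} → ℝ) (d), E.term i x y d =
      X ^ (∑ v, d (Sum.inl v) * E.w v.1 + ∑ v, d (Sum.inr v) * E.w v.1) *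
      MvPolynomial.eval (Sum.elim (fun v => x v / X ^ E.w v.1) (fun v => y v / X ^ E.w v.1))
        (MvPolynomial.monomial d ((E.P i).coeff d)) := by
    intro y d
    rw [MvPolynomial.eval_monomial, Finsupp.prod_fintype _ _ (by simp), Fintype.prod_sum_type]
    simp only [Sum.elim_inl, Sum.elim_inr, div_pow, Finset.prod_div_distrib]
    have h1 : ∏ v : {j : Fin m // j < i}, (X ^ E.w v.1) ^ d (Sum.inl v) =
        X ^ (∑ v, d (Sum.inl v) * E.w v.1) := by
      rw [← Finset.prod_pow_eq_pow_sum]
      apply Finset.prod_congr rfl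
      intro v _
      rw [← pow_mul, mul_comm]
    have h2 : ∏ v : {j : Fin m // j < i}, (X ^ E.w v.1) ^ d (Sum.inr v) =
        X ^ (∑ v, d (Sum.inr v) * E.w v.1) := by
      rw [← Finset.prod_pow_eq_pow_sum]
      apply Finset.prod_congr rfl
      intro v _
      rw [← pow_mul, mul_comm]
    rw [h1, h2, term, pow_add]
    field_simp
  have hsc : ∀ (y : {j : Fin m // j < i} → ℝ), (∀ v, |y v| ≤ X ^ E.w v.1) →
      ∀ v, |y v / X ^ E.w v.1| ≤ 1 := by
    intro y hy v
    rw [abs_div, abs_of_pos (by positivity : (0 : ℝ) < X ^ E.w v.1), div_le_one (by positivity)]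
    exact hy v
  calc |∑ d ∈ (E.P i).support, (E.term i x y d - E.term i x y' d)|
      ≤ ∑ d ∈ (E.P i).support, |E.term i x y d - E.term i x y' d| :=
        Finset.abs_sum_le_sum_abs _ _
    _ ≤ ∑ d ∈ (E.P i).support, (Cd d : ℝ) * (D * X ^ (E.w i - 1)) := by
        apply Finset.sum_le_sum
        intro d hd
        rw [hscale y d, hscale y' d, ← mul_sub, abs_mul, abs_of_pos (by positivity)]
        have h1 := hCd d
          (Sum.elim (fun v => x v / X ^ E.w v.1) (fun v => y v / X ^ E.w v.1))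
          (Sum.elim (fun v => x v / X ^ E.w v.1) (fun v => y' v / X ^ E.w v.1)) (D / X)
          (by positivity)
          (by rintro (v | v); exacts [hsc x hx v, hsc y hy v])
          (by rintro (v | v); exacts [hsc x hx v, hsc y' hy' v])
          (by
            rintro (v | v)
            · simp only [Sum.elim_inl, sub_self, abs_zero]; positivity
            · simp only [Sum.elim_inr]
              rw [← sub_div, abs_div, abs_of_pos (by positivity : (0 : ℝ) < X ^ E.w v.1),
                div_le_div_iff₀ (by positivity) hX0]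
              have h2 := hyy v
              have h3 : X ^ (E.w v.1 - 1) * X = X ^ E.w v.1 := by
                rw [← pow_succ, Nat.sub_add_cancel (E.w_pos _)]
              calc |y v - y' v| * X ≤ D * X ^ (E.w v.1 - 1) * X :=
                    mul_le_mul_of_nonneg_right h2 hX0.le
                _ = D * X ^ E.w v.1 := by rw [mul_assoc, h3])
        have hw := E.weight_le hd
        have h4 : X ^ (∑ v, d (Sum.inl v) * E.w v.1 + ∑ v, d (Sum.inr v) * E.w v.1) ≤
            X ^ E.w i := pow_le_pow_right₀ hX hw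
        have h5 : X ^ E.w i * (D / X) = D * X ^ (E.w i - 1) := by
          have : X ^ E.w i = X ^ (E.w i - 1) * X := by
            rw [← pow_succ, Nat.sub_add_cancel (E.w_pos _)]
          rw [this]; field_simp
        calc _ ≤ X ^ (∑ v, d (Sum.inl v) * E.w v.1 + ∑ v, d (Sum.inr v) * E.w v.1) *
                (Cd d * (D / X)) := mul_le_mul_of_nonneg_left h1 (by positivity)
          _ ≤ X ^ E.w i * (Cd d * (D / X)) := mul_le_mul_of_nonneg_right h4 (by positivity)
          _ = Cd d * (X ^ E.w i * (D / X)) := by ring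
          _ = Cd d * (D * X ^ (E.w i - 1)) := by rw [h5]
    _ = _ := by
        rw [← Finset.sum_mul]; push_cast; ring

/-! ### Depth -/

/-- `g` lies in the `a`-th term of the lower central series (`a = 1` being the whole group) -/
def Lv (a : ℕ) (g : G) : Prop := ∀ i, E.w i < a → E.e g i = 0

lemma lv_succ_iff (n : ℕ) (g : G) :
    E.Lv (n + 1) g ↔ g ∈ (⊤ : Subgroup G).lowerCentralSeries n := by
  rw [E.lcs]
  constructor
  · intro h i hi; exact h i (by omega)
  · intro h i hi; exact h i (by omega)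

lemma lv_one (g : G) : E.Lv 1 g := fun i hi => absurd (E.w_pos i) (by omega)

lemma lv_mono {a b : ℕ} (hab : a ≤ b) {g : G} (h : E.Lv b g) : E.Lv a g :=
  fun i hi => h i (by omega)

/-- **Additivity of the coordinates.** -/
lemma e_mul_add {a b : ℕ} {g h : G} (hg : E.Lv a g) (hh : E.Lv b h) {i : Fin m}
    (hi : E.w i < a + b) : E.e (g * h) i = E.e g i + E.e h i := by
  rw [E.mul_apply, E.mixed_zero i a b hi _ _ (fun v hv => hg v.1 hv) (fun v hv => hh v.1 hv),
    add_zero]

lemma lv_mul {a : ℕ} {g h : G} (hg : E.Lv a g) (hh : E.Lv a h) : E.Lv a (g * h) := by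
  intro i hi
  rw [E.e_mul_add hg hh (by omega), hg i hi, hh i hi, add_zero]

lemma lv_inv {a : ℕ} {g : G} (hg : E.Lv a g) : E.Lv a g⁻¹ := by
  intro i hi
  rw [E.e_inv]; simp [hg i hi]

lemma lv_comm {a : ℕ} (ha : 1 ≤ a) {g : G} (hg : E.Lv a g) (h : G) : E.Lv (a + 1) ⁅g, h⁆ := by
  obtain ⟨n, rfl⟩ : ∃ n, a = n + 1 := ⟨a - 1, by omega⟩
  rw [E.lv_succ_iff] at hg ⊢
  rw [Subgroup.lowerCentralSeries_succ]
  exact Subgroup.commutator_mem_commutator hg (Subgroup.mem_top h)

lemma lv_conj {a : ℕ} (ha : 1 ≤ a) {g : G} (hg : E.Lv a g) (h : G) : E.Lv a (h * g * h⁻¹) := by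
  have h1 : h * g * h⁻¹ = ⁅g, h⁆⁻¹ * g := by rw [commutatorElement_def]; group
  rw [h1]
  exact E.lv_mul (E.lv_inv (E.lv_mono (Nat.le_succ _) (E.lv_comm ha hg h))) hg

/-- commutators with the commutator subgroup are deeper -/
lemma lv_comm_two {a : ℕ} (ha : 1 ≤ a) {g h : G} (hg : E.Lv a g) (hh : E.Lv 2 h) :
    E.Lv (a + 2) ⁅g, h⁆ := by
  intro i hi
  have hz := E.lv_comm ha hg h
  have h1 : g * h = ⁅g, h⁆ * (h * g) := by rw [commutatorElement_def]; group
  have h2 : E.e (g * h) i = E.e g i + E.e h i := E.e_mul_add hg hh (by omega)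
  have h3 : E.e (h * g) i = E.e h i + E.e g i := E.e_mul_add hh hg (by omega)
  have h4 : E.e (⁅g, h⁆ * (h * g)) i = E.e ⁅g, h⁆ i + E.e (h * g) i :=
    E.e_mul_add hz (E.lv_one _) (by omega)
  rw [← h1, h2, h3] at h4
  linarith

/-- two elements agree modulo the `a`-th term iff their coordinates of weight `< a` agree -/
lemma lv_inv_mul_iff (a : ℕ) (g h : G) :
    E.Lv a (g⁻¹ * h) ↔ ∀ i, E.w i < a → E.e g i = E.e h i := by
  constructor
  · intro hl i hi
    have h1 : h = g * (g⁻¹ * h) := by group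
    have h2 : E.e (g * (g⁻¹ * h)) i = E.e g i + E.e (g⁻¹ * h) i :=
      E.e_mul_add (E.lv_one g) hl (by omega)
    rw [← h1, hl i hi, add_zero] at h2
    exact h2.symm
  · intro hi
    have key : ∀ b, b ≤ a → E.Lv b (g⁻¹ * h) := by
      intro b
      induction b with
      | zero => intro _ i hi; omega
      | succ b ih =>
        intro hb i hib
        have hl := ih (by omega)
        have h1 : h = g * (g⁻¹ * h) := by group
        have h2 : E.e (g * (g⁻¹ * h)) i = E.e g i + E.e (g⁻¹ * h) i :=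
          E.e_mul_add (E.lv_one g) hl (by omega)
        rw [← h1, hi i (by omega)] at h2
        linarith
    exact key a le_rfl

end NilCoords

end BE6F
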